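import Pool.Agent.Lib.BNR.Wn

/-!
# Interpolation in the direction of `a`

With `w = 1 / q`, `c = (1 + x) z`, `δ = a_j - a`: `w_j = w + δ c w w_j`, hence
`L_j = L + δ (1 + c L) w + δ ^ 2 (1 + c L) c w w_j` and
`w_j ^ 2 = w ^ 2 + 2 δ c w ^ 3 + δ ^ 2 c ^ 2 (2 w ^ 3 w_j + w ^ 2 w_j ^ 2)`.
-/

set_option autoImplicit false

open Complex Metric Set
open Pool.Agent.P187f6b Pool.Agent.P187w

namespace Pool.Agent.BNR

open SeqAux WnAux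

namespace IntA2Aux

lemma sqn {a : ℝ} (h0 : 0 ≤ a) (h1 : a < 1) : 0 ≤ 1 - a ^ 2 := by nlinarith

lemma sqm {a b : ℝ} (h0 : 0 ≤ a) (h1 : a ≤ b) : 1 - b ^ 2 ≤ 1 - a ^ 2 := by nlinarith

lemma cvlo {u a b : ℝ} (h0 : 0 ≤ u) (hab : a ≤ b) : a ≤ (1 - u) * a + u * b := by nlinarith

lemma cvhi {u a b : ℝ} (h1 : u ≤ 1) (hab : a ≤ b) : (1 - u) * a + u * b ≤ b := by nlinarith

lemma quarter (u d : ℝ) : (1 - u) * (-(u * d)) ^ 2 + u * ((1 - u) * d) ^ 2 ≤ d ^ 2 / 4 := by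
  nlinarith [sq_nonneg ((1 - 2 * u) * d)]

/-- The second-order coefficient in the direction of `a`. -/
noncomputable def EA (t0 a a' : ℝ) (x ζ : ℂ) (z : ℂ) : ℂ :=
  (1 + (1 + x) * (z * LN x (gk a (fun _ => 1)) z)) * ((1 + x) * (z * (iq a x z * iq a' x z))) +
    t0 * (z * (pz ζ z * (((1 - (a : ℂ) ^ 2) * (1 + x) ^ 2) * (z * (z *
      (2 * (iq a x z * (iq a x z * (iq a x z * iq a' x z))) +
        iq a x z * (iq a x z * (iq a' x z * iq a' x z))))) -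
      (2 * a * (1 + x)) * (z * (iq a x z * (iq a x z * iq a' x z) +
        iq a x z * (iq a' x z * iq a' x z))) - iq a' x z * iq a' x z)))

lemma node {a a' x z w w' p t : ℂ} (hq : w * (1 - a * (1 + x) * z + x * z ^ 2) = 1)
    (hq' : w' * (1 - a' * (1 + x) * z + x * z ^ 2) = 1) :
    (a' - z) * w' + t * ((1 - a' ^ 2) * z * (w' * w') * p) =
      (a - z) * w + t * ((1 - a ^ 2) * z * (w * w) * p) +
      (a' - a) * ((1 + (1 + x) * z * ((a - z) * w)) * w +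
        t * (z * p * ((1 - a ^ 2) * 2 * ((1 + x) * z) * w ^ 3 - 2 * a * w ^ 2))) +
      (a' - a) ^ 2 * ((1 + (1 + x) * (z * ((a - z) * w))) * ((1 + x) * (z * (w * w'))) +
        t * (z * (p * (((1 - a ^ 2) * (1 + x) ^ 2) * (z * (z *
          (2 * (w * (w * (w * w'))) + w * (w * (w' * w'))))) -
          (2 * a * (1 + x)) * (z * (w * (w * w') + w * (w' * w'))) - w' * w')))) := by
  have h1 : w' = w + (a' - a) * ((1 + x) * z) * w * w' := by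
    linear_combination (-w') * hq + w * hq'
  linear_combination (((a - z) + (a' - a) * (1 + (1 + x) * z * ((a - z) * w))) + t * z * p *
    ((1 - a ^ 2) * (w' + w + (a' - a) * ((1 + x) * z) * w * w' +
      2 * (a' - a) * ((1 + x) * z) * w ^ 2) - 2 * a * (a' - a) * (w' + w))) * h1

lemma EA_Bd {x : ℂ} {l : ℝ} (hx : ‖x‖ ≤ l) (hl : l < 1) {a1 a2 a a' : ℝ} (h01 : 0 ≤ a1)
    (h1 : a1 ≤ a) (h2 : a ≤ a2) (h2' : a2 < 1) {ζ : ℂ} (hζ : ‖ζ‖ = 1) {t0 r F Q : ℝ}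
    (ht : 0 ≤ t0) (hr0 : 0 ≤ r) (hr1 : r < 1) {P : ℝ} (hP : (1 + r) / (1 - r) ≤ P)
    (hF : Bd r (LN x (gk a (fun _ => 1))) F) (hQ : Bd r (iq a x) Q) (hQ' : Bd r (iq a' x) Q) :
    Bd r (EA t0 a a' x ζ) ((1 + (1 + l) * r * F) * ((1 + l) * r) * Q ^ 2 +
      t0 * P * r * (Q ^ 2 + 4 * a2 * ((1 + l) * r) * Q ^ 3 +
        3 * (1 - a1 ^ 2) * ((1 + l) * r) ^ 2 * Q ^ 4)) := by
  have hl0 : 0 ≤ l := (norm_nonneg x).trans hx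
  have hQ0 : 0 ≤ Q := hQ.nonneg hr0
  have hF0 : 0 ≤ F := hF.nonneg hr0
  have hW : ‖1 + x‖ ≤ 1 + l := (norm_add_le _ _).trans (by rw [norm_one]; linarith)
  have hp := (Bd_pz hζ hr0 hr1).mono hP
  have hz := Bd.id r
  have b1 := Bd.add hr0 hr1 (Bd.const r 1) (Bd.smul' hr0 (Bd.mul hr0 hr1 hz hF) hW)
  have b2 := Bd.smul' hr0 (Bd.mul hr0 hr1 hz (Bd.mul hr0 hr1 hQ hQ')) hW
  have b3 := Bd.mul hr0 hr1 b1 b2
  have c2 : ‖(2 : ℂ)‖ ≤ 2 := by simp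
  have b4 := Bd.smul' hr0
    (Bd.mul hr0 hr1 hQ (Bd.mul hr0 hr1 hQ (Bd.mul hr0 hr1 hQ hQ'))) c2
  have b5 := Bd.mul hr0 hr1 hQ (Bd.mul hr0 hr1 hQ (Bd.mul hr0 hr1 hQ' hQ'))
  have c3 : ‖(1 - (a : ℂ) ^ 2) * (1 + x) ^ 2‖ ≤ (1 - a1 ^ 2) * (1 + l) ^ 2 := by
    have e : (1 - (a : ℂ) ^ 2) = ((1 - a ^ 2 : ℝ) : ℂ) := by push_cast; ring
    rw [norm_mul, norm_pow, e, Complex.norm_real, Real.norm_eq_abs,
      abs_of_nonneg (sqn (h01.trans h1) (lt_of_le_of_lt h2 h2'))]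
    have h3 : 1 - a ^ 2 ≤ 1 - a1 ^ 2 := sqm h01 h1
    have h4 : ‖1 + x‖ ^ 2 ≤ (1 + l) ^ 2 := pow_le_pow_left₀ (norm_nonneg _) hW 2
    exact mul_le_mul h3 h4 (by positivity) (sqn h01 (lt_of_le_of_lt (h1.trans h2) h2'))
  have b6 := Bd.smul' hr0 (Bd.mul hr0 hr1 hz (Bd.mul hr0 hr1 hz (Bd.add hr0 hr1 b4 b5))) c3
  have c4 : ‖2 * (a : ℂ) * (1 + x)‖ ≤ 2 * a2 * (1 + l) := by
    rw [norm_mul, norm_mul, Complex.norm_real, Real.norm_eq_abs,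
      abs_of_nonneg (by linarith)]
    have h3 : ‖(2 : ℂ)‖ = 2 := by simp
    rw [h3]
    exact mul_le_mul (by linarith) hW (norm_nonneg _) (by linarith)
  have b7 := Bd.smul' hr0 (Bd.mul hr0 hr1 hz (Bd.add hr0 hr1
    (Bd.mul hr0 hr1 hQ (Bd.mul hr0 hr1 hQ hQ')) (Bd.mul hr0 hr1 hQ (Bd.mul hr0 hr1 hQ' hQ')))) c4
  have b8 := Bd.sub hr0 hr1 (Bd.sub hr0 hr1 b6 b7) (Bd.mul hr0 hr1 hQ' hQ')
  have c5 : ‖(t0 : ℂ)‖ ≤ t0 := by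
    rw [Complex.norm_real, Real.norm_eq_abs, abs_of_nonneg ht]
  have b9 := Bd.smul' hr0 (Bd.mul hr0 hr1 hz (Bd.mul hr0 hr1 hp b8)) c5
  have b10 := Bd.add hr0 hr1 b3 b9
  refine Bd.mono (f := EA t0 a a' x ζ) b10 (le_of_eq ?_)
  rw [norm_one]
  ring

end IntA2Aux

open IntA2Aux

/-- Interpolation in the direction of `a`. -/
theorem IntA2 {x : ℂ} {l : ℝ} (hx : ‖x‖ ≤ l) (hl : l < 1) {a1 a2 a u : ℝ} (h01 : 0 ≤ a1)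
    (h12 : a1 ≤ a2) (h2 : a2 < 1) (hu0 : 0 ≤ u) (hu1 : u ≤ 1) (ha : a = (1 - u) * a1 + u * a2)
    {ζ : ℂ} (hζ : ‖ζ‖ = 1) {t0 r F Q P : ℝ} (ht : 0 ≤ t0) (hr0 : 0 ≤ r) (hr1 : r < 1)
    (hF0 : 0 ≤ F) (hF : 1 ≤ F ^ 2 * ((1 - l ^ 2) * (1 - r ^ 2))) (hQ1 : 1 ≤ Q)
    (hQ : r ^ 2 * (a2 ^ 2 + l ^ 2 / (1 - l ^ 2)) ≤ (Q - 1) ^ 2 * ((1 - a2 ^ 2) * (1 - r ^ 2)))
    (hP : (1 + r) / (1 - r) ≤ P) :
    nr (XF t0 a x ζ) r ≤ (1 - u) * nr (XF t0 a1 x ζ) r + u * nr (XF t0 a2 x ζ) r +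
      (a2 - a1) ^ 2 / 4 * ((1 + (1 + l) * r * F) * ((1 + l) * r) * Q ^ 2 +
      t0 * P * r * (Q ^ 2 + 4 * a2 * ((1 + l) * r) * Q ^ 3 +
        3 * (1 - a1 ^ 2) * ((1 + l) * r) ^ 2 * Q ^ 4)) := by
  have hl0 : 0 ≤ l := (norm_nonneg x).trans hx
  have hx1 : ‖x‖ < 1 := lt_of_le_of_lt hx hl
  have g1 : a1 ≤ a := ha ▸ cvlo hu0 h12
  have g2 : a ≤ a2 := ha ▸ cvhi hu1 h12
  have ha0 : 0 ≤ a := h01.trans g1
  have ha1 : a ≤ 1 := by linarith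
  have ha11 : a1 ≤ 1 := by linarith
  have h02 : 0 ≤ a2 := by linarith
  have BF := Bd_L hx hl ha0 ha1 hr0 hr1 hF0 hF
  have BQ := Bd_iq hx hl ha0 g2 h2 hr0 hr1 hQ1 hQ
  have BQ1 := Bd_iq hx hl h01 h12 h2 hr0 hr1 hQ1 hQ
  have BQ2 := Bd_iq hx hl h02 le_rfl h2 hr0 hr1 hQ1 hQ
  have E1 := EA_Bd hx hl h01 g1 g2 h2 hζ ht hr0 hr1 hP BF BQ BQ1
  have E2 := EA_Bd hx hl h01 g1 g2 h2 hζ ht hr0 hr1 hP BF BQ BQ2
  set K : ℝ := (1 + (1 + l) * r * F) * ((1 + l) * r) * Q ^ 2 +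
      t0 * P * r * (Q ^ 2 + 4 * a2 * ((1 + l) * r) * Q ^ 3 +
        3 * (1 - a1 ^ 2) * ((1 + l) * r) ^ 2 * Q ^ 4) with hK
  have hK0 : 0 ≤ K := E1.nonneg hr0
  have d1 : (a1 - a) = -(u * (a2 - a1)) := by rw [ha]; ring
  have d2 : (a2 - a) = (1 - u) * (a2 - a1) := by rw [ha]; ring
  have hu1' : 0 ≤ 1 - u := by linarith
  have c1 : ‖((-((1 - u) * (a1 - a) ^ 2) : ℝ) : ℂ)‖ ≤ (1 - u) * (a1 - a) ^ 2 := by
    rw [Complex.norm_real, Real.norm_eq_abs, abs_neg, abs_of_nonneg (by positivity)]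
  have c2 : ‖((-(u * (a2 - a) ^ 2) : ℝ) : ℂ)‖ ≤ u * (a2 - a) ^ 2 := by
    rw [Complex.norm_real, Real.norm_eq_abs, abs_neg, abs_of_nonneg (by positivity)]
  have BE := Bd.add hr0 hr1 (Bd.smul' hr0 E1 c1) (Bd.smul' hr0 E2 c2)
  have hcomb := nr_comb (f := XF t0 a x ζ) (XF_diff hx1 h01 ha11 hζ t0)
    (XF_diff hx1 h02 h2.le hζ t0) BE.1 hu0 hu1 (fun z hz => ?_) hr0 hr1
  · refine hcomb.trans ?_
    have h3 := BE.2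
    have h4 : (1 - u) * (a1 - a) ^ 2 * K + u * (a2 - a) ^ 2 * K ≤ (a2 - a1) ^ 2 / 4 * K := by
      rw [d1, d2]
      have h5 := mul_le_mul_of_nonneg_right (quarter u (a2 - a1)) hK0
      linarith
    linarith
  · have n1 := node (a := a) (a' := a1) (x := x) (z := z) (p := pz ζ z) (t := t0)
      (iq_q hx1 ha0 ha1 hz) (iq_q hx1 h01 ha11 hz)
    have n2 := node (a := a) (a' := a2) (x := x) (z := z) (p := pz ζ z) (t := t0)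
      (iq_q hx1 ha0 ha1 hz) (iq_q hx1 h02 h2.le hz)
    rw [XF_eq, XF_eq, XF_eq]
    simp only [EA]
    rw [VV_iq, VV_iq, VV_iq, L_iq hx1 ha0 ha1 hz, L_iq hx1 h01 ha11 hz, L_iq hx1 h02 h2.le hz]
    have hac : (a : ℂ) = (1 - u) * a1 + u * a2 := by rw [ha]; push_cast; ring
    push_cast
    generalize iq (↑a) x z = w at *
    generalize iq (↑a1) x z = w1 at *
    generalize iq (↑a2) x z = w2 at *
    generalize pz ζ z = p at *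
    linear_combination -(1 - (u : ℂ)) * n1 - (u : ℂ) * n2 + ((1 + (1 + x) * z * ((a - z) * w)) * w +
        t0 * (z * p * ((1 - (a : ℂ) ^ 2) * 2 * ((1 + x) * z) * w ^ 3 - 2 * a * w ^ 2))) * hac

end Pool.Agent.BNR
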