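import Pool.Agent.Lib.BNR.Wn

/-!
# The function `XF` and the interpolation in `x`

`XF t0 a x ζ = L + t0 V (1 + ζ z) / (1 - ζ z)`, `L = LN x (gk a 1) = (a - z) / q`,
`V = (1 - a ^ 2) z / q ^ 2`, `q = (1 - a z) - x z (a - z)`. With `δ = y - x`, `v = 1 / q`:
`L_y = L + δ z L ^ 2 + δ ^ 2 z ^ 2 L ^ 2 L_y`, `v_y = v + δ z L v_y`,
`v_y ^ 2 = v ^ 2 + 2 δ z L v ^ 2 + δ ^ 2 z ^ 2 L ^ 2 (2 v v_y + v_y ^ 2)`.
-/

set_option autoImplicit false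

open Complex Metric Set
open Pool.Agent.P187f6b Pool.Agent.P187w

namespace Pool.Agent.BNR

open SeqAux WnAux

namespace IntXAux

/-- Relations between the functions at two points `x`, `y`. -/
lemma rel {x y : ℂ} (hx : ‖x‖ < 1) (hy : ‖y‖ < 1) {a : ℝ} (ha0 : 0 ≤ a) (ha1 : a ≤ 1) {z : ℂ}
    (hz : ‖z‖ < 1) :
    iq a y z = iq a x z + (y - x) * (z * (LN x (gk a (fun _ => 1)) z * iq a y z)) ∧
    LN y (gk a (fun _ => 1)) z = LN x (gk a (fun _ => 1)) z +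
      (y - x) * (z * (LN x (gk a (fun _ => 1)) z * LN y (gk a (fun _ => 1)) z)) ∧
    VV a x z = (1 - a ^ 2) * (z * (iq a x z * iq a x z)) := by
  have h1 := q_ne hx ha0 ha1 hz
  have h2 := q_ne hy ha0 ha1 hz
  have h1' := one_sub_azk_ne ha0 ha1 Sc_one hz
  have e : ∀ w : ℂ, 1 - a * (1 + w) * z + w * z ^ 2 ≠ 0 →
      LN w (gk a (fun _ => 1)) z = (a - z) / (1 - a * (1 + w) * z + w * z ^ 2) := by
    intro w hw
    unfold LN gk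
    have e0 : 1 - w * z * ((a - z * 1) / (1 - a * (z * 1))) =
        ((1 - a * (z * 1)) - w * z * (a - z * 1)) / (1 - a * (z * 1)) := by
      generalize (1 : ℂ) - a * (z * 1) = B at h1' ⊢
      field_simp
    rw [e0, div_div_div_cancel_right₀ h1']
    congr 1 <;> ring
  rw [e x h1, e y h2]
  unfold iq VV
  generalize hq1 : 1 - a * (1 + x) * z + x * z ^ 2 = q1 at h1 ⊢
  generalize hq2 : 1 - a * (1 + y) * z + y * z ^ 2 = q2 at h2 ⊢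
  have hd : q2 - q1 = -((y - x) * (z * (a - z))) := by
    rw [← hq1, ← hq2]; ring
  refine ⟨?_, ?_, ?_⟩
  · field_simp
    linear_combination -hd
  · field_simp
    linear_combination -(a - z) * hd
  · field_simp

lemma Bd_VV {x : ℂ} {l : ℝ} (hx : ‖x‖ ≤ l) (hl : l < 1) {a : ℝ} (ha0 : 0 ≤ a) (ha1 : a < 1)
    {r Q nV : ℝ} (hr0 : 0 ≤ r) (hr1 : r < 1) (hQ : nr (iq a x) r ≤ Q)
    (hnV : (1 - a ^ 2) * r * Q ^ 2 ≤ nV) : Bd r (VV a x) nV := by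
  have hx1 : ‖x‖ < 1 := lt_of_le_of_lt hx hl
  have hv : Bd r (iq a x) Q := ⟨iq_diff hx1 ha0 ha1.le, hQ⟩
  have h1 := ((Bd.id r).mul hr0 hr1 (hv.mul hr0 hr1 hv)).smul ((1 - a ^ 2 : ℝ) : ℂ)
  have haa : 0 < 1 - a ^ 2 := by nlinarith
  rw [Complex.norm_real, Real.norm_eq_abs, abs_of_pos haa] at h1
  refine (h1.congr (fun z hz => ?_) (VV_diff hx1 ha0 ha1.le)).mono (by nlinarith)
  have h2 := (rel hx1 hx1 ha0 ha1.le hz).2.2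
  rw [h2]
  push_cast
  ring

end IntXAux

open IntXAux

/-- Interpolation in `x`. -/
theorem intX {x x1 x2 : ℂ} {l : ℝ} (hx : ‖x‖ ≤ l) (hx1 : ‖x1‖ ≤ l) (hx2 : ‖x2‖ ≤ l)
    (hl : l < 1) {a a2 : ℝ} (ha0 : 0 ≤ a) (ha : a ≤ a2) (ha2 : a2 < 1) {u : ℝ} (hu0 : 0 ≤ u)
    (hu1 : u ≤ 1) {η D : ℝ} (hη : ‖x - ((1 - u) * x1 + u * x2)‖ ≤ η)
    (hD : (1 - u) * ‖x1 - x‖ ^ 2 + u * ‖x2 - x‖ ^ 2 ≤ D) {t0 : ℝ} (ht : 0 ≤ t0) {ζ : ℂ}
    (hζ : ‖ζ‖ = 1) {r F Q nV P : ℝ} (hr0 : 0 ≤ r) (hr1 : r < 1) (hF0 : 0 ≤ F)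
    (hF : 1 ≤ F ^ 2 * ((1 - l ^ 2) * (1 - r ^ 2)))
    (hQ1 : 1 ≤ Q)
    (hQ : r ^ 2 * (a2 ^ 2 + l ^ 2 / (1 - l ^ 2)) ≤ (Q - 1) ^ 2 * ((1 - a2 ^ 2) * (1 - r ^ 2)))
    (hnV : (1 - a ^ 2) * r * Q ^ 2 ≤ nV) (hP : (1 + r) / (1 - r) ≤ P) :
    nr (XF t0 a x ζ) r ≤ (1 - u) * nr (XF t0 a x1 ζ) r + u * nr (XF t0 a x2 ζ) r +
      (η * (r * F ^ 2 + 2 * t0 * P * (r * F * nV)) +
        D * (r ^ 2 * F ^ 3 + 3 * t0 * P * (r ^ 2 * F ^ 2 * nV))) := by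
  have ha1 : a < 1 := lt_of_le_of_lt ha ha2
  have haa : 0 < 1 - a ^ 2 := by nlinarith
  have hxx : ‖x‖ < 1 := lt_of_le_of_lt hx hl
  have hxx1 : ‖x1‖ < 1 := lt_of_le_of_lt hx1 hl
  have hxx2 : ‖x2‖ < 1 := lt_of_le_of_lt hx2 hl
  have hS := gk_Sc ha0 ha1.le Sc_one
  have hQx := nr_iq_le hx hl ha0 ha ha2 hr0 hr1 hQ1 hQ
  have hQx1 := nr_iq_le hx1 hl ha0 ha ha2 hr0 hr1 hQ1 hQ
  have hQx2 := nr_iq_le hx2 hl ha0 ha ha2 hr0 hr1 hQ1 hQ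
  have hQ0 : 0 ≤ Q := (nr_nonneg _ hr0).trans hQx
  have hV := Bd_VV hx hl ha0 ha1 hr0 hr1 hQx hnV
  have hnV0 : 0 ≤ nV := (nr_nonneg _ hr0).trans hV.2
  have hp : Bd r (pz ζ) P := (Bd_pz hζ hr0 hr1).mono hP
  have hP0 : 0 ≤ P := (nr_nonneg _ hr0).trans hp.2
  set L : ℂ → ℂ := LN x (gk a (fun _ => 1)) with hLd
  set L1 : ℂ → ℂ := LN x1 (gk a (fun _ => 1)) with hL1d
  set L2 : ℂ → ℂ := LN x2 (gk a (fun _ => 1)) with hL2d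
  have bL : Bd r L F := ⟨LN_diff hxx hS, nr_LN_le hx hl hS hr0 hr1 hF0 hF⟩
  have bL1 : Bd r L1 F := ⟨LN_diff hxx1 hS, nr_LN_le hx1 hl hS hr0 hr1 hF0 hF⟩
  have bL2 : Bd r L2 F := ⟨LN_diff hxx2 hS, nr_LN_le hx2 hl hS hr0 hr1 hF0 hF⟩
  have bv : Bd r (iq a x) Q := ⟨iq_diff hxx ha0 ha1.le, hQx⟩
  have bv1 : Bd r (iq a x1) Q := ⟨iq_diff hxx1 ha0 ha1.le, hQx1⟩
  have bv2 : Bd r (iq a x2) Q := ⟨iq_diff hxx2 ha0 ha1.le, hQx2⟩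
  have bz : Bd r (fun z => z) r := Bd.id r
  -- the first order term
  have bE0 := (bz.mul hr0 hr1 (bL.mul hr0 hr1 bL)).add hr0 hr1
    ((bz.mul hr0 hr1 (bL.mul hr0 hr1 (hV.mul hr0 hr1 hp))).smul ((2 * t0 : ℝ) : ℂ))
  -- the second order terms
  have bE : ∀ (M w : ℂ → ℂ), Bd r M F → Bd r w Q →
      Bd r (fun z => z * (z * (L z * (L z * (M z + ((t0 * (1 - a ^ 2) : ℝ) : ℂ) *
        (z * ((((2 : ℝ) : ℂ) * (iq a x z * w z) + w z * w z) * pz ζ z)))))))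
        (r ^ 2 * F ^ 3 + 3 * t0 * P * (r ^ 2 * F ^ 2 * nV)) := by
    intro M w hM hw
    have h1 := ((bv.mul hr0 hr1 hw).smul ((2 : ℝ) : ℂ)).add hr0 hr1 (hw.mul hr0 hr1 hw)
    have h2 := (bz.mul hr0 hr1 (h1.mul hr0 hr1 hp)).smul ((t0 * (1 - a ^ 2) : ℝ) : ℂ)
    have h3 := bz.mul hr0 hr1 (bz.mul hr0 hr1 (bL.mul hr0 hr1 (bL.mul hr0 hr1
      (hM.add hr0 hr1 h2))))
    refine h3.mono ?_
    rw [Complex.norm_real, Complex.norm_real, Real.norm_eq_abs, Real.norm_eq_abs,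
      abs_of_nonneg (mul_nonneg ht haa.le), abs_of_nonneg (by norm_num : (0 : ℝ) ≤ 2)]
    have h4 : 0 ≤ r ^ 2 * F ^ 2 * (3 * t0 * P) := by positivity
    have h5 := mul_le_mul_of_nonneg_left hnV h4
    nlinarith
  have bE1 := bE L1 (iq a x1) bL1 bv1
  have bE2 := bE L2 (iq a x2) bL2 bv2
  set E0 : ℂ → ℂ := fun z => (z * (L z * L z)) +
    (((2 * t0 : ℝ) : ℂ) * (z * (L z * (VV a x z * pz ζ z)))) with hE0d
  set E1 : ℂ → ℂ := fun z => z * (z * (L z * (L z * (L1 z + ((t0 * (1 - a ^ 2) : ℝ) : ℂ) *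
        (z * ((((2 : ℝ) : ℂ) * (iq a x z * iq a x1 z) + iq a x1 z * iq a x1 z) *
          pz ζ z)))))) with hE1d
  set E2 : ℂ → ℂ := fun z => z * (z * (L z * (L z * (L2 z + ((t0 * (1 - a ^ 2) : ℝ) : ℂ) *
        (z * ((((2 : ℝ) : ℂ) * (iq a x z * iq a x2 z) + iq a x2 z * iq a x2 z) *
          pz ζ z)))))) with hE2d
  set δ : ℂ := x - ((1 - u) * x1 + u * x2) with hδ
  set c1 : ℂ := -((1 - u) * (x1 - x) ^ 2) with hc1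
  set c2 : ℂ := -(u * (x2 - x) ^ 2) with hc2
  have be := ((bE0.smul δ).add hr0 hr1 (bE1.smul c1)).add hr0 hr1 (bE2.smul c2)
  have hcomb := nr_comb (f := XF t0 a x ζ) (XF_diff hxx1 ha0 ha1.le hζ t0)
    (XF_diff hxx2 ha0 ha1.le hζ t0) be.1 hu0 hu1 (fun z hz => by
      obtain ⟨r1, r2, r3⟩ := rel hxx hxx1 ha0 ha1.le hz
      obtain ⟨s1, s2, s3⟩ := rel hxx hxx2 ha0 ha1.le hz
      obtain ⟨_, _, r4⟩ := rel hxx1 hxx1 ha0 ha1.le hz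
      obtain ⟨_, _, s4⟩ := rel hxx2 hxx2 ha0 ha1.le hz
      have q0 : (1 + ζ * z) / (1 - ζ * z) = pz ζ z := rfl
      simp only [XF, q0, hE0d, hE1d, hE2d]
      rw [r3, r4, s4]
      rw [← hLd, ← hL1d] at r2
      rw [← hLd, ← hL2d] at s2
      rw [← hLd] at r1 s1
      rw [← hLd, ← hL1d, ← hL2d]
      generalize iq a x z = v at *
      generalize iq a x1 z = v1 at *
      generalize iq a x2 z = v2 at *
      generalize pz ζ z = p at *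
      generalize L z = M at *
      generalize L1 z = M1 at *
      generalize L2 z = M2 at *
      rw [hδ, hc1, hc2]
      push_cast
      linear_combination (-(1 - (u : ℂ)) * (1 + (x1 - x) * z * M)) * r2 +
        (-(1 - (u : ℂ)) * t0 * (1 - (a : ℂ) ^ 2) * z * p *
          (v1 + v + (x1 - x) * z * M * v1 + 2 * (x1 - x) * z * M * v)) * r1 +
        (-(u : ℂ) * (1 + (x2 - x) * z * M)) * s2 +
        (-(u : ℂ) * t0 * (1 - (a : ℂ) ^ 2) * z * p *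
          (v2 + v + (x2 - x) * z * M * v2 + 2 * (x2 - x) * z * M * v)) * s1) hr0 hr1
  refine hcomb.trans ?_
  have h6 := be.2
  have n1 : ‖c1‖ = (1 - u) * ‖x1 - x‖ ^ 2 := by
    rw [hc1, norm_neg, norm_mul, norm_pow]
    congr 1
    have : ((1 : ℂ) - u) = ((1 - u : ℝ) : ℂ) := by push_cast; ring
    rw [this, Complex.norm_real, Real.norm_eq_abs, abs_of_nonneg (by linarith)]
  have n2 : ‖c2‖ = u * ‖x2 - x‖ ^ 2 := by
    rw [hc2, norm_neg, norm_mul, norm_pow, Complex.norm_real, Real.norm_eq_abs,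
      abs_of_nonneg hu0]
  have n3 : ‖((2 * t0 : ℝ) : ℂ)‖ = 2 * t0 := by
    rw [Complex.norm_real, Real.norm_eq_abs, abs_of_nonneg (by linarith)]
  rw [n1, n2, n3] at h6
  have hG0 : 0 ≤ r ^ 2 * F ^ 3 + 3 * t0 * P * (r ^ 2 * F ^ 2 * nV) := by positivity
  have hG1 : 0 ≤ r * F ^ 2 + 2 * t0 * P * (r * F * nV) := by positivity
  have h7 := mul_le_mul_of_nonneg_right hη hG1
  have h8 := mul_le_mul_of_nonneg_right hD hG0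
  nlinarith

end Pool.Agent.BNR
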