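import Pool.Agent.Lib.P187w.BndL
import Pool.Agent.Lib.P187w.BndG
import Pool.Agent.Lib.P187o.Func
import Pool.Agent.Lib.P187f6b.Main

/-!
# The coefficient sequences of the near zone

Notation: `p = a (1 + x)`, `q z = 1 - p z + x z ^ 2`. `uu` are the coefficients of `1 / q`, `el`
those of `(a - z) / q = LN x (gk a 1)`, `vv` those of `V = (1 - a ^ 2) z / q ^ 2`, `yy` those of
`V (1 + ζ z) / (1 - ζ z)`; `zz` those of `(1 - x z)⁻² (1 + ζ z) / (1 - ζ z)`.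

Proofs. `tc_el`, `tc_vv`: `q (L_0) = a - z`, `q V = (1 - a ^ 2) z (1 / q)`, compare coefficients
(`P187f6b.tc_eq`, `tc_shift`, `tc_add`; or `HasSum` of the recursion); `q = D - N z` with
`D = 1 - x a z`, `N = a - x z` has no zero in the disc. `cv_vv`, `cv_zz`: induction on `n`
(`cv B (hc · ζ) (n+1) = ζ cv B (hc · ζ) n + B (n+1) + ζ B n`).
Tails: `∑ ‖el n‖^2 ≤ 1 / (1 - l^2)` is `LN_sq`; `V = z v^2 / (1 - a^2)` with
`v = (1 - a^2) / q = vk x a 1` and `∑ ‖v_n‖^2 ≤ (1 - a^2) / (1 - l^2)` (BndV), so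
`‖vv n‖ ≤ 1 / (1 - l^2)` for all `n` (for `a = 1` it is `0`), `‖yy n‖ ≤ (2 n - 1) / (1 - l^2)`, and
`∑_{n ≥ N} (2n - 1) r^n = r^N ((2N - 1)/(1 - r) + 2 r/(1 - r)^2)`.
-/

set_option autoImplicit false

open Complex Metric Set
open Pool.Agent.P187f6b Pool.Agent.P187w

namespace Pool.Agent.BNR

/-- Coefficients of the product of the power series `B` and `c`. -/
def cv (B c : ℕ → ℂ) (n : ℕ) : ℂ := ∑ k ∈ Finset.range (n + 1), B (n - k) * c k

/-- Coefficients of `1 / (1 - a (1 + x) z + x z ^ 2)`. -/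
def uu (a : ℝ) (x : ℂ) : ℕ → ℂ
  | 0 => 1
  | 1 => a * (1 + x)
  | n + 2 => a * (1 + x) * uu a x (n + 1) - x * uu a x n

/-- Coefficients of `(a - z) / (1 - a (1 + x) z + x z ^ 2)`. -/
def el (a : ℝ) (x : ℂ) : ℕ → ℂ
  | 0 => a
  | 1 => a * (1 + x) * a - 1
  | n + 2 => a * (1 + x) * el a x (n + 1) - x * el a x n

/-- Coefficients of `(1 - a ^ 2) z / (1 - a (1 + x) z + x z ^ 2) ^ 2`. -/
def vv (a : ℝ) (x : ℂ) : ℕ → ℂ
  | 0 => 0
  | 1 => 1 - a ^ 2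
  | n + 2 => a * (1 + x) * vv a x (n + 1) - x * vv a x n + (1 - a ^ 2) * uu a x (n + 1)

/-- Coefficients of `V (1 + ζ z) / (1 - ζ z)`. -/
def yy (a : ℝ) (x ζ : ℂ) : ℕ → ℂ
  | 0 => 0
  | n + 1 => ζ * yy a x ζ n + vv a x (n + 1) + ζ * vv a x n

/-- Coefficients of `(1 - x z)⁻² (1 + ζ z) / (1 - ζ z)`. -/
def zz (x ζ : ℂ) : ℕ → ℂ
  | 0 => 1
  | n + 1 => ζ * zz x ζ n + (n + 2) * x ^ (n + 1) + ζ * ((n + 1) * x ^ n)

/-- The function `(1 - a ^ 2) z / q ^ 2`. -/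
noncomputable def VV (a : ℝ) (x : ℂ) (z : ℂ) : ℂ :=
  (1 - a ^ 2) * z / (1 - a * (1 + x) * z + x * z ^ 2) ^ 2


namespace SeqAux

/-- Division by `1 + p z + q z ^ 2`: the recursion of the coefficients. -/
lemma rec2 {f g : ℂ → ℂ} (hf : DifferentiableOn ℂ f (ball 0 1)) {p q : ℂ}
    (h : ∀ z : ℂ, ‖z‖ < 1 → f z * (1 + p * z + q * z ^ 2) = g z) :
    tc f 0 = tc g 0 ∧ tc f 1 = tc g 1 - p * tc f 0 ∧
      ∀ n : ℕ, tc f (n + 2) = tc g (n + 2) - p * tc f (n + 1) - q * tc f n := by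
  have key : ∀ n : ℕ, tc g n = (match n with
      | 0 => tc f 0
      | 1 => tc f 1 + p * tc f 0
      | (m + 2) => tc f (m + 2) + p * tc f (m + 1) + q * tc f m) := by
    refine tc_eq (fun z hz => ?_)
    have h0 := tc_hasSum hf hz
    have h1 := hasSum_shift (y := fun n => p * tc f n) (z := z) (v := p * f z)
      (by refine (h0.mul_left p).congr_fun (fun n => ?_); ring) 0
    have h2 := hasSum_shift (y := fun n => q * tc f n) (z := z) (v := q * f z)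
      (by refine (h0.mul_left q).congr_fun (fun n => ?_); ring) 0
    have h3 := hasSum_shift h2 0
    have h4 := (h0.add h1).add h3
    rw [← h z hz]
    have e : f z * (1 + p * z + q * z ^ 2) = f z + (0 + z * (p * f z)) +
        (0 + z * (0 + z * (q * f z))) := by ring
    rw [e]
    refine h4.congr_fun (fun n => ?_)
    match n with
    | 0 => simp
    | 1 => simp; ring
    | (m + 2) => simp only; ring
  refine ⟨(key 0).symm, ?_, fun n => ?_⟩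
  · have := key 1
    simp only at this
    linear_combination -this
  · have := key (n + 2)
    simp only at this
    linear_combination -this

lemma tc_const_succ (c : ℂ) (n : ℕ) : tc (fun _ => c) (n + 1) = 0 := by
  have := tc_shift (f := fun _ => c) (L := fun _ => (0 : ℂ)) (c := c) (k := 0)
    (differentiableOn_const _) (fun z _ => by ring) n
  simpa using this

lemma tc_aff_zero (c k : ℂ) : tc (fun z => c + k * z) 0 = c := by rw [tc_zero]; simp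

lemma tc_aff_one (c k : ℂ) : tc (fun z => c + k * z) 1 = k := by
  have := tc_shift (f := fun z => c + k * z) (L := fun _ => (1 : ℂ)) (c := c) (k := k)
    (differentiableOn_const _) (fun z _ => by ring) 0
  rw [this, tc_zero]; ring

lemma tc_aff_two (c k : ℂ) (n : ℕ) : tc (fun z => c + k * z) (n + 2) = 0 := by
  have := tc_shift (f := fun z => c + k * z) (L := fun _ => (1 : ℂ)) (c := c) (k := k)
    (differentiableOn_const _) (fun z _ => by ring) (n + 1)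
  rw [this, tc_const_succ]; ring

/-- The function `1 / q`. -/
noncomputable def iq (a : ℝ) (x : ℂ) (z : ℂ) : ℂ := 1 / (1 - a * (1 + x) * z + x * z ^ 2)

end SeqAux

open SeqAux

/-- The denominator `q` does not vanish. -/
lemma q_ne {x : ℂ} (hx : ‖x‖ < 1) {a : ℝ} (ha0 : 0 ≤ a) (ha1 : a ≤ 1) {z : ℂ} (hz : ‖z‖ < 1) :
    1 - a * (1 + x) * z + x * z ^ 2 ≠ 0 := by
  have hxz : ‖x * z‖ < 1 := by
    rw [norm_mul]
    nlinarith [norm_nonneg x, norm_nonneg z]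
  have e : ‖1 - (a : ℂ) * (x * z)‖ ^ 2 - ‖(a : ℂ) - x * z‖ ^ 2 =
      (1 - a ^ 2) * (1 - ‖x * z‖ ^ 2) := by
    rw [← Complex.normSq_eq_norm_sq, ← Complex.normSq_eq_norm_sq, ← Complex.normSq_eq_norm_sq]
    simp only [Complex.normSq_apply, Complex.sub_re, Complex.sub_im, Complex.mul_re,
      Complex.mul_im, Complex.ofReal_re, Complex.ofReal_im, Complex.one_re, Complex.one_im]
    ring
  have h2 : 0 ≤ (1 - a ^ 2) * (1 - ‖x * z‖ ^ 2) := by
    apply mul_nonneg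
    · nlinarith
    · nlinarith [norm_nonneg (x * z)]
  have h3 : ‖(a : ℂ) - x * z‖ ≤ ‖1 - (a : ℂ) * (x * z)‖ := by
    have : ‖(a : ℂ) - x * z‖ ^ 2 ≤ ‖1 - (a : ℂ) * (x * z)‖ ^ 2 := by linarith
    exact le_of_sq_le_sq this (norm_nonneg _)
  have h4 : 0 < ‖1 - (a : ℂ) * (x * z)‖ := by
    rw [norm_pos_iff]
    intro h0
    have h5 : (1 : ℂ) = a * (x * z) := by linear_combination h0
    have h6 : (1 : ℝ) = ‖(a : ℂ) * (x * z)‖ := by rw [← h5]; simp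
    rw [norm_mul, Complex.norm_real, Real.norm_eq_abs, abs_of_nonneg ha0] at h6
    nlinarith [norm_nonneg (x * z)]
  intro h0
  have h5 : 1 - (a : ℂ) * (x * z) = ((a : ℂ) - x * z) * z := by linear_combination h0
  have h6 : ‖1 - (a : ℂ) * (x * z)‖ = ‖(a : ℂ) - x * z‖ * ‖z‖ := by rw [h5, norm_mul]
  nlinarith [norm_nonneg z, norm_nonneg ((a : ℂ) - x * z)]

lemma VV_diff {x : ℂ} (hx : ‖x‖ < 1) {a : ℝ} (ha0 : 0 ≤ a) (ha1 : a ≤ 1) :
    DifferentiableOn ℂ (VV a x) (ball 0 1) := by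
  unfold VV
  refine DifferentiableOn.div (by fun_prop) (by fun_prop) (fun z hz => ?_)
  exact pow_ne_zero 2 (q_ne hx ha0 ha1 (by simpa using hz))

namespace SeqAux

lemma iq_diff {x : ℂ} (hx : ‖x‖ < 1) {a : ℝ} (ha0 : 0 ≤ a) (ha1 : a ≤ 1) :
    DifferentiableOn ℂ (iq a x) (ball 0 1) := by
  unfold iq
  refine DifferentiableOn.div (by fun_prop) (by fun_prop) (fun z hz => ?_)
  exact q_ne hx ha0 ha1 (by simpa using hz)

lemma tc_iq {x : ℂ} (hx : ‖x‖ < 1) {a : ℝ} (ha0 : 0 ≤ a) (ha1 : a ≤ 1) (n : ℕ) :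
    tc (iq a x) n = uu a x n := by
  have h := rec2 (f := iq a x) (g := fun _ => 1) (p := -(a * (1 + x))) (q := x)
    (iq_diff hx ha0 ha1) (fun z hz => by
      have hq := q_ne hx ha0 ha1 hz
      have e : (1 + -(a * (1 + x)) * z + x * z ^ 2) = 1 - a * (1 + x) * z + x * z ^ 2 := by ring
      rw [e, iq]; exact div_mul_cancel₀ _ hq)
  obtain ⟨h0, h1, h2⟩ := h
  have c0 : tc (fun _ : ℂ => (1 : ℂ)) 0 = 1 := by rw [tc_zero]
  rw [c0] at h0
  rw [tc_const_succ, h0] at h1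
  induction n using Nat.twoStepInduction with
  | zero => rw [h0, uu]
  | one => rw [h1, uu]; ring
  | more n ih1 ih2 =>
    rw [h2 n, tc_const_succ, ih1, ih2, uu]; ring

lemma LN_q {x : ℂ} (hx : ‖x‖ < 1) {a : ℝ} (ha0 : 0 ≤ a) (ha1 : a ≤ 1) {z : ℂ} (hz : ‖z‖ < 1) :
    LN x (gk a (fun _ => 1)) z * (1 - a * (1 + x) * z + x * z ^ 2) = a - z := by
  have hk : Sc (fun _ : ℂ => (1 : ℂ)) := Sc_one
  have hg := gk_Sc ha0 ha1 hk
  have d2 := one_sub_azk_ne ha0 ha1 hk hz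
  have d3 := one_sub_xzg_ne hx hg hz
  have eG : gk a (fun _ => 1) z * (1 - (a : ℂ) * (z * 1)) = a - z * 1 := by
    rw [gk]; exact div_mul_cancel₀ _ d2
  have eL : LN x (gk a (fun _ => 1)) z * (1 - x * z * gk a (fun _ => 1) z) =
      gk a (fun _ => 1) z := by
    rw [LN]; exact div_mul_cancel₀ _ d3
  generalize LN x (gk a (fun _ => 1)) z = L at *
  generalize gk a (fun _ => 1) z = G at *
  have e5 : L * ((1 - a * (z * 1)) - x * z * (a - z * 1)) = a - z * 1 := by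
    have : L * ((1 - a * (z * 1)) - x * z * (a - z * 1)) =
        (L * (1 - x * z * G)) * (1 - a * (z * 1)) := by
      rw [← eG]; ring
    rw [this, eL, eG]
  linear_combination e5

end SeqAux

theorem tc_el {x : ℂ} (hx : ‖x‖ < 1) {a : ℝ} (ha0 : 0 ≤ a) (ha1 : a ≤ 1) (n : ℕ) :
    tc (LN x (gk a (fun _ => 1))) n = el a x n := by
  have hg := gk_Sc ha0 ha1 Sc_one
  have h := rec2 (f := LN x (gk a (fun _ => 1))) (g := fun z => (a : ℂ) + -1 * z)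
    (p := -(a * (1 + x))) (q := x) (LN_diff hx hg) (fun z hz => by
      have e := LN_q hx ha0 ha1 hz
      linear_combination e)
  obtain ⟨h0, h1, h2⟩ := h
  rw [tc_aff_zero] at h0
  rw [tc_aff_one, h0] at h1
  induction n using Nat.twoStepInduction with
  | zero => rw [h0, el]
  | one => rw [h1, el]; ring
  | more n ih1 ih2 =>
    rw [h2 n, tc_aff_two, ih1, ih2, el]; ring

theorem tc_vv {x : ℂ} (hx : ‖x‖ < 1) {a : ℝ} (ha0 : 0 ≤ a) (ha1 : a ≤ 1) (n : ℕ) :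
    tc (VV a x) n = vv a x n := by
  have hE := iq_diff hx ha0 ha1
  have hg : ∀ n : ℕ, tc (fun z => (1 - (a : ℂ) ^ 2) * z * iq a x z) (n + 1) =
      (1 - (a : ℂ) ^ 2) * uu a x n := by
    intro n
    rw [tc_shift (c := 0) (k := 1 - (a : ℂ) ^ 2) hE (fun z _ => by ring) n, tc_iq hx ha0 ha1]
  have hg0 : tc (fun z => (1 - (a : ℂ) ^ 2) * z * iq a x z) 0 = 0 := by rw [tc_zero]; simp
  have h := rec2 (f := VV a x) (g := fun z => (1 - (a : ℂ) ^ 2) * z * iq a x z)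
    (p := -(a * (1 + x))) (q := x) (VV_diff hx ha0 ha1) (fun z hz => by
      have hq := q_ne hx ha0 ha1 hz
      have e : (1 + -(a * (1 + x)) * z + x * z ^ 2) = 1 - a * (1 + x) * z + x * z ^ 2 := by ring
      rw [VV, iq, e]
      generalize 1 - (a : ℂ) * (1 + x) * z + x * z ^ 2 = Q at *
      field_simp)
  obtain ⟨h0, h1, h2⟩ := h
  rw [hg0] at h0
  rw [hg 0, h0, uu] at h1
  induction n using Nat.twoStepInduction with
  | zero => rw [h0, vv]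
  | one => rw [h1, vv]; ring
  | more n ih1 ih2 =>
    rw [h2 n, hg (n + 1), ih1, ih2, vv]; ring

namespace SeqAux

lemma cv_succ (B : ℕ → ℂ) (ζ : ℂ) (n : ℕ) : cv B (fun k => hc k ζ) (n + 1) =
    ζ * cv B (fun k => hc k ζ) n + B (n + 1) + ζ * B n := by
  unfold cv
  rw [Finset.sum_range_succ' _ (n + 1), Finset.sum_range_succ' _ n, Finset.sum_range_succ' _ n]
  have e1 : ∀ k ∈ Finset.range n, B (n + 1 - (k + 1 + 1)) * hc (k + 1 + 1) ζ =
      ζ * (B (n - (k + 1)) * hc (k + 1) ζ) := by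
    intro k _
    rw [show n + 1 - (k + 1 + 1) = n - (k + 1) by omega]
    simp only [hc, if_neg (Nat.succ_ne_zero _)]
    ring
  rw [Finset.sum_congr rfl e1, ← Finset.mul_sum]
  simp only [hc, zero_add, Nat.sub_zero, Nat.add_sub_cancel, if_true, if_neg one_ne_zero,
    pow_one, mul_one]
  ring

end SeqAux

theorem cv_vv (a : ℝ) (x ζ : ℂ) (n : ℕ) : cv (vv a x) (fun k => hc k ζ) n = yy a x ζ n := by
  induction n with
  | zero => simp [cv, vv, yy]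
  | succ n ih => rw [cv_succ, ih, yy]

theorem cv_zz (x ζ : ℂ) (n : ℕ) :
    cv (fun n => (n + 1) * x ^ n) (fun k => hc k ζ) n = zz x ζ n := by
  induction n with
  | zero => simp [cv, zz, hc]
  | succ n ih =>
    rw [cv_succ, ih, zz]
    push_cast
    ring

namespace SeqAux

lemma mobF {x w : ℂ} (hx : ‖x‖ ≤ 1) (hw : ‖w‖ ≤ 1) : ‖w - (starRingEnd ℂ) x‖ ≤ ‖1 - x * w‖ := by
  have e : ‖1 - x * w‖ ^ 2 - ‖w - (starRingEnd ℂ) x‖ ^ 2 = (1 - ‖x‖ ^ 2) * (1 - ‖w‖ ^ 2) := by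
    rw [← Complex.normSq_eq_norm_sq, ← Complex.normSq_eq_norm_sq, ← Complex.normSq_eq_norm_sq,
      ← Complex.normSq_eq_norm_sq]
    simp only [Complex.normSq_apply, Complex.sub_re, Complex.sub_im, Complex.mul_re,
      Complex.mul_im, Complex.conj_re, Complex.conj_im, Complex.one_re, Complex.one_im]
    ring
  have h2 : 0 ≤ (1 - ‖x‖ ^ 2) * (1 - ‖w‖ ^ 2) := by
    apply mul_nonneg
    · nlinarith [norm_nonneg x]
    · nlinarith [norm_nonneg w]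
  exact le_of_sq_le_sq (by linarith) (norm_nonneg _)

/-- `∑ |u_n|^2 (1 - a^2) (1 - |x|^2) ≤ 1`. -/
lemma uu_sq {x : ℂ} (hx : ‖x‖ < 1) {a : ℝ} (ha0 : 0 ≤ a) (ha1 : a ≤ 1) (N : ℕ) :
    (1 - a ^ 2) ^ 2 * (1 - ‖x‖ ^ 2) * ∑ n ∈ Finset.range N, ‖uu a x n‖ ^ 2 ≤ 1 - a ^ 2 := by
  have hk : Sc (fun _ : ℂ => (1 : ℂ)) := Sc_one
  have hgs := gk_Sc ha0 ha1 hk
  set c : ℂ := (starRingEnd ℂ) x with hc
  set X : ℝ := 1 - ‖x‖ ^ 2 with hX
  have hX0 : 0 < X := by rw [hX]; nlinarith [norm_nonneg x]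
  have hxc : x * c = ((‖x‖ ^ 2 : ℝ) : ℂ) := by
    rw [hc, Complex.mul_conj, Complex.normSq_eq_norm_sq]
  -- G = z - a c - X z v, v = (1 - a^2) E
  set G : ℂ → ℂ := fun z => -(a * c) + 1 * z * (1 - X * ((1 - a ^ 2) * iq a x z)) with hG
  have hE := iq_diff hx ha0 ha1
  have hin : DifferentiableOn ℂ (fun z => 1 - X * ((1 - (a : ℂ) ^ 2) * iq a x z)) (ball 0 1) :=
    ((hE.const_mul _).const_mul _).const_sub _
  have hGd : DifferentiableOn ℂ G (ball 0 1) := by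
    have h1 : DifferentiableOn ℂ (fun z : ℂ => 1 * z) (ball 0 1) := by fun_prop
    exact (h1.mul hin).const_add _
  have hhd : DifferentiableOn ℂ (fun z => (a : ℂ) + -x * z) (ball 0 1) := by fun_prop
  have hb : ∀ z : ℂ, ‖z‖ < 1 → ‖G z‖ ≤ ‖(a : ℂ) + -x * z‖ := by
    intro z hz
    have hq := q_ne hx ha0 ha1 hz
    have d2 := one_sub_azk_ne ha0 ha1 hk hz
    have d3 := one_sub_xzg_ne hx hgs hz
    have eG : gk a (fun _ => 1) z * (1 - (a : ℂ) * (z * 1)) = a - z * 1 := by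
      rw [gk]; exact div_mul_cancel₀ _ d2
    have hw : ‖z * gk a (fun _ => 1) z‖ ≤ 1 := by
      rw [norm_mul]
      have := hgs.2 z hz
      nlinarith [norm_nonneg z, norm_nonneg (gk a (fun _ => 1) z)]
    have hm := mobF hx.le hw
    have e1 : iq a x z * (1 - a * (1 + x) * z + x * z ^ 2) = 1 := by
      rw [iq]; exact div_mul_cancel₀ _ hq
    have e2 : G z * (1 - x * (z * gk a (fun _ => 1) z)) =
        ((a : ℂ) + -x * z) * (z * gk a (fun _ => 1) z - c) := by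
      have hne : (1 - (a : ℂ) * (z * 1)) ≠ 0 := d2
      apply mul_right_cancel₀ hne
      rw [hG]
      simp only
      have hXc : (X : ℂ) = 1 - x * c := by rw [hxc, hX]; push_cast; ring
      rw [hXc]
      generalize gk a (fun _ => 1) z = g at *
      generalize iq a x z = E at *
      -- g (1 - a z) = a - z, E q = 1
      linear_combination (x * z * (a * c - z * (1 - (1 - x * c) * ((1 - (a : ℂ) ^ 2) * E))) -
        ((a : ℂ) + -x * z) * z) * eG -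
        z * (1 - x * c) * (1 - (a : ℂ) ^ 2) * e1
    have hpos : 0 < ‖1 - x * (z * gk a (fun _ => 1) z)‖ := by
      rw [norm_pos_iff, show x * (z * gk a (fun _ => 1) z) = x * z * gk a (fun _ => 1) z by ring]
      exact d3
    have e3 : ‖G z‖ * ‖1 - x * (z * gk a (fun _ => 1) z)‖ =
        ‖(a : ℂ) + -x * z‖ * ‖z * gk a (fun _ => 1) z - c‖ := by
      rw [← norm_mul, e2, norm_mul]
    refine le_of_mul_le_mul_right ?_ hpos
    rw [e3]
    exact mul_le_mul_of_nonneg_left hm (norm_nonneg _)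
  -- coefficients
  have g0 : tc G 0 = -(a * c) := by rw [tc_zero, hG]; simp
  have g1 : ∀ n, tc G (n + 1) = tc (fun z => 1 - X * ((1 - (a : ℂ) ^ 2) * iq a x z)) n := by
    intro n
    rw [tc_shift (f := G) (c := -(a * c)) (k := 1) hin (fun z _ => rfl) n, one_mul]
  have g2 : tc (fun z => 1 - X * ((1 - (a : ℂ) ^ 2) * iq a x z)) 0 =
      1 - X * (1 - (a : ℂ) ^ 2) := by
    rw [tc_zero, iq]; simp
  have g3 : ∀ n, tc (fun z => 1 - X * ((1 - (a : ℂ) ^ 2) * iq a x z)) (n + 1) =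
      -(X * (1 - (a : ℂ) ^ 2)) * uu a x (n + 1) := by
    intro n
    have hd : DifferentiableOn ℂ (fun z => -(X * (1 - (a : ℂ) ^ 2)) * iq a x z) (ball 0 1) :=
      hE.const_mul _
    have e1 : tc (fun z => 1 - X * ((1 - (a : ℂ) ^ 2) * iq a x z)) (n + 1) =
        tc (fun z => (1 : ℂ) + -(X * (1 - (a : ℂ) ^ 2)) * iq a x z) (n + 1) := by
      refine tc_congr (hd.const_add _) (fun z _ => by ring) _
    rw [e1, tc_add (f := fun _ => (1 : ℂ)) (differentiableOn_const _) hd, tc_const_succ, zero_add]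
    refine tc_eq (c := fun n => -(X * (1 - (a : ℂ) ^ 2)) * uu a x n) (fun z hz => ?_) (n + 1)
    have := (tc_hasSum hE hz).mul_left (-(X * (1 - (a : ℂ) ^ 2)))
    refine this.congr_fun (fun n => ?_)
    rw [tc_iq hx ha0 ha1]; ring
  have hsum : HasSum (fun n => ‖tc (fun z => (a : ℂ) + -x * z) n‖ ^ 2) (a ^ 2 + ‖x‖ ^ 2) := by
    have h : HasSum (fun n => ‖tc (fun z => (a : ℂ) + -x * z) n‖ ^ 2)
        (∑ n ∈ Finset.range 2, ‖tc (fun z => (a : ℂ) + -x * z) n‖ ^ 2) := by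
      refine hasSum_sum_of_ne_finset_zero (fun n hn => ?_)
      rw [Finset.mem_range, not_lt] at hn
      obtain ⟨m, rfl⟩ := Nat.exists_eq_add_of_le hn
      rw [show 2 + m = m + 2 by ring]
      simp only [tc_aff_two, norm_zero]
      norm_num
    rw [Finset.sum_range_succ, Finset.sum_range_one, tc_aff_zero, tc_aff_one, norm_neg,
      Complex.norm_real, Real.norm_eq_abs, sq_abs] at h
    exact h
  have hfin := P187o.sum_sq_le_of_norm_le hGd hhd hb hsum.summable (N + 2)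
  rw [hsum.tsum_eq, Finset.sum_range_succ', Finset.sum_range_succ', g0] at hfin
  have a1 : 0 ≤ 1 - a ^ 2 := by nlinarith
  have n0 : ‖-(a * c)‖ ^ 2 = a ^ 2 * ‖x‖ ^ 2 := by
    rw [norm_neg, norm_mul, Complex.norm_real, Real.norm_eq_abs, abs_of_nonneg ha0, hc,
      RCLike.norm_conj]
    ring
  have n1 : ‖tc G (0 + 1)‖ ^ 2 = (1 - X * (1 - a ^ 2)) ^ 2 := by
    rw [g1, g2]
    have : (1 : ℂ) - X * (1 - (a : ℂ) ^ 2) = ((1 - X * (1 - a ^ 2) : ℝ) : ℂ) := by push_cast; ring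
    rw [this, Complex.norm_real, Real.norm_eq_abs, sq_abs]
  have n2 : ∀ n, ‖tc G (n + 1 + 1)‖ ^ 2 = (X * (1 - a ^ 2)) ^ 2 * ‖uu a x (n + 1)‖ ^ 2 := by
    intro n
    rw [g1, g3, norm_mul, norm_neg, mul_pow]
    have : (X : ℂ) * (1 - (a : ℂ) ^ 2) = ((X * (1 - a ^ 2) : ℝ) : ℂ) := by push_cast; ring
    rw [this, Complex.norm_real, Real.norm_eq_abs, sq_abs]
  simp only [n2] at hfin
  rw [n1, n0, ← Finset.mul_sum] at hfin
  -- conclude
  have hu0 : ∑ n ∈ Finset.range N, ‖uu a x n‖ ^ 2 ≤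
      1 + ∑ n ∈ Finset.range N, ‖uu a x (n + 1)‖ ^ 2 := by
    have e := Finset.sum_range_succ' (fun n => ‖uu a x n‖ ^ 2) N
    have e2 := Finset.sum_range_succ (fun n => ‖uu a x n‖ ^ 2) N
    have e3 : ‖uu a x 0‖ ^ 2 = 1 := by simp [uu]
    have : 0 ≤ ‖uu a x N‖ ^ 2 := by positivity
    rw [e3] at e
    linarith
  set S := ∑ n ∈ Finset.range N, ‖uu a x n‖ ^ 2 with hS
  set S' := ∑ n ∈ Finset.range N, ‖uu a x (n + 1)‖ ^ 2 with hS'
  have h1 : (X * (1 - a ^ 2)) ^ 2 * S' ≤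
      a ^ 2 + ‖x‖ ^ 2 - (1 - X * (1 - a ^ 2)) ^ 2 - a ^ 2 * ‖x‖ ^ 2 := by linarith
  have h2 : (X * (1 - a ^ 2)) ^ 2 * S ≤ X * (1 - a ^ 2) := by
    have h3 := mul_le_mul_of_nonneg_left hu0 (sq_nonneg (X * (1 - a ^ 2)))
    have h4 : ‖x‖ ^ 2 = 1 - X := by rw [hX]; ring
    rw [h4] at h1
    nlinarith [h1, h3]
  have h5 : X * ((1 - a ^ 2) ^ 2 * X * S) ≤ X * (1 - a ^ 2) := by nlinarith [h2]
  exact le_of_mul_le_mul_left h5 hX0

lemma vv_eq {x : ℂ} (hx : ‖x‖ < 1) {a : ℝ} (ha0 : 0 ≤ a) (ha1 : a ≤ 1) (n : ℕ) :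
    vv a x (n + 1) = (1 - (a : ℂ) ^ 2) *
      ∑ kl ∈ Finset.HasAntidiagonal.antidiagonal n, uu a x kl.1 * uu a x kl.2 := by
  have hE := iq_diff hx ha0 ha1
  have hEE : DifferentiableOn ℂ (fun z => iq a x z * iq a x z) (ball 0 1) := hE.mul hE
  rw [← tc_vv hx ha0 ha1, tc_shift (c := 0) (k := 1 - (a : ℂ) ^ 2) hEE (fun z hz => by
    have hq := q_ne hx ha0 ha1 hz
    rw [VV, iq]
    generalize 1 - (a : ℂ) * (1 + x) * z + x * z ^ 2 = Q at *
    field_simp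
    ring) n, tc_mul hE hE]
  congr 1
  refine Finset.sum_congr rfl (fun kl _ => ?_)
  rw [tc_iq hx ha0 ha1, tc_iq hx ha0 ha1]

/-- `‖V_n‖ ≤ 1 / (1 - l^2)`. -/
lemma vv_le {x : ℂ} {l : ℝ} (hx : ‖x‖ ≤ l) (hl : l < 1) {a : ℝ} (ha0 : 0 ≤ a) (ha1 : a ≤ 1)
    (n : ℕ) : ‖vv a x n‖ ≤ 1 / (1 - l ^ 2) := by
  have hl0 : 0 ≤ l := (norm_nonneg x).trans hx
  have hx1 : ‖x‖ < 1 := hx.trans_lt hl
  have hL : 0 < 1 - l ^ 2 := by nlinarith
  have hX : 1 - l ^ 2 ≤ 1 - ‖x‖ ^ 2 := by nlinarith [norm_nonneg x]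
  cases n with
  | zero => rw [vv, norm_zero]; positivity
  | succ n =>
    have a1 : 0 ≤ 1 - a ^ 2 := by nlinarith
    have h1 : ‖vv a x (n + 1)‖ ≤ (1 - a ^ 2) * ∑ k ∈ Finset.range (n + 1), ‖uu a x k‖ ^ 2 := by
      rw [vv_eq hx1 ha0 ha1, norm_mul]
      have : (1 : ℂ) - (a : ℂ) ^ 2 = ((1 - a ^ 2 : ℝ) : ℂ) := by push_cast; ring
      rw [this, Complex.norm_real, Real.norm_eq_abs, abs_of_nonneg a1]
      refine mul_le_mul_of_nonneg_left ?_ a1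
      refine (norm_sum_le _ _).trans ?_
      have h2 : ∀ kl ∈ Finset.HasAntidiagonal.antidiagonal n, ‖uu a x kl.1 * uu a x kl.2‖ ≤
          (‖uu a x kl.1‖ ^ 2 + ‖uu a x kl.2‖ ^ 2) / 2 := by
        intro kl _
        rw [norm_mul]
        nlinarith [sq_nonneg (‖uu a x kl.1‖ - ‖uu a x kl.2‖)]
      refine (Finset.sum_le_sum h2).trans (le_of_eq ?_)
      rw [← Finset.sum_div, Finset.sum_add_distrib]
      have e1 : ∑ kl ∈ Finset.HasAntidiagonal.antidiagonal n, ‖uu a x kl.1‖ ^ 2 =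
          ∑ k ∈ Finset.range (n + 1), ‖uu a x k‖ ^ 2 :=
        Finset.Nat.sum_antidiagonal_eq_sum_range_succ (fun i _ => ‖uu a x i‖ ^ 2) n
      have e2 : ∑ kl ∈ Finset.HasAntidiagonal.antidiagonal n, ‖uu a x kl.2‖ ^ 2 =
          ∑ k ∈ Finset.range (n + 1), ‖uu a x k‖ ^ 2 := by
        rw [← e1, ← Finset.Nat.sum_antidiagonal_swap]
        rfl
      rw [e1, e2]; ring
    have h3 := uu_sq hx1 ha0 ha1 (n + 1)
    set S := ∑ k ∈ Finset.range (n + 1), ‖uu a x k‖ ^ 2 with hS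
    have hS0 : 0 ≤ S := Finset.sum_nonneg (fun _ _ => by positivity)
    rw [le_div_iff₀ hL]
    rcases a1.lt_or_eq with h | h
    · have h4 : (1 - a ^ 2) * ((1 - a ^ 2) * (1 - ‖x‖ ^ 2) * S) ≤ (1 - a ^ 2) * 1 := by
        nlinarith [h3]
      have h5 := le_of_mul_le_mul_left h4 h
      calc ‖vv a x (n + 1)‖ * (1 - l ^ 2) ≤ ((1 - a ^ 2) * S) * (1 - ‖x‖ ^ 2) :=
            mul_le_mul h1 hX hL.le (by positivity)
        _ ≤ 1 := by linarith
    · rw [← h] at h1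
      have : ‖vv a x (n + 1)‖ = 0 := le_antisymm (by linarith) (norm_nonneg _)
      rw [this]; norm_num

lemma yy_le {x : ℂ} {l : ℝ} (hx : ‖x‖ ≤ l) (hl : l < 1) {a : ℝ} (ha0 : 0 ≤ a) (ha1 : a ≤ 1)
    {ζ : ℂ} (hζ : ‖ζ‖ = 1) (n : ℕ) : ‖yy a x ζ (n + 1)‖ ≤ (2 * n + 1) * (1 / (1 - l ^ 2)) := by
  induction n with
  | zero =>
    have := vv_le hx hl ha0 ha1 1
    simp only [yy, vv, mul_zero, zero_add, add_zero, Nat.cast_zero, one_mul]
    simpa [vv] using this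
  | succ n ih =>
    have h1 := vv_le hx hl ha0 ha1 (n + 2)
    have h2 := vv_le hx hl ha0 ha1 (n + 1)
    have h3 : yy a x ζ (n + 1 + 1) = ζ * yy a x ζ (n + 1) + vv a x (n + 2) +
        ζ * vv a x (n + 1) := by rw [yy]
    rw [h3]
    have h4 : ‖ζ * yy a x ζ (n + 1) + vv a x (n + 2) + ζ * vv a x (n + 1)‖ ≤
        ‖yy a x ζ (n + 1)‖ + ‖vv a x (n + 2)‖ + ‖vv a x (n + 1)‖ := by
      refine (norm_add₃_le).trans ?_
      rw [norm_mul, norm_mul, hζ, one_mul, one_mul]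
    push_cast
    linarith

/-- Splitting a partial sum. -/
lemma split_sum {f : ℕ → ℝ} (hf : ∀ n, 0 ≤ f n) (N M : ℕ) {E : ℝ} (hE0 : 0 ≤ E)
    (hE : ∀ J, ∑ j ∈ Finset.range J, f (N + j) ≤ E) :
    ∑ n ∈ Finset.range M, f n ≤ ∑ n ∈ Finset.range N, f n + E := by
  rcases le_total M N with h | h
  · have : ∑ n ∈ Finset.range M, f n ≤ ∑ n ∈ Finset.range N, f n :=
      Finset.sum_le_sum_of_subset_of_nonneg (Finset.range_mono h) (fun i _ _ => hf i)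
    linarith
  · obtain ⟨J, rfl⟩ := Nat.exists_eq_add_of_le h
    rw [Finset.sum_range_add]
    have := hE J
    linarith

lemma geo_le {y : ℝ} (h0 : 0 ≤ y) (h1 : y < 1) (J : ℕ) :
    ∑ j ∈ Finset.range J, y ^ j ≤ 1 / (1 - y) := by
  rw [one_div]
  exact sum_le_hasSum _ (fun n _ => by positivity) (hasSum_geometric_of_lt_one h0 h1)

lemma geo1_le {y : ℝ} (h0 : 0 ≤ y) (h1 : y < 1) (J : ℕ) :
    ∑ j ∈ Finset.range J, (j : ℝ) * y ^ j ≤ y / (1 - y) ^ 2 := by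
  have h := hasSum_coe_mul_geometric_of_norm_lt_one (𝕜 := ℝ) (r := y)
    (by rw [Real.norm_eq_abs, abs_of_nonneg h0]; exact h1)
  exact sum_le_hasSum _ (fun n _ => by positivity) h

lemma el_tail {x : ℂ} {l : ℝ} (hx : ‖x‖ ≤ l) (hl : l < 1) {a : ℝ} (ha0 : 0 ≤ a) (ha1 : a ≤ 1)
    {r : ℝ} (hr0 : 0 ≤ r) (hr1 : r < 1) (N J : ℕ) :
    ∑ j ∈ Finset.range J, ‖el a x (N + j)‖ * r ^ (N + j) ≤
      r ^ N / √((1 - l ^ 2) * (1 - r ^ 2)) := by
  have hl0 : 0 ≤ l := (norm_nonneg x).trans hx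
  have hL : 0 < 1 - l ^ 2 := by nlinarith
  have hR : 0 < 1 - r ^ 2 := by nlinarith
  have hD : 0 < (1 - l ^ 2) * (1 - r ^ 2) := mul_pos hL hR
  have hg := gk_Sc ha0 ha1 Sc_one
  have h1 : ∑ j ∈ Finset.range J, ‖el a x (N + j)‖ ^ 2 ≤ 1 / (1 - l ^ 2) := by
    have h2 := LN_sq hx hl hg (N + J)
    simp only [tc_el (hx.trans_lt hl) ha0 ha1] at h2
    rw [Finset.sum_range_add] at h2
    have : 0 ≤ ∑ n ∈ Finset.range N, ‖el a x n‖ ^ 2 := Finset.sum_nonneg (fun _ _ => by positivity)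
    linarith
  have h2 : ∑ j ∈ Finset.range J, (r ^ (N + j)) ^ 2 ≤ (r ^ N) ^ 2 * (1 / (1 - r ^ 2)) := by
    have e : ∀ j ∈ Finset.range J, (r ^ (N + j)) ^ 2 = (r ^ N) ^ 2 * (r ^ 2) ^ j := by
      intro j _
      rw [pow_add, mul_pow, ← pow_mul, ← pow_mul, ← pow_mul, mul_comm j 2]
    rw [Finset.sum_congr rfl e, ← Finset.mul_sum]
    exact mul_le_mul_of_nonneg_left (geo_le (by positivity) (by nlinarith) J) (by positivity)
  have h3 := Finset.sum_mul_sq_le_sq_mul_sq (Finset.range J) (fun j => ‖el a x (N + j)‖)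
    (fun j => r ^ (N + j))
  refine le_of_sq_le_sq ?_ (by positivity)
  rw [div_pow, Real.sq_sqrt hD.le]
  refine h3.trans ?_
  have h4 : (1 / (1 - l ^ 2)) * ((r ^ N) ^ 2 * (1 / (1 - r ^ 2))) =
      (r ^ N) ^ 2 / ((1 - l ^ 2) * (1 - r ^ 2)) := by
    field_simp
  rw [← h4]
  exact mul_le_mul h1 h2 (Finset.sum_nonneg (fun _ _ => by positivity)) (by positivity)

lemma yy_tail {x : ℂ} {l : ℝ} (hx : ‖x‖ ≤ l) (hl : l < 1) {a : ℝ} (ha0 : 0 ≤ a) (ha1 : a ≤ 1)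
    {ζ : ℂ} (hζ : ‖ζ‖ = 1) {r : ℝ} (hr0 : 0 ≤ r) (hr1 : r < 1) (N J : ℕ) (hN : 1 ≤ N) :
    ∑ j ∈ Finset.range J, ‖yy a x ζ (N + j)‖ * r ^ (N + j) ≤
      1 / (1 - l ^ 2) * (r ^ N * ((2 * N - 1) / (1 - r) + 2 * r / (1 - r) ^ 2)) := by
  have hl0 : 0 ≤ l := (norm_nonneg x).trans hx
  have hL : 0 < 1 - l ^ 2 := by nlinarith
  obtain ⟨m, rfl⟩ := Nat.exists_eq_add_of_le hN
  have h1 : ∀ j ∈ Finset.range J, ‖yy a x ζ (1 + m + j)‖ * r ^ (1 + m + j) ≤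
      1 / (1 - l ^ 2) * (r ^ (1 + m) * ((2 * m + 1) * r ^ j + 2 * (j * r ^ j))) := by
    intro j _
    have h2 := yy_le hx hl ha0 ha1 hζ (m + j)
    rw [show m + j + 1 = 1 + m + j by ring] at h2
    have h3 := mul_le_mul_of_nonneg_right h2 (pow_nonneg hr0 (1 + m + j))
    refine h3.trans (le_of_eq ?_)
    push_cast
    rw [pow_add r (1 + m) j]
    ring
  refine (Finset.sum_le_sum h1).trans ?_
  rw [← Finset.mul_sum, ← Finset.mul_sum, Finset.sum_add_distrib, ← Finset.mul_sum,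
    ← Finset.mul_sum]
  refine mul_le_mul_of_nonneg_left ?_ (by positivity)
  refine mul_le_mul_of_nonneg_left ?_ (by positivity)
  have h4 := geo_le hr0 hr1 J
  have h5 := geo1_le hr0 hr1 J
  have h6 : (2 * ((1 + m : ℕ) : ℝ) - 1) / (1 - r) + 2 * r / (1 - r) ^ 2 =
      (2 * m + 1) * (1 / (1 - r)) + 2 * (r / (1 - r) ^ 2) := by
    push_cast; ring
  rw [h6]
  have h7 : (2 * (m : ℝ) + 1) * ∑ j ∈ Finset.range J, r ^ j ≤ (2 * m + 1) * (1 / (1 - r)) :=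
    mul_le_mul_of_nonneg_left h4 (by positivity)
  linarith

end SeqAux

/-- Finite sums suffice in the near zone: the tail. -/
theorem tail_el {x : ℂ} {l : ℝ} (hx : ‖x‖ ≤ l) (hl : l < 1) {a : ℝ} (ha0 : 0 ≤ a) (ha1 : a ≤ 1)
    {ζ : ℂ} (hζ : ‖ζ‖ = 1) {t0 r : ℝ} (ht : 0 ≤ t0) (hr0 : 0 ≤ r) (hr1 : r < 1) (N M : ℕ)
    (hN : 1 ≤ N) :
    ∑ n ∈ Finset.range M, ‖el a x n + t0 * yy a x ζ n‖ * r ^ n ≤
      ∑ n ∈ Finset.range N, ‖el a x n + t0 * yy a x ζ n‖ * r ^ n +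
        (r ^ N / √((1 - l ^ 2) * (1 - r ^ 2)) +
          t0 / (1 - l ^ 2) * (r ^ N * ((2 * N - 1) / (1 - r) + 2 * r / (1 - r) ^ 2))) := by
  have hl0 : 0 ≤ l := (norm_nonneg x).trans hx
  have hL : 0 < 1 - l ^ 2 := by nlinarith
  have hN' : (1 : ℝ) ≤ N := by exact_mod_cast hN
  have hr' : 0 < 1 - r := by linarith
  refine split_sum (f := fun n => ‖el a x n + t0 * yy a x ζ n‖ * r ^ n)
    (fun n => by positivity) N M ?_ (fun J => ?_)
  · have : 0 ≤ 2 * (N : ℝ) - 1 := by linarith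
    positivity
  · have h1 : ∀ j ∈ Finset.range J, ‖el a x (N + j) + t0 * yy a x ζ (N + j)‖ * r ^ (N + j) ≤
        ‖el a x (N + j)‖ * r ^ (N + j) + t0 * (‖yy a x ζ (N + j)‖ * r ^ (N + j)) := by
      intro j _
      have h2 : ‖el a x (N + j) + t0 * yy a x ζ (N + j)‖ ≤
          ‖el a x (N + j)‖ + t0 * ‖yy a x ζ (N + j)‖ := by
        refine (norm_add_le _ _).trans ?_
        rw [norm_mul, Complex.norm_real, Real.norm_eq_abs, abs_of_nonneg ht]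
      have h3 := mul_le_mul_of_nonneg_right h2 (pow_nonneg hr0 (N + j))
      refine h3.trans (le_of_eq ?_)
      ring
    refine (Finset.sum_le_sum h1).trans ?_
    rw [Finset.sum_add_distrib, ← Finset.mul_sum]
    have h4 := el_tail hx hl ha0 ha1 hr0 hr1 N J
    have h5 := mul_le_mul_of_nonneg_left (yy_tail hx hl ha0 ha1 hζ hr0 hr1 N J hN) ht
    have h6 : t0 * (1 / (1 - l ^ 2) * (r ^ N * ((2 * N - 1) / (1 - r) + 2 * r / (1 - r) ^ 2))) =
        t0 / (1 - l ^ 2) * (r ^ N * ((2 * N - 1) / (1 - r) + 2 * r / (1 - r) ^ 2)) := by ring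
    rw [h6] at h5
    linarith

namespace SeqAux

lemma zz_le {x : ℂ} {l : ℝ} (hx : ‖x‖ ≤ l) (hl : l < 1) {ζ : ℂ} (hζ : ‖ζ‖ = 1) (n : ℕ) :
    ‖zz x ζ n‖ ≤ 2 / (1 - l) ^ 2 := by
  have hl0 : 0 ≤ l := (norm_nonneg x).trans hx
  rw [← cv_zz]
  unfold cv
  have h1 : ∀ k ∈ Finset.range (n + 1), ‖(((n - k : ℕ) : ℂ) + 1) * x ^ (n - k) * hc k ζ‖ ≤
      2 * (((n - k : ℕ) : ℝ) + 1) * l ^ (n - k) := by
    intro k _
    have e1 : ‖hc k ζ‖ ≤ 2 := by
      unfold hc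
      split_ifs
      · norm_num
      · rw [norm_mul, norm_pow, hζ]; norm_num
    have e2 : ‖((n - k : ℕ) : ℂ) + 1‖ = ((n - k : ℕ) : ℝ) + 1 := by
      have : ((n - k : ℕ) : ℂ) + 1 = (((n - k : ℕ) : ℝ) + 1 : ℝ) := by push_cast; ring
      rw [this, Complex.norm_real, Real.norm_eq_abs, abs_of_nonneg (by positivity)]
    rw [norm_mul, norm_mul, norm_pow, e2]
    have e3 : ‖x‖ ^ (n - k) ≤ l ^ (n - k) := pow_le_pow_left₀ (norm_nonneg _) hx _
    calc (((n - k : ℕ) : ℝ) + 1) * ‖x‖ ^ (n - k) * ‖hc k ζ‖ ≤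
        (((n - k : ℕ) : ℝ) + 1) * l ^ (n - k) * 2 := by gcongr
      _ = _ := by ring
  refine (norm_sum_le _ _).trans ((Finset.sum_le_sum h1).trans ?_)
  have h2 := Finset.sum_range_reflect (fun j => 2 * ((j : ℝ) + 1) * l ^ j) (n + 1)
  simp only [Nat.add_sub_cancel] at h2
  rw [h2]
  have h3 := geo_le hl0 hl (n + 1)
  have h4 := geo1_le hl0 hl (n + 1)
  have h5 : ∑ j ∈ Finset.range (n + 1), 2 * ((j : ℝ) + 1) * l ^ j =
      2 * (∑ j ∈ Finset.range (n + 1), (j : ℝ) * l ^ j + ∑ j ∈ Finset.range (n + 1), l ^ j) := by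
    rw [← Finset.sum_add_distrib, Finset.mul_sum]
    exact Finset.sum_congr rfl (fun j _ => by ring)
  rw [h5]
  have hl' : 0 < 1 - l := by linarith
  have h6 : l / (1 - l) ^ 2 + 1 / (1 - l) = 1 / (1 - l) ^ 2 := by
    field_simp
    ring
  have h7 : (2 : ℝ) / (1 - l) ^ 2 = 2 * (1 / (1 - l) ^ 2) := by ring
  rw [h7, ← h6]
  linarith

end SeqAux

/-- The tail at level zero (`|x| = l`): `‖zz n‖ ≤ 2 / (1 - l) ^ 2`. -/
theorem tail_zz {x : ℂ} {l : ℝ} (hx : ‖x‖ ≤ l) (hl : l < 1)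
    {ζ : ℂ} (hζ : ‖ζ‖ = 1) {d0 r : ℝ} (hd : 0 ≤ d0) (hr0 : 0 ≤ r) (hr1 : r < 1) (N M : ℕ) :
    ∑ n ∈ Finset.range M, ‖x ^ n - d0 * zz x ζ n‖ * r ^ n ≤
      ∑ n ∈ Finset.range N, ‖x ^ n - d0 * zz x ζ n‖ * r ^ n +
        ((l * r) ^ N / (1 - l * r) + d0 * (2 / (1 - l) ^ 2) * (r ^ N / (1 - r))) := by
  have hl0 : 0 ≤ l := (norm_nonneg x).trans hx
  have hr' : 0 < 1 - r := by linarith
  have hl' : 0 < 1 - l := by linarith
  have hlr : l * r < 1 := by nlinarith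
  have hlr' : 0 < 1 - l * r := by linarith
  refine split_sum (f := fun n => ‖x ^ n - d0 * zz x ζ n‖ * r ^ n)
    (fun n => by positivity) N M (by positivity) (fun J => ?_)
  have h1 : ∀ j ∈ Finset.range J, ‖x ^ (N + j) - d0 * zz x ζ (N + j)‖ * r ^ (N + j) ≤
      (l * r) ^ N * (l * r) ^ j + d0 * (2 / (1 - l) ^ 2) * (r ^ N * r ^ j) := by
    intro j _
    have h2 : ‖x ^ (N + j) - d0 * zz x ζ (N + j)‖ ≤ l ^ (N + j) + d0 * (2 / (1 - l) ^ 2) := by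
      refine (norm_sub_le _ _).trans ?_
      rw [norm_mul, norm_pow, Complex.norm_real, Real.norm_eq_abs, abs_of_nonneg hd]
      exact add_le_add (pow_le_pow_left₀ (norm_nonneg _) hx _)
        (mul_le_mul_of_nonneg_left (zz_le hx hl hζ _) hd)
    have h3 := mul_le_mul_of_nonneg_right h2 (pow_nonneg hr0 (N + j))
    refine h3.trans (le_of_eq ?_)
    rw [mul_pow, mul_pow, pow_add, pow_add]
    ring
  refine (Finset.sum_le_sum h1).trans ?_
  rw [Finset.sum_add_distrib, ← Finset.mul_sum, ← Finset.mul_sum, ← Finset.mul_sum]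
  have h4 := mul_le_mul_of_nonneg_left (geo_le (by positivity) hlr J)
    (show 0 ≤ (l * r) ^ N by positivity)
  have h5 := mul_le_mul_of_nonneg_left (mul_le_mul_of_nonneg_left (geo_le hr0 hr1 J)
    (show 0 ≤ r ^ N by positivity)) (show 0 ≤ d0 * (2 / (1 - l) ^ 2) by positivity)
  rw [mul_one_div] at h4
  rw [mul_one_div] at h5
  linarith

end Pool.Agent.BNR
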