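import Pool.Agent.Lib.BNR.Hull
import Pool.Agent.Lib.BNR.Seq

/-!
# The near lemma

For a Schur function `k` with `k 0 = 1 - t`: `LN x (gk a k) = L_0 + t V C` with
`V = (1 - a ^ 2) z / q ^ 2`, `C = (1 - k) q / (t q_k)`, `q = D - N z`, `q_k = D - N z k`,
`D = 1 - x a z`, `N = a - x z`; `(1 - k) q / q_k = (1 - k)(1 - σ)/(1 - σ k)`, `σ = N z / D`,
`|σ| ≤ 1`, has nonnegative real part (`P187f6b.re_P_nonneg`).
-/

set_option autoImplicit false

open Complex Metric Set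
open Pool.Agent.P187f6b Pool.Agent.P187w

namespace Pool.Agent.BNR

namespace NearAux

lemma hull' {C : ℂ → ℂ} (hC : DifferentiableOn ℂ C (ball 0 1))
    (hre : ∀ z : ℂ, ‖z‖ < 1 → 0 ≤ (C z).re) (hC0 : C 0 = 1) (A B : ℕ → ℂ) {t r M : ℝ}
    (hr : 0 ≤ r) (N : ℕ)
    (H : ∀ w : ℂ, ‖w‖ = 1 →
      ∑ n ∈ Finset.range N, ‖A n + t * cv B (fun k => hc k w) n‖ * r ^ n ≤ M) :
    ∑ n ∈ Finset.range N, ‖A n + t * cv B (tc C) n‖ * r ^ n ≤ M := by
  have key : ∀ (c : ℕ → ℂ) (n : ℕ), n ∈ Finset.range N →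
      A n - ∑ k ∈ Finset.range N, (if k ≤ n then -(t * B (n - k)) else 0) * c k =
        A n + t * cv B c n := by
    intro c n hn
    have hnN : n < N := Finset.mem_range.1 hn
    rw [sub_eq_add_neg]
    congr 1
    have e1 : ∀ k, (if k ≤ n then -((t : ℂ) * B (n - k)) else 0) * c k =
        if k ∈ Finset.range (n + 1) then -((t : ℂ) * B (n - k)) * c k else 0 := by
      intro k
      by_cases h : k ≤ n
      · simp [h, Nat.lt_succ_of_le h]
      · have : ¬ k < n + 1 := by omega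
        simp [h, this]
    simp_rw [e1]
    rw [← Finset.sum_filter, Finset.filter_mem_eq_inter]
    have e2 : Finset.range N ∩ Finset.range (n + 1) = Finset.range (n + 1) := by
      ext k
      simp only [Finset.mem_inter, Finset.mem_range]
      omega
    rw [e2, cv, Finset.mul_sum, ← Finset.sum_neg_distrib]
    refine Finset.sum_congr rfl (fun k _ => ?_)
    ring
  have h := hull hC hre hC0 (N := N) (M := N) A
    (fun n k => if k ≤ n then -((t : ℂ) * B (n - k)) else 0) (fun n => r ^ n)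
    (fun n => pow_nonneg hr n) (T := M) (fun u hu => by
      refine le_trans (le_of_eq ?_) (H u hu)
      refine Finset.sum_congr rfl (fun n hn => ?_)
      rw [key _ n hn])
  refine le_trans (le_of_eq ?_) h
  refine Finset.sum_congr rfl (fun n hn => ?_)
  rw [key _ n hn]

lemma tc_mulcv {f g : ℂ → ℂ} (hf : DifferentiableOn ℂ f (ball 0 1))
    (hg : DifferentiableOn ℂ g (ball 0 1)) (n : ℕ) :
    tc (fun z => f z * g z) n = cv (tc f) (tc g) n := by
  refine tc_eq (c := cv (tc f) (tc g)) (fun z hz => ?_) n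
  have h1 := tc_hasSum hf hz
  have h2 := tc_hasSum hg hz
  have h3 := h1.summable.norm
  have h4 := h2.summable.norm
  have h5 := summable_norm_sum_mul_range_of_summable_norm h3 h4
  have h6 := tsum_mul_tsum_eq_tsum_sum_range_of_summable_norm h3 h4
  have h7 : HasSum (fun n => ∑ k ∈ Finset.range (n + 1), tc f k * z ^ k *
      (tc g (n - k) * z ^ (n - k))) (f z * g z) := by
    rw [← h1.tsum_eq, ← h2.tsum_eq, h6]
    exact h5.of_norm.hasSum
  refine h7.congr_fun (fun m => ?_)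
  rw [cv, Finset.sum_mul, ← Finset.sum_range_reflect]
  refine Finset.sum_congr rfl (fun k hk => ?_)
  have hk' : k ≤ m := Nat.lt_succ_iff.1 (Finset.mem_range.1 hk)
  have e1 : m + 1 - 1 - k = m - k := by omega
  have e2 : m - (m - k) = k := by omega
  have e3 : z ^ m = z ^ (m - k) * z ^ k := by rw [← pow_add]; congr 1; omega
  rw [e1, e2, e3]
  ring

end NearAux

open NearAux

/-- Interpolation between level zero and level `t0`. -/
theorem hull_interp {L L0 V C : ℂ → ℂ} (hL0 : DifferentiableOn ℂ L0 (ball 0 1))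
    (hV : DifferentiableOn ℂ V (ball 0 1)) (hC : DifferentiableOn ℂ C (ball 0 1))
    (hre : ∀ z : ℂ, ‖z‖ < 1 → 0 ≤ (C z).re) (hC0 : C 0 = 1) {t t0 : ℝ} (ht0 : 0 < t)
    (ht1 : t ≤ t0) (hL : ∀ z : ℂ, ‖z‖ < 1 → L z = L0 z + t * (V z * C z)) {r M : ℝ}
    (hr0 : 0 ≤ r) (hr1 : r < 1)
    (H : ∀ ζ : ℂ, ‖ζ‖ = 1 → ∀ N : ℕ, ∑ n ∈ Finset.range N,
      ‖tc L0 n + t0 * cv (tc V) (fun k => hc k ζ) n‖ * r ^ n ≤ M) :
    nr L r ≤ (1 - t / t0) * nr L0 r + t / t0 * M := by
  have ht00 : 0 < t0 := lt_of_lt_of_le ht0 ht1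
  have hτ0 : 0 ≤ t / t0 := div_nonneg ht0.le ht00.le
  have hτ1 : t / t0 ≤ 1 := (div_le_one ht00).2 ht1
  have hVC : DifferentiableOn ℂ (fun z => V z * C z) (ball 0 1) := hV.mul hC
  have htL : ∀ n, tc L n = tc L0 n + t * cv (tc V) (tc C) n := by
    intro n
    have hd : DifferentiableOn ℂ (fun z => (t : ℂ) * (V z * C z)) (ball 0 1) :=
      (differentiableOn_const _).mul hVC
    rw [← tc_mulcv hV hC]
    refine tc_eq (c := fun n => tc L0 n + t * tc (fun z => V z * C z) n) (fun z hz => ?_) n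
    rw [hL z hz]
    refine ((tc_hasSum hL0 hz).add ((tc_hasSum hVC hz).mul_left (t : ℂ))).congr_fun (fun m => ?_)
    ring
  have hs0 : Summable fun n : ℕ => ‖tc L0 n‖ * r ^ n := tc_summable hL0 hr0 hr1
  have hpart : ∀ N : ℕ, ∑ n ∈ Finset.range N, ‖tc L n‖ * r ^ n ≤
      (1 - t / t0) * nr L0 r + t / t0 * M := by
    intro N
    have h1 := hull' hC hre hC0 (tc L0) (tc V) (t := t0) hr0 N (fun w hw => H w hw N)
    have h2 : ∑ n ∈ Finset.range N, ‖tc L0 n‖ * r ^ n ≤ nr L0 r :=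
      hs0.sum_le_tsum _ (fun n _ => by positivity)
    have h3 : ∀ n ∈ Finset.range N, ‖tc L n‖ * r ^ n ≤ (1 - t / t0) * (‖tc L0 n‖ * r ^ n) +
        t / t0 * (‖tc L0 n + t0 * cv (tc V) (tc C) n‖ * r ^ n) := by
      intro n _
      have e1 : tc L n = ((1 - t / t0 : ℝ) : ℂ) * tc L0 n +
          ((t / t0 : ℝ) : ℂ) * (tc L0 n + t0 * cv (tc V) (tc C) n) := by
        rw [htL n]
        have : (t0 : ℂ) ≠ 0 := by exact_mod_cast ht00.ne'
        push_cast
        field_simp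
        ring
      have e2 : ‖tc L n‖ ≤ (1 - t / t0) * ‖tc L0 n‖ +
          t / t0 * ‖tc L0 n + t0 * cv (tc V) (tc C) n‖ := by
        rw [e1]
        refine (norm_add_le _ _).trans (le_of_eq ?_)
        rw [norm_mul, norm_mul, Complex.norm_real, Complex.norm_real, Real.norm_eq_abs,
          Real.norm_eq_abs, abs_of_nonneg hτ0, abs_of_nonneg (by linarith : 0 ≤ 1 - t / t0)]
      have := mul_le_mul_of_nonneg_right e2 (pow_nonneg hr0 n)
      linarith
    calc ∑ n ∈ Finset.range N, ‖tc L n‖ * r ^ n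
        ≤ ∑ n ∈ Finset.range N, ((1 - t / t0) * (‖tc L0 n‖ * r ^ n) +
          t / t0 * (‖tc L0 n + t0 * cv (tc V) (tc C) n‖ * r ^ n)) := Finset.sum_le_sum h3
      _ = (1 - t / t0) * ∑ n ∈ Finset.range N, ‖tc L0 n‖ * r ^ n +
          t / t0 * ∑ n ∈ Finset.range N,
            ‖tc L0 n + t0 * cv (tc V) (tc C) n‖ * r ^ n := by
          rw [Finset.sum_add_distrib, ← Finset.mul_sum, ← Finset.mul_sum]
      _ ≤ _ := by
          have h4 := mul_le_mul_of_nonneg_left h2 (by linarith : 0 ≤ 1 - t / t0)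
          have h5 := mul_le_mul_of_nonneg_left h1 hτ0
          linarith
  unfold nr
  exact Real.tsum_le_of_sum_range_le (fun n => by positivity) hpart

namespace NearAux

lemma alg1 {k D N z t : ℂ} (hD : D ≠ 0) :
    (1 - k) * (D - N * z) / (t * (D - N * z * k)) =
      t⁻¹ * ((1 - k) * (1 - N * z / D) / (1 - N * z / D * k)) := by
  have e1 : 1 - N * z / D = (D - N * z) / D := by field_simp
  have e2 : 1 - N * z / D * k = (D - N * z * k) / D := by field_simp
  rw [e1, e2]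
  have e3 : (1 - k) * ((D - N * z) / D) / ((D - N * z * k) / D) =
      (1 - k) * (D - N * z) / (D - N * z * k) := by
    rw [← mul_div_assoc, div_div_div_cancel_right₀ hD]
  rw [e3, ← div_div, div_eq_mul_inv _ t, mul_comm t⁻¹, div_mul_eq_mul_div]

lemma alg0 {A B y : ℂ} (hB : B ≠ 0) : 1 - y * (A / B) = (B - y * A) / B := by field_simp

lemma alg2 {A B y : ℂ} (hB : B ≠ 0) : A / B / (1 - y * (A / B)) = A / (B - y * A) := by
  rw [alg0 hB, div_div_div_cancel_right₀ hB]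

lemma alg3 {A B c Q Qk t K : ℂ} (hQ : Q ≠ 0) (hQk : Qk ≠ 0) (ht : t ≠ 0)
    (h : A * Q = B * Qk + c * K) :
    A / Qk = B / Q + t * (c / Q ^ 2 * (K * Q / (t * Qk))) := by
  have e : t * (c / Q ^ 2 * (K * Q / (t * Qk))) = c * K / (Q * Qk) := by
    field_simp
  rw [e, div_add_div _ _ hQ (mul_ne_zero hQ hQk), div_eq_div_iff hQk
    (mul_ne_zero hQ (mul_ne_zero hQ hQk))]
  linear_combination (Q * Qk) * h

/-- `|N z| ≤ |D|` on the disc. -/
lemma sigma_le {x : ℂ} (hx : ‖x‖ < 1) {a : ℝ} (ha0 : 0 ≤ a) (ha1 : a ≤ 1) {z : ℂ}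
    (hz : ‖z‖ < 1) : ‖(a - x * z) * z / (1 - x * a * z)‖ ≤ 1 := by
  have hxz : ‖x * z‖ ≤ 1 := by
    rw [norm_mul]
    exact mul_le_one₀ hx.le (norm_nonneg _) hz.le
  have h1 := BndGAux.moeb ha0 ha1 hxz
  have h2 : ‖x * z‖ < 1 := by
    rw [norm_mul]
    calc ‖x‖ * ‖z‖ ≤ 1 * ‖z‖ := by gcongr
      _ < 1 := by rw [one_mul]; exact hz
  have h3 : (1 : ℂ) - x * a * z ≠ 0 := by
    intro h
    have h4 : (a : ℂ) * (x * z) = 1 := by linear_combination -h
    have h5 : ‖(a : ℂ) * (x * z)‖ < 1 := by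
      rw [norm_mul, Complex.norm_real, Real.norm_eq_abs, abs_of_nonneg ha0]
      calc a * ‖x * z‖ ≤ 1 * ‖x * z‖ := by gcongr
        _ < 1 := by rw [one_mul]; exact h2
    rw [h4] at h5
    simp at h5
  rw [norm_div, div_le_one (norm_pos_iff.2 h3), norm_mul]
  have e : (1 : ℂ) - x * a * z = 1 - a * (x * z) := by ring
  rw [e]
  calc ‖(a : ℂ) - x * z‖ * ‖z‖ ≤ ‖(a : ℂ) - x * z‖ * 1 := by gcongr
    _ ≤ _ := by rw [mul_one]; exact h1

lemma D_ne {x : ℂ} (hx : ‖x‖ < 1) {a : ℝ} (ha0 : 0 ≤ a) (ha1 : a ≤ 1) {z : ℂ}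
    (hz : ‖z‖ < 1) : (1 : ℂ) - x * a * z ≠ 0 := by
  have h2 : ‖x * z‖ < 1 := by
    rw [norm_mul]
    calc ‖x‖ * ‖z‖ ≤ 1 * ‖z‖ := by gcongr
      _ < 1 := by rw [one_mul]; exact hz
  intro h
  have h4 : (a : ℂ) * (x * z) = 1 := by linear_combination -h
  have h5 : ‖(a : ℂ) * (x * z)‖ < 1 := by
    rw [norm_mul, Complex.norm_real, Real.norm_eq_abs, abs_of_nonneg ha0]
    calc a * ‖x * z‖ ≤ 1 * ‖x * z‖ := by gcongr
      _ < 1 := by rw [one_mul]; exact h2
  rw [h4] at h5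
  simp at h5

/-- A Schur function with value less than one in absolute value at the origin has values of
absolute value less than one. -/
lemma Sc_lt {k : ℂ → ℂ} (hk : Sc k) (h0 : ‖k 0‖ < 1) {z : ℂ} (hz : ‖z‖ < 1) : ‖k z‖ < 1 := by
  by_contra hcon
  have hz1 : ‖k z‖ = 1 := le_antisymm (hk.2 z hz) (not_lt.1 hcon)
  have hmax : IsMaxOn (norm ∘ k) (ball (0 : ℂ) 1) z := by
    intro w hw
    simp only [Function.comp_apply, mem_ofPred_eq]
    rw [hz1]
    exact hk.2 w (by simpa using hw)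
  have h := Complex.norm_eqOn_of_isPreconnected_of_isMaxOn (U := ball (0 : ℂ) 1)
    (convex_ball 0 1).isPreconnected isOpen_ball hk.1 (by simpa using hz) hmax
  have h2 := h (x := 0) (by simp)
  simp only [Function.comp_apply, Function.const_apply] at h2
  rw [hz1] at h2
  linarith

end NearAux

open NearAux

theorem near {x : ℂ} (hx : ‖x‖ < 1) {a : ℝ} (ha0 : 0 ≤ a) (ha1 : a ≤ 1) {t0 r M : ℝ}
    (hr0 : 0 ≤ r) (hr1 : r < 1)
    (H : ∀ ζ : ℂ, ‖ζ‖ = 1 → ∀ N : ℕ, ∑ n ∈ Finset.range N,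
      ‖el a x n + t0 * yy a x ζ n‖ * r ^ n ≤ M)
    {k : ℂ → ℂ} (hk : Sc k) {t : ℝ} (ht0 : 0 < t) (ht1 : t ≤ t0) (hk0 : k 0 = ((1 - t : ℝ) : ℂ)) :
    nr (LN x (gk a k)) r ≤
      (1 - t / t0) * nr (LN x (gk a (fun _ => 1))) r + t / t0 * M := by
  have htC : (t : ℂ) ≠ 0 := by exact_mod_cast ht0.ne'
  have hD : ∀ z : ℂ, ‖z‖ < 1 → (1 : ℂ) - x * a * z ≠ 0 := fun z hz => D_ne hx ha0 ha1 hz
  have hq : ∀ z : ℂ, ‖z‖ < 1 → 1 - a * (1 + x) * z + x * z ^ 2 ≠ 0 :=
    fun z hz => q_ne hx ha0 ha1 hz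
  have hqk : ∀ z : ℂ, ‖z‖ < 1 → (1 - x * a * z) - (a - x * z) * z * k z ≠ 0 := by
    intro z hz h
    have h1 := one_sub_azk_ne ha0 ha1 hk hz
    have h2 := one_sub_xzg_ne hx (gk_Sc ha0 ha1 hk) hz
    apply h2
    unfold gk
    rw [alg0 h1, div_eq_zero_iff]
    left
    linear_combination h
  set C : ℂ → ℂ := fun z => (1 - k z) * (1 - a * (1 + x) * z + x * z ^ 2) /
    (t * ((1 - x * a * z) - (a - x * z) * z * k z)) with hCdef
  have hCd : DifferentiableOn ℂ C (ball 0 1) := by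
    refine DifferentiableOn.div ?_ ?_ (fun z hz => ?_)
    · refine ((differentiableOn_const _).sub hk.1).mul ?_
      exact DifferentiableOn.add (DifferentiableOn.sub (differentiableOn_const _)
        ((differentiableOn_const _).mul differentiableOn_id))
        ((differentiableOn_const _).mul (differentiableOn_id.pow 2))
    · refine (differentiableOn_const _).mul (DifferentiableOn.sub ?_ ?_)
      · exact (differentiableOn_const _).sub ((differentiableOn_const _).mul differentiableOn_id)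
      · exact (((differentiableOn_const _).sub ((differentiableOn_const _).mul
          differentiableOn_id)).mul differentiableOn_id).mul hk.1
    · exact mul_ne_zero htC (hqk z (by simpa using hz))
  have hC0 : C 0 = 1 := by
    simp only [hCdef, hk0]
    push_cast
    simp only [mul_zero, sub_zero, zero_mul, ne_eq, OfNat.ofNat_ne_zero, not_false_eq_true,
      zero_pow, add_zero, mul_one]
    field_simp
    ring
  have hre : ∀ z : ℂ, ‖z‖ < 1 → 0 ≤ (C z).re := by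
    intro z hz
    have h1 := re_P_nonneg (hk.2 z hz) (sigma_le hx ha0 ha1 hz)
    have e : C z = ((t⁻¹ : ℝ) : ℂ) * ((1 - k z) * (1 - (a - x * z) * z / (1 - x * a * z)) /
        (1 - (a - x * z) * z / (1 - x * a * z) * k z)) := by
      simp only [hCdef]
      push_cast
      rw [← alg1 (hD z hz)]
      congr 1
      ring
    rw [e, Complex.re_ofReal_mul]
    exact mul_nonneg (inv_nonneg.2 ht0.le) h1
  have hL : ∀ z : ℂ, ‖z‖ < 1 → LN x (gk a k) z =
      LN x (gk a (fun _ => 1)) z + t * (VV a x z * C z) := by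
    intro z hz
    have h1 := one_sub_azk_ne ha0 ha1 hk hz
    have h1' := one_sub_azk_ne ha0 ha1 Sc_one hz
    have h2 := hq z hz
    have h3 := hqk z hz
    have e1 : LN x (gk a k) z = (a - z * k z) / ((1 - x * a * z) - (a - x * z) * z * k z) := by
      unfold LN gk
      rw [alg2 h1]
      congr 1
      ring
    have e2 : LN x (gk a (fun _ => 1)) z = (a - z) / (1 - a * (1 + x) * z + x * z ^ 2) := by
      unfold LN gk
      rw [alg2 h1']
      congr 1 <;> ring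
    rw [e1, e2]
    simp only [hCdef, VV]
    exact alg3 h2 h3 htC (by ring)
  have h := hull_interp (L := LN x (gk a k)) (L0 := LN x (gk a (fun _ => 1))) (V := VV a x)
    (C := C) (LN_diff hx (gk_Sc ha0 ha1 Sc_one)) (VV_diff hx ha0 ha1) hCd hre hC0 ht0 ht1 hL
    hr0 hr1 (M := M) (fun ζ hζ N => by
      refine le_trans (le_of_eq ?_) (H ζ hζ N)
      refine Finset.sum_congr rfl (fun n _ => ?_)
      have e3 : tc (VV a x) = vv a x := funext (tc_vv hx ha0 ha1)
      rw [tc_el hx ha0 ha1, e3, cv_vv])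
  exact h

/-- The form used in the covering. -/
theorem near_lt {x : ℂ} (hx : ‖x‖ < 1) {a : ℝ} (ha0 : 0 ≤ a) (ha1 : a ≤ 1) {t0 r M T : ℝ}
    (hr0 : 0 ≤ r) (hr1 : r < 1)
    (H : ∀ ζ : ℂ, ‖ζ‖ = 1 → ∀ N : ℕ, ∑ n ∈ Finset.range N,
      ‖el a x n + t0 * yy a x ζ n‖ * r ^ n ≤ M)
    (hM : r * M < T ∨ r * M < Ph x (gk a (fun _ => 1)) r)
    {k : ℂ → ℂ} (hk : Sc k) {t : ℝ} (ht0 : 0 < t) (ht1 : t ≤ t0) (hk0 : k 0 = ((1 - t : ℝ) : ℂ))
    (hbig : T ≤ Ph x (gk a k) r) :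
    Ph x (gk a k) r < Ph x (gk a (fun _ => 1)) r := by
  have h1 := near hx ha0 ha1 hr0 hr1 H hk ht0 ht1 hk0
  have ht00 : 0 < t0 := lt_of_lt_of_le ht0 ht1
  have hτ0 : 0 < t / t0 := div_pos ht0 ht00
  have hτ1 : t / t0 ≤ 1 := (div_le_one ht00).2 ht1
  have h2 : Ph x (gk a k) r ≤
      (1 - t / t0) * Ph x (gk a (fun _ => 1)) r + t / t0 * (r * M) := by
    unfold Ph
    have := mul_le_mul_of_nonneg_left h1 hr0
    linarith
  rcases hM with hM | hM
  · by_contra hcon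
    have h3 := not_lt.1 hcon
    have h4 := mul_le_mul_of_nonneg_left h3 (by linarith : 0 ≤ 1 - t / t0)
    have h5 : t / t0 * (r * M) < t / t0 * Ph x (gk a k) r :=
      mul_lt_mul_of_pos_left (lt_of_lt_of_le hM hbig) hτ0
    linarith
  · have h5 : t / t0 * (r * M) < t / t0 * Ph x (gk a (fun _ => 1)) r :=
      mul_lt_mul_of_pos_left hM hτ0
    linarith

/-- Level zero: `g 0 = 1 - d`. -/
theorem lev0 {x : ℂ} (hx : ‖x‖ < 1) {d0 r M : ℝ} (hr0 : 0 ≤ r) (hr1 : r < 1)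
    (H : ∀ ζ : ℂ, ‖ζ‖ = 1 → ∀ N : ℕ, ∑ n ∈ Finset.range N,
      ‖x ^ n - d0 * zz x ζ n‖ * r ^ n ≤ M)
    {g : ℂ → ℂ} (hg : Sc g) {d : ℝ} (hd0 : 0 < d) (hd1 : d ≤ d0)
    (hg0 : g 0 = ((1 - d : ℝ) : ℂ)) :
    nr (LN x g) r ≤ (1 - d / d0) * (1 / (1 - ‖x‖ * r)) + d / d0 * M := by
  have hdC : (d : ℂ) ≠ 0 := by exact_mod_cast hd0.ne'
  have hxz : ∀ z : ℂ, ‖z‖ < 1 → ‖x * z‖ < 1 := by
    intro z hz
    rw [norm_mul]
    calc ‖x‖ * ‖z‖ ≤ 1 * ‖z‖ := by gcongr
      _ < 1 := by rw [one_mul]; exact hz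
  have h1x : ∀ z : ℂ, ‖z‖ < 1 → (1 : ℂ) - x * z ≠ 0 := fun z hz => by
    intro h
    have h2 : x * z = 1 := by linear_combination -h
    have h3 := hxz z hz
    rw [h2] at h3
    simp at h3
  have hgx : ∀ z : ℂ, ‖z‖ < 1 → (1 : ℂ) - x * z * g z ≠ 0 := fun z hz => one_sub_xzg_ne hx hg hz
  have hd1x : DifferentiableOn ℂ (fun z => 1 - x * z) (ball 0 1) :=
    (differentiableOn_const _).sub ((differentiableOn_const _).mul differentiableOn_id)
  set C : ℂ → ℂ := fun z => (1 - g z) * (1 - x * z) / (d * (1 - x * z * g z)) with hCdef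
  have hCd : DifferentiableOn ℂ C (ball 0 1) := by
    refine DifferentiableOn.div (((differentiableOn_const _).sub hg.1).mul hd1x) ?_
      (fun z hz => mul_ne_zero hdC (hgx z (by simpa using hz)))
    exact (differentiableOn_const _).mul ((differentiableOn_const _).sub
      (((differentiableOn_const _).mul differentiableOn_id).mul hg.1))
  have hC0 : C 0 = 1 := by
    simp only [hCdef, hg0]
    push_cast
    simp only [mul_zero, sub_zero, zero_mul, mul_one]
    field_simp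
    ring
  have hre : ∀ z : ℂ, ‖z‖ < 1 → 0 ≤ (C z).re := by
    intro z hz
    have h1 := re_P_nonneg (hg.2 z hz) (hxz z hz).le
    have e : C z = ((d⁻¹ : ℝ) : ℂ) * ((1 - g z) * (1 - x * z) / (1 - x * z * g z)) := by
      have h3 := hgx z hz
      simp only [hCdef]
      push_cast
      field_simp
    rw [e, Complex.re_ofReal_mul]
    exact mul_nonneg (inv_nonneg.2 hd0.le) h1
  set L0 : ℂ → ℂ := fun z => (1 - x * z)⁻¹ with hL0def
  set V : ℂ → ℂ := fun z => -((1 - x * z) ^ 2)⁻¹ with hVdef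
  have hL0d : DifferentiableOn ℂ L0 (ball 0 1) :=
    hd1x.inv (fun z hz => h1x z (by simpa using hz))
  have hVd : DifferentiableOn ℂ V (ball 0 1) :=
    ((hd1x.pow 2).inv (fun z hz => pow_ne_zero 2 (h1x z (by simpa using hz)))).neg
  have hL : ∀ z : ℂ, ‖z‖ < 1 → LN x g z = L0 z + d * (V z * C z) := by
    intro z hz
    have h2 := h1x z hz
    have h3 := hgx z hz
    simp only [hL0def, hVdef, hCdef, LN]
    have h5 := alg3 (A := g z) (B := 1) (c := -1) (K := 1 - g z) h2 h3 hdC (by ring)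
    rw [h5, one_div, neg_div, one_div]
  have htL0 : ∀ n, tc L0 n = x ^ n := fun n => tc_geom hx n
  have htV : ∀ n, tc V n = -((n + 1) * x ^ n) := by
    intro n
    refine tc_eq (c := fun n => -(((n : ℂ) + 1) * x ^ n)) (fun z hz => ?_) n
    have h4 : ‖x * z‖ < 1 := hxz z hz
    have h5 := hasSum_coe_mul_geometric_of_norm_lt_one (𝕜 := ℂ) h4
    have h6 := hasSum_geometric_of_norm_lt_one h4
    have h7 := (h5.add h6).neg
    have e : -(x * z / (1 - x * z) ^ 2 + (1 - x * z)⁻¹) = V z := by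
      have h2 := h1x z hz
      simp only [hVdef]
      field_simp
      ring
    rw [← e]
    refine h7.congr_fun (fun m => ?_)
    rw [mul_pow]
    ring
  have h := hull_interp (L := LN x g) (L0 := L0) (V := V)
    (C := C) hL0d hVd hCd hre hC0 hd0 hd1 hL
    hr0 hr1 (M := M) (fun ζ hζ N => by
      refine le_trans (le_of_eq ?_) (H ζ hζ N)
      refine Finset.sum_congr rfl (fun n _ => ?_)
      have e3 : cv (tc V) (fun k => hc k ζ) n = - zz x ζ n := by
        rw [← cv_zz]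
        unfold cv
        rw [← Finset.sum_neg_distrib]
        refine Finset.sum_congr rfl (fun k _ => ?_)
        rw [htV]
        ring
      rw [htL0, e3]
      congr 2
      ring)
  have hn0 : nr L0 r = 1 / (1 - ‖x‖ * r) := by
    unfold nr
    simp_rw [htL0, norm_pow, ← mul_pow]
    have : ‖x‖ * r < 1 := by
      calc ‖x‖ * r ≤ 1 * r := by gcongr
        _ < 1 := by rw [one_mul]; exact hr1
    rw [tsum_geometric_of_lt_one (by positivity) this, one_div]
  rw [hn0] at h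
  exact h

/-- The form used in the covering: `T = 1 / (1 + l)`, `‖x‖ = l`, `r ≤ 1 / (1 + 2 l)`. -/
theorem lev0_lt {x : ℂ} {l : ℝ} (hx : ‖x‖ = l) (hl0 : 0 < l) (hl : l < 1) {d0 r M : ℝ}
    (hr0 : 0 ≤ r) (hr1 : r ≤ 1 / (1 + 2 * l))
    (H : ∀ ζ : ℂ, ‖ζ‖ = 1 → ∀ N : ℕ, ∑ n ∈ Finset.range N,
      ‖x ^ n - d0 * zz x ζ n‖ * r ^ n ≤ M) (hM : r * M < 1 / (1 + l))
    {g : ℂ → ℂ} (hg : Sc g) {d : ℝ} (hd0 : 0 < d) (hd1 : d ≤ d0)
    (hg0 : g 0 = ((1 - d : ℝ) : ℂ)) :
    Ph x g r < 1 / (1 + l) := by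
  have hrl : r * (1 + 2 * l) ≤ 1 := by
    rw [le_div_iff₀ (by linarith)] at hr1
    exact hr1
  have hr1' : r < 1 := by
    by_contra hcon
    have h1 := not_lt.1 hcon
    nlinarith
  have h1 := lev0 (by rw [hx]; exact hl) hr0 hr1' H hg hd0 hd1 hg0
  rw [hx] at h1
  have ht00 : 0 < d0 := lt_of_lt_of_le hd0 hd1
  have hτ0 : 0 < d / d0 := div_pos hd0 ht00
  have hτ1 : d / d0 ≤ 1 := (div_le_one ht00).2 hd1
  have hlr : 0 < 1 - l * r := by nlinarith
  have h2 : r * (1 / (1 - l * r)) ≤ 1 / (1 + l) := by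
    rw [mul_one_div, div_le_div_iff₀ hlr (by linarith)]
    nlinarith
  have h3 : Ph x g r ≤ (1 - d / d0) * (r * (1 / (1 - l * r))) + d / d0 * (r * M) := by
    unfold Ph
    have := mul_le_mul_of_nonneg_left h1 hr0
    linarith
  have h4 := mul_le_mul_of_nonneg_left h2 (by linarith : 0 ≤ 1 - d / d0)
  have h5 : d / d0 * (r * M) < d / d0 * (1 / (1 + l)) := mul_lt_mul_of_pos_left hM hτ0
  linarith

end Pool.Agent.BNR
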