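import Pool.Agent.Lib.BNR.Seq

/-!
# Calculus with the weighted sums `nr` and `dn` (the sum with the weights `n r ^ n`)
-/

set_option autoImplicit false

open Complex Metric Set
open Pool.Agent.P187f6b Pool.Agent.P187w

namespace Pool.Agent.BNR

/-- `∑ n |f_n| r ^ n`. -/
noncomputable def dn (f : ℂ → ℂ) (r : ℝ) : ℝ := ∑' n : ℕ, (n : ℝ) * ‖tc f n‖ * r ^ n

/-- `f` is holomorphic on the disc and `nr f r ≤ B`. -/
def Bd (r : ℝ) (f : ℂ → ℂ) (B : ℝ) : Prop := DifferentiableOn ℂ f (ball 0 1) ∧ nr f r ≤ B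

/-- `f` is holomorphic on the disc, `nr f r ≤ B` and `dn f r ≤ D`. -/
def Bdd (r : ℝ) (f : ℂ → ℂ) (B D : ℝ) : Prop :=
  DifferentiableOn ℂ f (ball 0 1) ∧ nr f r ≤ B ∧ dn f r ≤ D

lemma summable_dn {f : ℂ → ℂ} (hf : DifferentiableOn ℂ f (ball 0 1)) {r : ℝ} (h0 : 0 ≤ r)
    (h1 : r < 1) : Summable fun n : ℕ => (n : ℝ) * ‖tc f n‖ * r ^ n := by
  -- compare with the radius `s = (1 + r) / 2`
  set s : ℝ := (1 + r) / 2 with hs
  have hs0 : 0 < s := by rw [hs]; linarith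
  have hs1 : s < 1 := by rw [hs]; linarith
  have hrs : r < s := by rw [hs]; linarith
  have hq1 : r / s < 1 := by rw [div_lt_one hs0]; exact hrs
  have hq0 : 0 ≤ r / s := by positivity
  have h2 : Summable fun n : ℕ => ‖tc f n‖ * s ^ n := tc_summable hf hs0.le hs1
  have h3 : Filter.Tendsto (fun n : ℕ => (n : ℝ) * (r / s) ^ n) Filter.atTop (nhds 0) :=
    tendsto_self_mul_const_pow_of_lt_one hq0 hq1
  obtain ⟨C, hC⟩ := h3.bddAbove_range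
  have hC' : ∀ n : ℕ, (n : ℝ) * (r / s) ^ n ≤ C := fun n => hC ⟨n, rfl⟩
  refine Summable.of_nonneg_of_le (fun n => by positivity) (fun n => ?_) (h2.mul_left C)
  have h4 : (n : ℝ) * ‖tc f n‖ * r ^ n = ((n : ℝ) * (r / s) ^ n) * (‖tc f n‖ * s ^ n) := by
    rw [div_pow]
    field_simp
  rw [h4]
  exact mul_le_mul_of_nonneg_right (hC' n) (by positivity)

lemma dn_nonneg (f : ℂ → ℂ) {r : ℝ} (h0 : 0 ≤ r) : 0 ≤ dn f r :=
  tsum_nonneg (fun n => by positivity)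

lemma tc_sub {f g : ℂ → ℂ} (hf : DifferentiableOn ℂ f (ball 0 1))
    (hg : DifferentiableOn ℂ g (ball 0 1)) (n : ℕ) :
    tc (fun z => f z - g z) n = tc f n - tc g n :=
  tc_eq (c := fun n => tc f n - tc g n) (fun z hz => by
    refine ((tc_hasSum hf hz).sub (tc_hasSum hg hz)).congr_fun (fun n => ?_)
    ring) n

lemma dn_add_le {f g : ℂ → ℂ} (hf : DifferentiableOn ℂ f (ball 0 1))
    (hg : DifferentiableOn ℂ g (ball 0 1)) {r : ℝ} (h0 : 0 ≤ r) (h1 : r < 1) :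
    dn (fun z => f z + g z) r ≤ dn f r + dn g r := by
  unfold dn
  rw [← (summable_dn hf h0 h1).tsum_add (summable_dn hg h0 h1)]
  refine (summable_dn (hf.add hg) h0 h1).tsum_le_tsum (fun n => ?_)
    ((summable_dn hf h0 h1).add (summable_dn hg h0 h1))
  have e : tc (f + g) n = tc f n + tc g n := tc_add hf hg n
  have e' : tc (fun z => f z + g z) n = tc f n + tc g n := tc_add hf hg n
  have h2 := norm_add_le (tc f n) (tc g n)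
  have h3 : 0 ≤ (n : ℝ) * r ^ n := by positivity
  calc (n : ℝ) * ‖tc (fun z => f z + g z) n‖ * r ^ n = ‖tc f n + tc g n‖ * ((n : ℝ) * r ^ n) := by
        rw [e']; ring
    _ ≤ (‖tc f n‖ + ‖tc g n‖) * ((n : ℝ) * r ^ n) := mul_le_mul_of_nonneg_right h2 h3
    _ = _ := by ring

/-- The product rule for `dn`. -/
lemma dn_mul_le {f g : ℂ → ℂ} (hf : DifferentiableOn ℂ f (ball 0 1))
    (hg : DifferentiableOn ℂ g (ball 0 1)) {r : ℝ} (h0 : 0 ≤ r) (h1 : r < 1) :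
    dn (fun z => f z * g z) r ≤ dn f r * nr g r + nr f r * dn g r := by
  have sf := summable_nr hf h0 h1
  have sg := summable_nr hg h0 h1
  have df := summable_dn hf h0 h1
  have dg := summable_dn hg h0 h1
  have nf : Summable fun n => ‖(‖tc f n‖ * r ^ n : ℝ)‖ := sf.norm
  have ng : Summable fun n => ‖(‖tc g n‖ * r ^ n : ℝ)‖ := sg.norm
  have ndf : Summable fun n : ℕ => ‖((n : ℝ) * ‖tc f n‖ * r ^ n : ℝ)‖ := df.norm
  have ndg : Summable fun n : ℕ => ‖((n : ℝ) * ‖tc g n‖ * r ^ n : ℝ)‖ := dg.norm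
  unfold dn nr
  rw [tsum_mul_tsum_eq_tsum_sum_antidiagonal_of_summable_norm ndf ng,
    tsum_mul_tsum_eq_tsum_sum_antidiagonal_of_summable_norm nf ndg]
  have S1 := (summable_norm_sum_mul_antidiagonal_of_summable_norm ndf ng).of_norm
  have S2 := (summable_norm_sum_mul_antidiagonal_of_summable_norm nf ndg).of_norm
  rw [← S1.tsum_add S2]
  refine (summable_dn (hf.mul hg) h0 h1).tsum_le_tsum (fun n => ?_) (S1.add S2)
  have e' : tc (fun z => f z * g z) n =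
      ∑ kl ∈ Finset.HasAntidiagonal.antidiagonal n, tc f kl.1 * tc g kl.2 := tc_mul hf hg n
  have h3 : 0 ≤ (n : ℝ) * r ^ n := by positivity
  have h4 : (n : ℝ) * ‖tc (fun z => f z * g z) n‖ * r ^ n ≤
      (∑ kl ∈ Finset.HasAntidiagonal.antidiagonal n, ‖tc f kl.1‖ * ‖tc g kl.2‖) *
        ((n : ℝ) * r ^ n) := by
    rw [e', show (n : ℝ) * ‖∑ kl ∈ Finset.HasAntidiagonal.antidiagonal n, tc f kl.1 * tc g kl.2‖ *
      r ^ n = ‖∑ kl ∈ Finset.HasAntidiagonal.antidiagonal n, tc f kl.1 * tc g kl.2‖ *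
      ((n : ℝ) * r ^ n) by ring]
    refine mul_le_mul_of_nonneg_right ((norm_sum_le _ _).trans (Finset.sum_le_sum (fun kl _ => ?_)))
      h3
    rw [norm_mul]
  refine h4.trans (le_of_eq ?_)
  rw [Finset.sum_mul, ← Finset.sum_add_distrib]
  refine Finset.sum_congr rfl (fun kl hkl => ?_)
  have h5 : kl.1 + kl.2 = n := Finset.HasAntidiagonal.mem_antidiagonal.1 hkl
  rw [← h5]
  push_cast
  rw [pow_add]
  ring

lemma dn_smul {f : ℂ → ℂ} (hf : DifferentiableOn ℂ f (ball 0 1)) (c : ℂ) (r : ℝ) :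
    dn (fun z => c * f z) r = ‖c‖ * dn f r := by
  unfold dn
  rw [← tsum_mul_left]
  congr 1
  funext n
  have : tc (fun z => c * f z) n = c * tc f n :=
    tc_eq (c := fun n => c * tc f n) (fun z hz => by
      refine ((tc_hasSum hf hz).mul_left c).congr_fun (fun n => ?_)
      ring) n
  rw [this, norm_mul]
  ring

lemma dn_const (c : ℂ) (r : ℝ) : dn (fun _ => c) r = 0 := by
  unfold dn
  rw [tsum_congr (fun n => ?_), tsum_zero]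
  cases n with
  | zero => simp
  | succ n => rw [SeqAux.tc_const_succ]; simp

lemma dn_id {r : ℝ} (h0 : 0 ≤ r) (h1 : r < 1) : dn (fun z => z) r = r := by
  unfold dn
  have e : ∀ n : ℕ, (n : ℝ) * ‖tc (fun z : ℂ => z) n‖ * r ^ n = if n = 1 then r else 0 := by
    intro n
    have h := SeqAux.tc_aff_two (0 : ℂ) 1
    have h1 := SeqAux.tc_aff_one (0 : ℂ) 1
    have e0 : (fun z : ℂ => (0 : ℂ) + 1 * z) = fun z => z := by funext z; ring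
    rw [e0] at h h1
    match n with
    | 0 => simp
    | 1 => rw [h1]; simp
    | (m + 2) => rw [h m]; simp
  simp_rw [e]
  rw [tsum_ite_eq]

lemma nr_id (r : ℝ) : nr (fun z => z) r = r := by
  have := nr_z_mul (f := fun _ => (1 : ℂ)) (differentiableOn_const _) r
  simp only [mul_one] at this
  rw [this, nr_const]; simp

namespace Bd

variable {r A B : ℝ} {f g : ℂ → ℂ}

lemma mono (h : Bd r f A) (hAB : A ≤ B) : Bd r f B := ⟨h.1, h.2.trans hAB⟩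

lemma congr (h : Bd r g A) (e : ∀ z : ℂ, ‖z‖ < 1 → f z = g z)
    (hf : DifferentiableOn ℂ f (ball 0 1)) : Bd r f A :=
  ⟨hf, by rw [nr_congr h.1 e]; exact h.2⟩

lemma add (h0 : 0 ≤ r) (h1 : r < 1) (hf : Bd r f A) (hg : Bd r g B) :
    Bd r (fun z => f z + g z) (A + B) :=
  ⟨hf.1.add hg.1, (nr_add_le hf.1 hg.1 h0 h1).trans (add_le_add hf.2 hg.2)⟩

lemma mul (h0 : 0 ≤ r) (h1 : r < 1) (hf : Bd r f A) (hg : Bd r g B) :
    Bd r (fun z => f z * g z) (A * B) :=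
  ⟨hf.1.mul hg.1, (nr_mul_le hf.1 hg.1 h0 h1).trans
    (mul_le_mul hf.2 hg.2 (nr_nonneg _ h0) ((nr_nonneg _ h0).trans hf.2))⟩

lemma smul (hf : Bd r f A) (c : ℂ) : Bd r (fun z => c * f z) (‖c‖ * A) :=
  ⟨hf.1.const_mul c, by
    rw [nr_smul hf.1]; exact mul_le_mul_of_nonneg_left hf.2 (norm_nonneg _)⟩

lemma sub (h0 : 0 ≤ r) (h1 : r < 1) (hf : Bd r f A) (hg : Bd r g B) :
    Bd r (fun z => f z - g z) (A + B) := by
  have h := add h0 h1 hf (hg.smul (-1))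
  rw [norm_neg, norm_one, one_mul] at h
  refine h.congr (fun z _ => by ring) (hf.1.sub hg.1)

lemma const (r : ℝ) (c : ℂ) : Bd r (fun _ => c) ‖c‖ := ⟨differentiableOn_const _, (nr_const c r).le⟩

lemma id (r : ℝ) : Bd r (fun z => z) r := ⟨differentiableOn_id, (nr_id r).le⟩

end Bd

namespace Bdd

variable {r A B A' B' : ℝ} {f g : ℂ → ℂ}

lemma mono (h : Bdd r f A A') (hAB : A ≤ B) (hAB' : A' ≤ B') : Bdd r f B B' :=
  ⟨h.1, h.2.1.trans hAB, h.2.2.trans hAB'⟩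

lemma add (h0 : 0 ≤ r) (h1 : r < 1) (hf : Bdd r f A A') (hg : Bdd r g B B') :
    Bdd r (fun z => f z + g z) (A + B) (A' + B') :=
  ⟨hf.1.add hg.1, (nr_add_le hf.1 hg.1 h0 h1).trans (add_le_add hf.2.1 hg.2.1),
    (dn_add_le hf.1 hg.1 h0 h1).trans (add_le_add hf.2.2 hg.2.2)⟩

lemma mul (h0 : 0 ≤ r) (h1 : r < 1) (hf : Bdd r f A A') (hg : Bdd r g B B') :
    Bdd r (fun z => f z * g z) (A * B) (A' * B + A * B') := by
  have nf := nr_nonneg f h0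
  have ng := nr_nonneg g h0
  have df := dn_nonneg f h0
  have dg := dn_nonneg g h0
  refine ⟨hf.1.mul hg.1, (nr_mul_le hf.1 hg.1 h0 h1).trans
    (mul_le_mul hf.2.1 hg.2.1 ng (nf.trans hf.2.1)),
    (dn_mul_le hf.1 hg.1 h0 h1).trans (add_le_add ?_ ?_)⟩
  · exact mul_le_mul hf.2.2 hg.2.1 ng (df.trans hf.2.2)
  · exact mul_le_mul hf.2.1 hg.2.2 dg (nf.trans hf.2.1)

lemma smul (hf : Bdd r f A A') (c : ℂ) : Bdd r (fun z => c * f z) (‖c‖ * A) (‖c‖ * A') :=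
  ⟨hf.1.const_mul c, by
    rw [nr_smul hf.1]; exact mul_le_mul_of_nonneg_left hf.2.1 (norm_nonneg _), by
    rw [dn_smul hf.1]; exact mul_le_mul_of_nonneg_left hf.2.2 (norm_nonneg _)⟩

lemma id (h0 : 0 ≤ r) (h1 : r < 1) : Bdd r (fun z => z) r r :=
  ⟨differentiableOn_id, (nr_id r).le, (dn_id h0 h1).le⟩

end Bdd

/-- The function `(1 + ζ z) / (1 - ζ z)`. -/
noncomputable def pz (ζ z : ℂ) : ℂ := (1 + ζ * z) / (1 - ζ * z)

lemma pz_ne {ζ : ℂ} (hζ : ‖ζ‖ = 1) {z : ℂ} (hz : ‖z‖ < 1) : 1 - ζ * z ≠ 0 := by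
  intro h
  have h1 : (1 : ℂ) = ζ * z := by linear_combination h
  have h2 : (1 : ℝ) = ‖ζ * z‖ := by rw [← h1]; simp
  rw [norm_mul, hζ, one_mul] at h2
  linarith

lemma pz_diff {ζ : ℂ} (hζ : ‖ζ‖ = 1) : DifferentiableOn ℂ (pz ζ) (ball 0 1) := by
  unfold pz
  refine DifferentiableOn.div (by fun_prop) (by fun_prop) (fun z hz => ?_)
  exact pz_ne hζ (by simpa using hz)

lemma tc_pz {ζ : ℂ} (hζ : ‖ζ‖ = 1) (n : ℕ) : tc (pz ζ) n = hc n ζ := by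
  have h := SeqAux.rec2 (f := pz ζ) (g := fun z => 1 + ζ * z) (p := -ζ) (q := 0)
    (pz_diff hζ) (fun z hz => by
      have hne := pz_ne hζ hz
      rw [pz, show (1 + -ζ * z + 0 * z ^ 2) = 1 - ζ * z by ring]
      exact div_mul_cancel₀ _ hne)
  obtain ⟨h0, h1, h2⟩ := h
  rw [SeqAux.tc_aff_zero] at h0
  rw [SeqAux.tc_aff_one, h0] at h1
  have h3 : ∀ n, tc (pz ζ) (n + 1) = 2 * ζ ^ (n + 1) := by
    intro n
    induction n with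
    | zero => rw [h1]; ring
    | succ n ih => rw [h2 n, SeqAux.tc_aff_two, ih]; ring
  cases n with
  | zero => rw [h0]; simp [hc]
  | succ n => rw [h3 n, hc, if_neg (Nat.succ_ne_zero n)]

lemma norm_tc_pz {ζ : ℂ} (hζ : ‖ζ‖ = 1) (n : ℕ) : ‖tc (pz ζ) n‖ = if n = 0 then 1 else 2 := by
  rw [tc_pz hζ, hc]
  split_ifs
  · simp
  · rw [norm_mul, norm_pow, hζ]; norm_num

lemma nr_pz {ζ : ℂ} (hζ : ‖ζ‖ = 1) {r : ℝ} (h0 : 0 ≤ r) (h1 : r < 1) :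
    nr (pz ζ) r = (1 + r) / (1 - r) := by
  unfold nr
  have hg : HasSum (fun n : ℕ => 2 * r ^ n) (2 * (1 - r)⁻¹) :=
    (hasSum_geometric_of_lt_one h0 h1).mul_left 2
  have h2 : HasSum (fun n : ℕ => ‖tc (pz ζ) n‖ * r ^ n) (2 * (1 - r)⁻¹ + -1) := by
    have h3 : HasSum (fun n : ℕ => if n = 0 then (-1 : ℝ) else 0) (-1) := hasSum_ite_eq 0 (-1)
    refine (hg.add h3).congr_fun (fun n => ?_)
    rw [norm_tc_pz hζ]
    split_ifs with h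
    · rw [h]; norm_num
    · ring
  rw [h2.tsum_eq]
  have : 1 - r ≠ 0 := by linarith
  field_simp
  ring

lemma dn_pz {ζ : ℂ} (hζ : ‖ζ‖ = 1) {r : ℝ} (h0 : 0 ≤ r) (h1 : r < 1) :
    dn (pz ζ) r = 2 * r / (1 - r) ^ 2 := by
  unfold dn
  have hg : HasSum (fun n : ℕ => 2 * ((n : ℝ) * r ^ n)) (2 * (r / (1 - r) ^ 2)) :=
    (hasSum_coe_mul_geometric_of_norm_lt_one (𝕜 := ℝ) (r := r)
      (by rw [Real.norm_eq_abs, abs_of_nonneg h0]; exact h1)).mul_left 2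
  have h2 : HasSum (fun n : ℕ => (n : ℝ) * ‖tc (pz ζ) n‖ * r ^ n) (2 * (r / (1 - r) ^ 2)) := by
    refine hg.congr_fun (fun n => ?_)
    rw [norm_tc_pz hζ]
    split_ifs with h
    · rw [h]; simp
    · ring
  rw [h2.tsum_eq]
  ring

lemma Bd_pz {ζ : ℂ} (hζ : ‖ζ‖ = 1) {r : ℝ} (h0 : 0 ≤ r) (h1 : r < 1) :
    Bd r (pz ζ) ((1 + r) / (1 - r)) := ⟨pz_diff hζ, (nr_pz hζ h0 h1).le⟩

lemma Bdd_pz {ζ : ℂ} (hζ : ‖ζ‖ = 1) {r : ℝ} (h0 : 0 ≤ r) (h1 : r < 1) :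
    Bdd r (pz ζ) ((1 + r) / (1 - r)) (2 * r / (1 - r) ^ 2) :=
  ⟨pz_diff hζ, (nr_pz hζ h0 h1).le, (dn_pz hζ h0 h1).le⟩

/-- The function `L_0 + t0 V (1 + ζ z) / (1 - ζ z)` of the near zone. -/
noncomputable def XF (t0 a : ℝ) (x ζ z : ℂ) : ℂ :=
  LN x (gk a (fun _ => 1)) z + t0 * (VV a x z * ((1 + ζ * z) / (1 - ζ * z)))

lemma XF_eq (t0 a : ℝ) (x ζ : ℂ) : XF t0 a x ζ = fun z =>
    LN x (gk a (fun _ => 1)) z + (t0 : ℂ) * (VV a x z * pz ζ z) := rfl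

lemma XF_diff {x : ℂ} (hx : ‖x‖ < 1) {a : ℝ} (ha0 : 0 ≤ a) (ha1 : a ≤ 1) {ζ : ℂ} (hζ : ‖ζ‖ = 1)
    (t0 : ℝ) : DifferentiableOn ℂ (XF t0 a x ζ) (ball 0 1) :=
  (LN_diff hx (gk_Sc ha0 ha1 Sc_one)).add
    (((VV_diff hx ha0 ha1).mul (pz_diff hζ)).const_mul _)

lemma tc_XF {x : ℂ} (hx : ‖x‖ < 1) {a : ℝ} (ha0 : 0 ≤ a) (ha1 : a ≤ 1) {ζ : ℂ} (hζ : ‖ζ‖ = 1)
    (t0 : ℝ) (n : ℕ) : tc (XF t0 a x ζ) n = el a x n + t0 * yy a x ζ n := by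
  have hL := LN_diff hx (gk_Sc ha0 ha1 Sc_one)
  have hV := VV_diff hx ha0 ha1
  have hVp : DifferentiableOn ℂ (fun z => VV a x z * pz ζ z) (ball 0 1) := hV.mul (pz_diff hζ)
  have h1 : tc (XF t0 a x ζ) n = tc (LN x (gk a (fun _ => 1))) n +
      tc (fun z => (t0 : ℂ) * (VV a x z * pz ζ z)) n := tc_add hL (hVp.const_mul _) n
  have h2 : tc (fun z => (t0 : ℂ) * (VV a x z * pz ζ z)) n =
      t0 * tc (fun z => VV a x z * pz ζ z) n :=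
    tc_eq (c := fun n => t0 * tc (fun z => VV a x z * pz ζ z) n) (fun z hz => by
      refine ((tc_hasSum hVp hz).mul_left (t0 : ℂ)).congr_fun (fun n => ?_)
      ring) n
  have h3 : tc (fun z => VV a x z * pz ζ z) n = yy a x ζ n := by
    rw [tc_mul hV (pz_diff hζ), ← cv_vv, cv]
    rw [Finset.Nat.sum_antidiagonal_eq_sum_range_succ (fun i j => tc (VV a x) i * tc (pz ζ) j) n]
    rw [← Finset.sum_range_reflect]
    refine Finset.sum_congr rfl (fun k hk => ?_)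
    rw [Finset.mem_range] at hk
    rw [show n + 1 - 1 - k = n - k by omega, show n - (n - k) = k by omega, tc_vv hx ha0 ha1,
      tc_pz hζ]
  rw [h1, h2, h3, tc_el hx ha0 ha1]

/-- All partial sums are bounded by `nr (XF ..)`. -/
lemma partial_le {x : ℂ} (hx : ‖x‖ < 1) {a : ℝ} (ha0 : 0 ≤ a) (ha1 : a ≤ 1) {ζ : ℂ}
    (hζ : ‖ζ‖ = 1) (t0 : ℝ) {r : ℝ} (h0 : 0 ≤ r) (h1 : r < 1) (N : ℕ) :
    ∑ n ∈ Finset.range N, ‖el a x n + t0 * yy a x ζ n‖ * r ^ n ≤ nr (XF t0 a x ζ) r := by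
  have h := summable_nr (XF_diff hx ha0 ha1 hζ t0) h0 h1
  have h2 := h.sum_le_tsum (Finset.range N) (fun n _ => by positivity)
  simp only [tc_XF hx ha0 ha1 hζ] at h2
  refine h2.trans (le_of_eq ?_)
  unfold nr
  simp only [tc_XF hx ha0 ha1 hζ]

/-- A bound for all partial sums is a bound for `nr (XF ..)`. -/
lemma nr_XF_le {x : ℂ} (hx : ‖x‖ < 1) {a : ℝ} (ha0 : 0 ≤ a) (ha1 : a ≤ 1) {ζ : ℂ}
    (hζ : ‖ζ‖ = 1) (t0 : ℝ) {r M : ℝ} (h0 : 0 ≤ r)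
    (H : ∀ N : ℕ, ∑ n ∈ Finset.range N, ‖el a x n + t0 * yy a x ζ n‖ * r ^ n ≤ M) :
    nr (XF t0 a x ζ) r ≤ M := by
  unfold nr
  simp only [tc_XF hx ha0 ha1 hζ]
  exact Real.tsum_le_of_sum_range_le (fun n => by positivity) H

lemma Bd.nonneg {r A : ℝ} {f : ℂ → ℂ} (h0 : 0 ≤ r) (h : Bd r f A) : 0 ≤ A :=
  (nr_nonneg f h0).trans h.2

lemma Bd.smul' {r A C : ℝ} {f : ℂ → ℂ} {c : ℂ} (h0 : 0 ≤ r) (hf : Bd r f A) (hc : ‖c‖ ≤ C) :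
    Bd r (fun z => c * f z) (C * A) :=
  (hf.smul c).mono (mul_le_mul_of_nonneg_right hc (hf.nonneg h0))

namespace WnAux

open SeqAux

lemma iq_q {x : ℂ} (hx : ‖x‖ < 1) {a : ℝ} (ha0 : 0 ≤ a) (ha1 : a ≤ 1) {z : ℂ} (hz : ‖z‖ < 1) :
    iq a x z * (1 - a * (1 + x) * z + x * z ^ 2) = 1 := by
  rw [iq]; exact one_div_mul_cancel (q_ne hx ha0 ha1 hz)

lemma VV_iq (a : ℝ) (x z : ℂ) : VV a x z = (1 - (a : ℂ) ^ 2) * z * (iq a x z * iq a x z) := by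
  rw [VV, iq]
  generalize 1 - (a : ℂ) * (1 + x) * z + x * z ^ 2 = q
  ring

lemma L_iq {x : ℂ} (hx : ‖x‖ < 1) {a : ℝ} (ha0 : 0 ≤ a) (ha1 : a ≤ 1) {z : ℂ} (hz : ‖z‖ < 1) :
    LN x (gk a (fun _ => 1)) z = (a - z) * iq a x z := by
  have h := LN_q hx ha0 ha1 hz
  have h2 := iq_q hx ha0 ha1 hz
  linear_combination (-LN x (gk a (fun _ => 1)) z) * h2 + iq a x z * h

/-- The mean squares of the coefficients of `1 / q`. -/
lemma iq_sq {x : ℂ} {l : ℝ} (hx : ‖x‖ ≤ l) (hl : l < 1) {a a2 : ℝ} (ha0 : 0 ≤ a)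
    (h12 : a ≤ a2) (h2 : a2 < 1) (N : ℕ) :
    ∑ n ∈ Finset.range N, ‖tc (iq a x) (n + 1)‖ ^ 2 ≤
      (a2 ^ 2 + l ^ 2 / (1 - l ^ 2)) / (1 - a2 ^ 2) := by
  have hl0 : 0 ≤ l := (norm_nonneg x).trans hx
  have hx1 : ‖x‖ < 1 := lt_of_le_of_lt hx hl
  have ha1 : a < 1 := lt_of_le_of_lt h12 h2
  have hA : 0 < 1 - a ^ 2 := by nlinarith
  have hA2 : 0 < 1 - a2 ^ 2 := by nlinarith
  have hl2 : 0 < 1 - l ^ 2 := by nlinarith
  have hX2 : 1 - l ^ 2 ≤ 1 - ‖x‖ ^ 2 := by nlinarith [norm_nonneg x]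
  have h := uu_sq hx1 ha0 ha1.le (N + 1)
  rw [Finset.sum_range_succ'] at h
  have e0 : ‖uu a x 0‖ ^ 2 = 1 := by rw [uu]; simp
  rw [e0] at h
  have e : ∑ n ∈ Finset.range N, ‖tc (iq a x) (n + 1)‖ ^ 2 =
      ∑ n ∈ Finset.range N, ‖uu a x (n + 1)‖ ^ 2 :=
    Finset.sum_congr rfl (fun n _ => by rw [tc_iq hx1 ha0 ha1.le])
  rw [e]
  set S : ℝ := ∑ n ∈ Finset.range N, ‖uu a x (n + 1)‖ ^ 2 with hS
  have hS0 : 0 ≤ S := Finset.sum_nonneg (fun _ _ => by positivity)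
  have h3 : (1 - a ^ 2) * (1 - ‖x‖ ^ 2) * (S + 1) ≤ 1 := by
    have : (1 - a ^ 2) * ((1 - a ^ 2) * (1 - ‖x‖ ^ 2) * (S + 1)) ≤ (1 - a ^ 2) * 1 := by
      linarith
    exact le_of_mul_le_mul_left this hA
  have h4 : (1 - a ^ 2) * (1 - l ^ 2) * (S + 1) ≤ 1 := by
    have : (1 - a ^ 2) * (S + 1) * (1 - l ^ 2) ≤ (1 - a ^ 2) * (S + 1) * (1 - ‖x‖ ^ 2) :=
      mul_le_mul_of_nonneg_left hX2 (by positivity)
    linarith
  have h5 : (1 - a2 ^ 2) * (1 - l ^ 2) * (S + 1) ≤ 1 := by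
    have h6 : 1 - a2 ^ 2 ≤ 1 - a ^ 2 := by nlinarith
    have : (1 - a2 ^ 2) * ((1 - l ^ 2) * (S + 1)) ≤ (1 - a ^ 2) * ((1 - l ^ 2) * (S + 1)) :=
      mul_le_mul_of_nonneg_right h6 (by positivity)
    linarith
  rw [le_div_iff₀ hA2]
  have h7 : a2 ^ 2 + l ^ 2 / (1 - l ^ 2) = (a2 ^ 2 * (1 - l ^ 2) + l ^ 2) / (1 - l ^ 2) := by
    field_simp
  rw [h7, le_div_iff₀ hl2]
  linarith

/-- The bound for `1 / q`. -/
lemma nr_iq_le {x : ℂ} {l : ℝ} (hx : ‖x‖ ≤ l) (hl : l < 1) {a a2 : ℝ} (ha0 : 0 ≤ a)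
    (h12 : a ≤ a2) (h2 : a2 < 1) {r Q : ℝ} (hr0 : 0 ≤ r) (hr1 : r < 1) (hQ1 : 1 ≤ Q)
    (hQ : r ^ 2 * (a2 ^ 2 + l ^ 2 / (1 - l ^ 2)) ≤ (Q - 1) ^ 2 * ((1 - a2 ^ 2) * (1 - r ^ 2))) :
    nr (iq a x) r ≤ Q := by
  have hl0 : 0 ≤ l := (norm_nonneg x).trans hx
  have hx1 : ‖x‖ < 1 := lt_of_le_of_lt hx hl
  have ha1 : a < 1 := lt_of_le_of_lt h12 h2
  have hA2 : 0 < 1 - a2 ^ 2 := by nlinarith
  have hl2 : 0 < 1 - l ^ 2 := by nlinarith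
  have hr2 : 0 < 1 - r ^ 2 := by nlinarith
  have h := nr_le_of_sq (iq_diff hx1 ha0 ha1.le) (iq_sq hx hl ha0 h12 h2) hr0 hr1
  have e : ‖iq a x 0‖ = 1 := by rw [iq]; simp
  rw [e] at h
  set T : ℝ := a2 ^ 2 + l ^ 2 / (1 - l ^ 2) with hT
  have hT0 : 0 ≤ T := by positivity
  have h3 : √(T / (1 - a2 ^ 2)) * (r / √(1 - r ^ 2)) ≤ Q - 1 := by
    have h4 : √(T / (1 - a2 ^ 2)) * (r / √(1 - r ^ 2)) =
        √(r ^ 2 * T / ((1 - a2 ^ 2) * (1 - r ^ 2))) := by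
      rw [Real.sqrt_div (by positivity), Real.sqrt_div (by positivity),
        Real.sqrt_mul (by positivity), Real.sqrt_mul hA2.le, Real.sqrt_sq hr0]
      rw [div_mul_div_comm]
      ring
    rw [h4]
    refine Real.sqrt_le_iff.mpr ⟨by linarith, ?_⟩
    rw [div_le_iff₀ (by positivity)]
    exact hQ
  linarith

lemma Bd_iq {x : ℂ} {l : ℝ} (hx : ‖x‖ ≤ l) (hl : l < 1) {a a2 : ℝ} (ha0 : 0 ≤ a)
    (h12 : a ≤ a2) (h2 : a2 < 1) {r Q : ℝ} (hr0 : 0 ≤ r) (hr1 : r < 1) (hQ1 : 1 ≤ Q)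
    (hQ : r ^ 2 * (a2 ^ 2 + l ^ 2 / (1 - l ^ 2)) ≤ (Q - 1) ^ 2 * ((1 - a2 ^ 2) * (1 - r ^ 2))) :
    Bd r (iq a x) Q :=
  ⟨iq_diff (lt_of_le_of_lt hx hl) ha0 (h12.trans h2.le), nr_iq_le hx hl ha0 h12 h2 hr0 hr1 hQ1 hQ⟩

lemma Bd_L {x : ℂ} {l : ℝ} (hx : ‖x‖ ≤ l) (hl : l < 1) {a : ℝ} (ha0 : 0 ≤ a) (ha1 : a ≤ 1)
    {r F : ℝ} (hr0 : 0 ≤ r) (hr1 : r < 1) (hF0 : 0 ≤ F)
    (hF : 1 ≤ F ^ 2 * ((1 - l ^ 2) * (1 - r ^ 2))) : Bd r (LN x (gk a (fun _ => 1))) F :=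
  ⟨LN_diff (lt_of_le_of_lt hx hl) (gk_Sc ha0 ha1 Sc_one),
    nr_LN_le hx hl (gk_Sc ha0 ha1 Sc_one) hr0 hr1 hF0 hF⟩

end WnAux

end Pool.Agent.BNR
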