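import Pool.Agent.Lib.BNR.IntL
import Pool.Agent.Lib.BNR.IntA2

/-!
# The vertex principle for a box

`l ∈ [l1, l2]`, `a ∈ [a1, a2]`, `x = l e`, `c e = (1 - u) e1 + u e2` with `0 ≤ c`, `|e| = 1`,
`|e1|, |e2| ≤ 1`. The value `r nr (XF t0 a x ζ) r` is at most the linear interpolation of the
bounds at the vertices, plus `EL + R1 (EA + kap CP)`.
-/

set_option autoImplicit false

open Complex Metric Set
open Pool.Agent.P187f6b Pool.Agent.P187w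

namespace Pool.Agent.BNR

/-- The constants of a box: `l` is the largest `l`, `R` the largest radius. -/
structure Cst (l R a1 a2 F Fd Q Qd nV dV P Pd KL : ℝ) : Prop where
  hF0 : 0 ≤ F
  hF : 1 ≤ F ^ 2 * ((1 - l ^ 2) * (1 - R ^ 2))
  hFd0 : 0 ≤ Fd
  hFd : R ^ 2 * (1 + R ^ 2) ≤ Fd ^ 2 * ((1 - R ^ 2) ^ 3 * (1 - l ^ 2))
  hQ1 : 1 ≤ Q
  hQ : R ^ 2 * (a2 ^ 2 + l ^ 2 / (1 - l ^ 2)) ≤ (Q - 1) ^ 2 * ((1 - a2 ^ 2) * (1 - R ^ 2))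
  hQd0 : 0 ≤ Qd
  hQd : R ^ 2 * (1 + R ^ 2) * (a2 ^ 2 + l ^ 2 / (1 - l ^ 2)) ≤
    Qd ^ 2 * ((1 - R ^ 2) ^ 3 * (1 - a2 ^ 2))
  hnV : (1 - a1 ^ 2) * R * Q ^ 2 ≤ nV
  hdV : (1 - a1 ^ 2) * R * (Q ^ 2 + 2 * Q * Qd) ≤ dV
  hP : (1 + R) / (1 - R) ≤ P
  hPd : 2 * R / (1 - R) ^ 2 ≤ Pd
  hKL0 : 0 ≤ KL
  hKL : (1 + R ^ 2) - (1 - R ^ 2) ^ 3 ≤ KL ^ 2 * ((1 - R ^ 2) ^ 3 * (1 - l) ^ 2 * (1 - l ^ 2))

/-- The error in the direction of `a`. -/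
noncomputable def EA (t0 l R a1 a2 F Q P : ℝ) : ℝ :=
  (a2 - a1) ^ 2 / 4 * ((1 + (1 + l) * R * F) * ((1 + l) * R) * Q ^ 2 +
    t0 * P * R * (Q ^ 2 + 4 * a2 * ((1 + l) * R) * Q ^ 3 +
      3 * (1 - a1 ^ 2) * ((1 + l) * R) ^ 2 * Q ^ 4))

/-- The coefficient of the error in the angle. -/
noncomputable def CP (t0 l R F nV P : ℝ) : ℝ :=
  l * (R * F ^ 2 + 2 * t0 * P * (R * F * nV)) +
    2 * l ^ 2 * (R ^ 2 * F ^ 3 + 3 * t0 * P * (R ^ 2 * F ^ 2 * nV))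

/-- The error in the direction of `l`. -/
noncomputable def EL (t0 l1 l2 R1 R2 F Fd nV dV P Pd KL : ℝ) : ℝ :=
  R1 * ((l2 - l1) ^ 2 / 4) * (R1 ^ 2 * F ^ 3 + 3 * t0 * P * (R1 ^ 2 * F ^ 2 * nV)) +
    (R1 - R2) * (l2 - l1) / 4 *
      (KL + t0 * R1 * (2 * (2 * P * F * nV) + 2 * (Pd * F * nV + P * Fd * nV + P * F * dV)))

namespace BoxAux

lemma quarter (u : ℝ) : u * (1 - u) ≤ 1 / 4 := by nlinarith [sq_nonneg (u - 1 / 2)]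

/-- The step at fixed `l ≤ l2`, `r ≤ R`: the angle and `a`. -/
lemma corner {l2 R a1 a2 t0 F Fd Q Qd nV dV P Pd KL : ℝ} (hl2 : l2 < 1) (hR1 : R < 1)
    (ha1 : 0 ≤ a1) (ha2 : a2 < 1) (ht : 0 ≤ t0)
    (hc : Cst l2 R a1 a2 F Fd Q Qd nV dV P Pd KL)
    {e1 e2 : ℂ} (he1 : ‖e1‖ ≤ 1) (he2 : ‖e2‖ ≤ 1) {kap m : ℝ} (hk1 : kap ≤ 1)
    (hm0 : 0 ≤ m) (hm1 : m ≤ ‖e1‖) (hm2 : m ≤ ‖e2‖)
    (hkap : (1 - kap) ^ 2 ≤ m ^ 2 - ‖e1 - e2‖ ^ 2 / 4)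
    {e : ℂ} (he : ‖e‖ = 1) {u c : ℝ} (hu0 : 0 ≤ u) (hu1 : u ≤ 1) (hc0 : 0 ≤ c)
    (hce : (c : ℂ) * e = (1 - u) * e1 + u * e2) {a : ℝ} (haa1 : a1 ≤ a) (haa2 : a ≤ a2)
    {l r : ℝ} (hl0 : 0 ≤ l) (hl : l ≤ l2) (hr0 : 0 ≤ r) (hr : r ≤ R)
    {ζ : ℂ} (hζ : ‖ζ‖ = 1) {β : ℝ}
    (h11 : r * nr (XF t0 a1 (l * e1) ζ) r ≤ β) (h12 : r * nr (XF t0 a1 (l * e2) ζ) r ≤ β)
    (h13 : r * nr (XF t0 a2 (l * e1) ζ) r ≤ β) (h14 : r * nr (XF t0 a2 (l * e2) ζ) r ≤ β) :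
    r * nr (XF t0 a (l * e) ζ) r ≤ β +
      R * (EA t0 l2 R a1 a2 F Q P + kap * CP t0 l2 R F nV P) := by
  obtain ⟨hF0, hF, _, _, hQ1, hQ, _, _, hnV, _, hP, _, _, _⟩ := hc
  have hr1 : r < 1 := lt_of_le_of_lt hr hR1
  have hl1 : l < 1 := lt_of_le_of_lt hl hl2
  have hR0 : 0 ≤ R := hr0.trans hr
  have hl20 : 0 ≤ l2 := hl0.trans hl
  have ha20 : 0 ≤ a2 := (ha1.trans haa1).trans haa2
  have ha0 : 0 ≤ a := ha1.trans haa1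
  have hlp : 0 < 1 - l ^ 2 := sub_pos.2 (pow_lt_one₀ hl0 hl1 two_ne_zero)
  have hlp2 : 0 < 1 - l2 ^ 2 := sub_pos.2 (pow_lt_one₀ hl20 hl2 two_ne_zero)
  have hrp : 0 < 1 - r ^ 2 := sub_pos.2 (pow_lt_one₀ hr0 hr1 two_ne_zero)
  have hRp : 0 < 1 - R ^ 2 := sub_pos.2 (pow_lt_one₀ hR0 hR1 two_ne_zero)
  have hap : 0 < 1 - a2 ^ 2 := sub_pos.2 (pow_lt_one₀ ha20 ha2 two_ne_zero)
  have hll : l ^ 2 ≤ l2 ^ 2 := pow_le_pow_left₀ hl0 hl 2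
  have hrr : r ^ 2 ≤ R ^ 2 := pow_le_pow_left₀ hr0 hr 2
  have hQ0 : 0 ≤ Q := by linarith
  have hP0 : 0 ≤ P := le_trans (div_nonneg (by linarith) (by linarith)) hP
  have haap : 0 ≤ 1 - a1 ^ 2 := sub_nonneg.2 (pow_le_one₀ ha1 (by linarith))
  have hnV0 : 0 ≤ nV := le_trans (by positivity) hnV
  -- the constants at the point
  have hF' : 1 ≤ F ^ 2 * ((1 - l ^ 2) * (1 - r ^ 2)) := by
    refine hF.trans (mul_le_mul_of_nonneg_left ?_ (sq_nonneg F))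
    exact mul_le_mul (by linarith) (by linarith) hRp.le hlp.le
  have hQ' : r ^ 2 * (a2 ^ 2 + l ^ 2 / (1 - l ^ 2)) ≤ (Q - 1) ^ 2 * ((1 - a2 ^ 2) * (1 - r ^ 2)) := by
    have h1 : l ^ 2 / (1 - l ^ 2) ≤ l2 ^ 2 / (1 - l2 ^ 2) :=
      div_le_div₀ (by positivity) hll hlp2 (by linarith)
    have h2 : r ^ 2 * (a2 ^ 2 + l ^ 2 / (1 - l ^ 2)) ≤
        R ^ 2 * (a2 ^ 2 + l2 ^ 2 / (1 - l2 ^ 2)) :=
      mul_le_mul hrr (by linarith) (by positivity) (by positivity)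
    refine (h2.trans hQ).trans (mul_le_mul_of_nonneg_left ?_ (sq_nonneg _))
    exact mul_le_mul_of_nonneg_left (by linarith) hap.le
  have hnV' : ∀ b : ℝ, a1 ≤ b → b ≤ a2 → (1 - b ^ 2) * r * Q ^ 2 ≤ nV := by
    intro b hb1 hb2
    refine le_trans ?_ hnV
    have h1 : 1 - b ^ 2 ≤ 1 - a1 ^ 2 := sub_le_sub_left (pow_le_pow_left₀ ha1 hb1 2) 1
    have h2 : 0 ≤ 1 - b ^ 2 := sub_nonneg.2 (pow_le_one₀ (ha1.trans hb1) (by linarith))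
    gcongr
  have hPr : (1 + r) / (1 - r) ≤ P := by
    refine le_trans ?_ hP
    exact div_le_div₀ (by linarith) (by linarith) (by linarith) (by linarith)
  -- the chord
  have hcn : ‖(1 - (u : ℂ)) * e1 + (u : ℂ) * e2‖ = c := by
    rw [← hce, norm_mul, he, mul_one, Complex.norm_real, Real.norm_eq_abs, abs_of_nonneg hc0]
  have hc2 : c ^ 2 = (1 - u) * ‖e1‖ ^ 2 + u * ‖e2‖ ^ 2 - u * (1 - u) * ‖e1 - e2‖ ^ 2 := by
    rw [← hcn, ← Complex.normSq_eq_norm_sq, ← Complex.normSq_eq_norm_sq,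
      ← Complex.normSq_eq_norm_sq, ← Complex.normSq_eq_norm_sq]
    simp only [Complex.normSq_apply, Complex.add_re, Complex.mul_re, Complex.sub_re,
      Complex.one_re, Complex.ofReal_re, Complex.sub_im, Complex.one_im, Complex.ofReal_im,
      Complex.add_im, Complex.mul_im]
    ring
  have hkc : 1 - kap ≤ c := by
    have h1 : (1 - kap) ^ 2 ≤ c ^ 2 := by
      rw [hc2]
      have h2 : m ^ 2 ≤ ‖e1‖ ^ 2 := pow_le_pow_left₀ hm0 hm1 2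
      have h3 : m ^ 2 ≤ ‖e2‖ ^ 2 := pow_le_pow_left₀ hm0 hm2 2
      have h4 : u * (1 - u) ≤ 1 / 4 := quarter u
      have h5 := mul_le_mul_of_nonneg_right h4 (sq_nonneg ‖e1 - e2‖)
      have h6 := mul_le_mul_of_nonneg_left h2 (by linarith : 0 ≤ 1 - u)
      have h7 := mul_le_mul_of_nonneg_left h3 hu0
      linarith
    exact (abs_le_of_sq_le_sq' h1 hc0).2
  have hD : (1 - u) * ‖e1 - e‖ ^ 2 + u * ‖e2 - e‖ ^ 2 ≤ 2 * kap := by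
    have h1 : (1 - u) * ‖e1 - e‖ ^ 2 + u * ‖e2 - e‖ ^ 2 =
        (1 - u) * ‖e1‖ ^ 2 + u * ‖e2‖ ^ 2 - 2 * c + 1 := by
      have hen : Complex.normSq e = 1 := by rw [Complex.normSq_eq_norm_sq, he]; norm_num
      have hre := congrArg Complex.re hce
      have him := congrArg Complex.im hce
      simp only [Complex.add_re, Complex.mul_re, Complex.sub_re,
        Complex.one_re, Complex.ofReal_re, Complex.sub_im, Complex.one_im, Complex.ofReal_im,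
        Complex.add_im, Complex.mul_im, zero_mul, sub_zero, add_zero, sub_self, zero_add] at hre him
      rw [← Complex.normSq_eq_norm_sq, ← Complex.normSq_eq_norm_sq,
        ← Complex.normSq_eq_norm_sq, ← Complex.normSq_eq_norm_sq]
      rw [Complex.normSq_apply] at hen
      simp only [Complex.normSq_apply, Complex.sub_re, Complex.sub_im]
      linear_combination (1 - 2 * c) * hen + 2 * e.re * hre + 2 * e.im * him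
    have h2 : ‖e1‖ ^ 2 ≤ 1 := pow_le_one₀ (norm_nonneg _) he1
    have h3 : ‖e2‖ ^ 2 ≤ 1 := pow_le_one₀ (norm_nonneg _) he2
    have h4 := mul_le_mul_of_nonneg_left h2 (by linarith : 0 ≤ 1 - u)
    have h5 := mul_le_mul_of_nonneg_left h3 hu0
    linarith
  have hc1 : c ≤ 1 := by
    rw [← hcn]
    refine (norm_add_le _ _).trans ?_
    rw [norm_mul, norm_mul]
    have e3 : ‖(1 : ℂ) - u‖ = 1 - u := by
      have : ((1 : ℂ) - u) = ((1 - u : ℝ) : ℂ) := by push_cast; ring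
      rw [this, Complex.norm_real, Real.norm_eq_abs, abs_of_nonneg (by linarith)]
    rw [e3, Complex.norm_real, Real.norm_eq_abs, abs_of_nonneg hu0]
    have h4 := mul_le_mul_of_nonneg_left he1 (by linarith : 0 ≤ 1 - u)
    have h5 := mul_le_mul_of_nonneg_left he2 hu0
    linarith
  have hkap0 : 0 ≤ kap := by linarith
  -- the norms of the points
  have nle : ∀ w : ℂ, ‖w‖ ≤ 1 → ‖(l : ℂ) * w‖ ≤ l := by
    intro w hw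
    rw [norm_mul, Complex.norm_real, Real.norm_eq_abs, abs_of_nonneg hl0]
    exact mul_le_of_le_one_right hl0 hw
  -- the direction of `a`
  have stepA : ∀ w : ℂ, ‖w‖ ≤ 1 → r * nr (XF t0 a1 (l * w) ζ) r ≤ β →
      r * nr (XF t0 a2 (l * w) ζ) r ≤ β →
      r * nr (XF t0 a (l * w) ζ) r ≤ β + R * EA t0 l2 R a1 a2 F Q P := by
    intro w hw g1 g2
    obtain ⟨v, hv0, hv1, hv⟩ : ∃ v : ℝ, 0 ≤ v ∧ v ≤ 1 ∧ a = (1 - v) * a1 + v * a2 := by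
      rcases eq_or_lt_of_le (haa1.trans haa2) with h12 | h12
      · exact ⟨0, le_refl _, zero_le_one, by linarith⟩
      · refine ⟨(a - a1) / (a2 - a1), div_nonneg (by linarith) (by linarith),
          (div_le_one (by linarith)).2 (by linarith), ?_⟩
        have : a2 - a1 ≠ 0 := by linarith
        field_simp
        ring
    have h1 := IntA2 (nle w hw) hl1 ha1 (haa1.trans haa2) ha2 hv0 hv1 hv hζ ht hr0 hr1 hF0 hF'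
      hQ1 hQ' hPr
    have h2 : (a2 - a1) ^ 2 / 4 * ((1 + (1 + l) * r * F) * ((1 + l) * r) * Q ^ 2 +
        t0 * P * r * (Q ^ 2 + 4 * a2 * ((1 + l) * r) * Q ^ 3 +
          3 * (1 - a1 ^ 2) * ((1 + l) * r) ^ 2 * Q ^ 4)) ≤ EA t0 l2 R a1 a2 F Q P := by
      unfold EA
      gcongr
    have hE0 : 0 ≤ EA t0 l2 R a1 a2 F Q P := by
      unfold EA
      positivity
    have h3 := mul_le_mul_of_nonneg_left (h1.trans (add_le_add_right h2 _)) hr0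
    have h4 := mul_le_mul_of_nonneg_left g1 (by linarith : 0 ≤ 1 - v)
    have h5 := mul_le_mul_of_nonneg_left g2 hv0
    have h6 := mul_le_mul_of_nonneg_right hr hE0
    linarith
  have g1 := stepA e1 he1 h11 h13
  have g2 := stepA e2 he2 h12 h14
  -- the angle
  have hη : ‖(l : ℂ) * e - ((1 - u) * (l * e1) + u * (l * e2))‖ ≤ l * kap := by
    have e4 : (l : ℂ) * e - ((1 - u) * (l * e1) + u * (l * e2)) = ((l * (1 - c) : ℝ) : ℂ) * e := by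
      push_cast
      linear_combination (l : ℂ) * hce
    rw [e4, norm_mul, he, mul_one, Complex.norm_real, Real.norm_eq_abs,
      abs_of_nonneg (mul_nonneg hl0 (by linarith))]
    exact mul_le_mul_of_nonneg_left (by linarith) hl0
  have hD2 : (1 - u) * ‖(l : ℂ) * e1 - l * e‖ ^ 2 + u * ‖(l : ℂ) * e2 - l * e‖ ^ 2 ≤
      l ^ 2 * (2 * kap) := by
    rw [← mul_sub, ← mul_sub, norm_mul, norm_mul, Complex.norm_real, Real.norm_eq_abs,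
      abs_of_nonneg hl0, mul_pow, mul_pow]
    have := mul_le_mul_of_nonneg_left hD (sq_nonneg l)
    linarith
  have h1 := intX (nle e he.le) (nle e1 he1) (nle e2 he2) hl1 ha0 haa2 ha2 hu0 hu1 hη hD2 ht hζ
    hr0 hr1 hF0 hF' hQ1 hQ' (hnV' a haa1 haa2) hPr
  have h2 : l * kap * (r * F ^ 2 + 2 * t0 * P * (r * F * nV)) +
      l ^ 2 * (2 * kap) * (r ^ 2 * F ^ 3 + 3 * t0 * P * (r ^ 2 * F ^ 2 * nV)) ≤
      kap * CP t0 l2 R F nV P := by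
    have h3 : l * kap * (r * F ^ 2 + 2 * t0 * P * (r * F * nV)) +
        l ^ 2 * (2 * kap) * (r ^ 2 * F ^ 3 + 3 * t0 * P * (r ^ 2 * F ^ 2 * nV)) ≤
        l2 * kap * (R * F ^ 2 + 2 * t0 * P * (R * F * nV)) +
        l2 ^ 2 * (2 * kap) * (R ^ 2 * F ^ 3 + 3 * t0 * P * (R ^ 2 * F ^ 2 * nV)) := by
      gcongr
    refine h3.trans (le_of_eq ?_)
    unfold CP
    ring
  have hC0 : 0 ≤ CP t0 l2 R F nV P := by
    unfold CP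
    positivity
  have h3 := mul_le_mul_of_nonneg_left (h1.trans (add_le_add_right h2 _)) hr0
  have h4 := mul_le_mul_of_nonneg_left g1 (by linarith : 0 ≤ 1 - u)
  have h5 := mul_le_mul_of_nonneg_left g2 hu0
  have h6 := mul_le_mul_of_nonneg_right hr (mul_nonneg hkap0 hC0)
  linarith

end BoxAux

open BoxAux

/-- The vertex principle. -/
theorem box {l1 l2 R1 R2 a1 a2 t0 F Fd Q Qd nV dV P Pd KL : ℝ} (hl1 : 0 ≤ l1) (hl12 : l1 ≤ l2)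
    (hl2 : l2 < 1) (hR2 : 0 ≤ R2) (hR12 : R2 ≤ R1) (hR1 : R1 < 1) (ha1 : 0 ≤ a1) (ha12 : a1 ≤ a2)
    (ha2 : a2 < 1) (ht : 0 ≤ t0) (hc : Cst l2 R1 a1 a2 F Fd Q Qd nV dV P Pd KL)
    {e1 e2 : ℂ} (he1 : ‖e1‖ ≤ 1) (he2 : ‖e2‖ ≤ 1) {kap m : ℝ} (hk1 : kap ≤ 1)
    (hm0 : 0 ≤ m) (hm1 : m ≤ ‖e1‖) (hm2 : m ≤ ‖e2‖)
    (hkap : (1 - kap) ^ 2 ≤ m ^ 2 - ‖e1 - e2‖ ^ 2 / 4)
    {e : ℂ} (he : ‖e‖ = 1) {u c : ℝ} (hu0 : 0 ≤ u) (hu1 : u ≤ 1) (hc0 : 0 ≤ c)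
    (hce : (c : ℂ) * e = (1 - u) * e1 + u * e2) {a : ℝ} (haa1 : a1 ≤ a) (haa2 : a ≤ a2)
    {τ : ℝ} (hτ0 : 0 ≤ τ) (hτ1 : τ ≤ 1) {r : ℝ} (hr0 : 0 ≤ r) (hr : r ≤ (1 - τ) * R1 + τ * R2)
    {ζ : ℂ} (hζ : ‖ζ‖ = 1) {β1 β2 : ℝ}
    (h11 : R1 * nr (XF t0 a1 (l1 * e1) ζ) R1 ≤ β1) (h12 : R1 * nr (XF t0 a1 (l1 * e2) ζ) R1 ≤ β1)
    (h13 : R1 * nr (XF t0 a2 (l1 * e1) ζ) R1 ≤ β1) (h14 : R1 * nr (XF t0 a2 (l1 * e2) ζ) R1 ≤ β1)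
    (h21 : R2 * nr (XF t0 a1 (l2 * e1) ζ) R2 ≤ β2) (h22 : R2 * nr (XF t0 a1 (l2 * e2) ζ) R2 ≤ β2)
    (h23 : R2 * nr (XF t0 a2 (l2 * e1) ζ) R2 ≤ β2)
    (h24 : R2 * nr (XF t0 a2 (l2 * e2) ζ) R2 ≤ β2) :
    r * nr (XF t0 a ((((1 - τ) * l1 + τ * l2 : ℝ) : ℂ) * e) ζ) r ≤
      (1 - τ) * β1 + τ * β2 + EL t0 l1 l2 R1 R2 F Fd nV dV P Pd KL +
        R1 * (EA t0 l2 R1 a1 a2 F Q P + kap * CP t0 l2 R1 F nV P) := by
  have g0 := intL hl1 hl12 hl2 hR2 hR12 hR1 ha1 haa1 haa2 ha2 hτ0 hτ1 he.le hr0 hr hζ ht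
    hc.hF0 hc.hF hc.hFd0 hc.hFd hc.hQ1 hc.hQ hc.hQd0 hc.hQd hc.hnV hc.hdV hc.hP hc.hPd hc.hKL0
    hc.hKL
  have g1 := corner hl2 hR1 ha1 ha2 ht hc he1 he2 hk1 hm0 hm1 hm2 hkap he hu0 hu1 hc0 hce haa1 haa2
    hl1 hl12 (hR2.trans hR12) le_rfl hζ h11 h12 h13 h14
  have g2 := corner hl2 hR1 ha1 ha2 ht hc he1 he2 hk1 hm0 hm1 hm2 hkap he hu0 hu1 hc0 hce haa1 haa2
    (hl1.trans hl12) le_rfl hR2 hR12 hζ h21 h22 h23 h24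
  have g3 := mul_le_mul_of_nonneg_left g1 (sub_nonneg.2 hτ1)
  have g4 := mul_le_mul_of_nonneg_left g2 hτ0
  unfold EL
  linarith

end Pool.Agent.BNR
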