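import Mathlib
import Pool.Agent.Lib.P187f6b.Herg

/-!
# Functions of positive real part: a convex function of the coefficients is largest at an
extreme point `(1 + u z) / (1 - u z)`
-/

set_option autoImplicit false

open Complex Metric Filter Topology Set MeasureTheory
open scoped Real ComplexConjugate
open Pool.Agent.P187f6b

namespace Pool.Agent.BNR

/-- Hull lemma on a circle of radius `s < 1`. -/
lemma hull_s {P : ℂ → ℂ} (hP : DifferentiableOn ℂ P (ball 0 1))
    (hre : ∀ z : ℂ, ‖z‖ < 1 → 0 ≤ (P z).re) (hP0 : P 0 = 1)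
    {N M : ℕ} (A : ℕ → ℂ) (W : ℕ → ℕ → ℂ) (ρ : ℕ → ℝ) (hρ : ∀ n, 0 ≤ ρ n) {T : ℝ}
    (hT : ∀ u : ℂ, ‖u‖ = 1 → ∑ n ∈ Finset.range N,
      ‖A n - ∑ k ∈ Finset.range M, W n k * hc k u‖ * ρ n ≤ T)
    {s : ℝ} (hs0 : 0 < s) (hs1 : s < 1) :
    ∑ n ∈ Finset.range N,
      ‖A n - ∑ k ∈ Finset.range M, W n k * (tc P k * s ^ k)‖ * ρ n ≤ T := by
  have him : (P 0).im = 0 := by rw [hP0]; simp
  have hcP := continuous_circ hP hs0.le hs1
  set w : ℝ → ℝ := fun θ => (P (s * cexp (θ * I))).re with hw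
  have hwc : Continuous w := Complex.continuous_re.comp hcP
  have hw0 : ∀ θ, 0 ≤ w θ := fun θ => hre _ (by rw [norm_circ hs0.le]; exact hs1)
  have hwi : ∫ θ in (0 : ℝ)..2 * π, w θ = 2 * π := by
    have h := herglotz_coeff hP him hs0 hs1 0
    simp only [hc, if_true, mul_one, pow_zero, tc_zero, hP0] at h
    rw [intervalIntegral.integral_ofReal] at h
    exact_mod_cast h
  set X : ℕ → ℝ → ℂ := fun n θ =>
    A n - ∑ k ∈ Finset.range M, W n k * hc k (cexp (-(θ * I))) with hX
  have hXc : ∀ n, Continuous (X n) := by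
    intro n
    refine continuous_const.sub (continuous_finsetSum _ (fun k _ => ?_))
    exact continuous_const.mul (hc_cont k)
  have hn : ∀ n, 2 * π *
      ‖A n - ∑ k ∈ Finset.range M, W n k * (tc P k * s ^ k)‖ ≤
      ∫ θ in (0 : ℝ)..2 * π, w θ * ‖X n θ‖ := by
    intro n
    have h2 : ∫ θ in (0 : ℝ)..2 * π, (w θ : ℂ) * X n θ =
        2 * π * (A n - ∑ k ∈ Finset.range M, W n k * (tc P k * s ^ k)) := by
      have e1 : ∀ θ : ℝ, (w θ : ℂ) * X n θ =
          (w θ : ℂ) * A n - ∑ k ∈ Finset.range M,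
            W n k * (((P (s * cexp (θ * I))).re : ℂ) * hc k (cexp (-(θ * I)))) := by
        intro θ
        rw [hX, hw]
        simp only
        rw [mul_sub, Finset.mul_sum]
        congr 1
        exact Finset.sum_congr rfl (fun k _ => by ring)
      simp_rw [e1]
      have i1 : IntervalIntegrable (fun θ => (w θ : ℂ) * A n) volume 0 (2 * π) :=
        ((Complex.continuous_ofReal.comp hwc).mul continuous_const).intervalIntegrable _ _
      have i3 : ∀ k ∈ Finset.range M, IntervalIntegrable (fun θ : ℝ => W n k *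
          (((P (s * cexp (θ * I))).re : ℂ) * hc k (cexp (-(θ * I))))) volume 0 (2 * π) := fun k _ =>
        (continuous_const.mul
          ((Complex.continuous_ofReal.comp hwc).mul (hc_cont k))).intervalIntegrable _ _
      have i2 : IntervalIntegrable (fun θ : ℝ => ∑ k ∈ Finset.range M, W n k *
          (((P (s * cexp (θ * I))).re : ℂ) * hc k (cexp (-(θ * I))))) volume 0 (2 * π) := by
        refine Continuous.intervalIntegrable (continuous_finsetSum _ (fun k _ => ?_)) _ _
        exact continuous_const.mul ((Complex.continuous_ofReal.comp hwc).mul (hc_cont k))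
      rw [intervalIntegral.integral_sub i1 i2, intervalIntegral.integral_mul_const,
        intervalIntegral.integral_finsetSum i3, intervalIntegral.integral_ofReal, hwi]
      simp_rw [intervalIntegral.integral_const_mul]
      simp_rw [herglotz_coeff hP him hs0 hs1]
      push_cast
      rw [mul_sub, Finset.mul_sum]
      congr 1
      exact Finset.sum_congr rfl (fun k _ => by ring)
    have h4 : ‖∫ θ in (0 : ℝ)..2 * π, (w θ : ℂ) * X n θ‖ ≤
        ∫ θ in (0 : ℝ)..2 * π, w θ * ‖X n θ‖ := by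
      refine (intervalIntegral.norm_integral_le_integral_norm (by positivity)).trans (le_of_eq ?_)
      congr 1
      funext θ
      rw [norm_mul, Complex.norm_real, Real.norm_eq_abs, abs_of_nonneg (hw0 θ)]
    rw [h2, norm_mul] at h4
    have e : ‖(2 * π : ℂ)‖ = 2 * π := by
      have : (2 * π : ℂ) = ((2 * π : ℝ) : ℂ) := by push_cast; ring
      rw [this, Complex.norm_real, Real.norm_eq_abs, abs_of_nonneg (by positivity)]
    rwa [e] at h4
  have hsum : 2 * π * ∑ n ∈ Finset.range N,
      ‖A n - ∑ k ∈ Finset.range M, W n k * (tc P k * s ^ k)‖ * ρ n ≤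
      ∫ θ in (0 : ℝ)..2 * π, w θ * ∑ n ∈ Finset.range N, ‖X n θ‖ * ρ n := by
    have e1 : ∀ θ : ℝ, w θ * ∑ n ∈ Finset.range N, ‖X n θ‖ * ρ n =
        ∑ n ∈ Finset.range N, (w θ * ‖X n θ‖) * ρ n := by
      intro θ
      rw [Finset.mul_sum]
      refine Finset.sum_congr rfl (fun n _ => by ring)
    simp_rw [e1]
    have i3 : ∀ n ∈ Finset.range N, IntervalIntegrable
        (fun θ : ℝ => (w θ * ‖X n θ‖) * ρ n) volume 0 (2 * π) := fun n _ =>
      ((hwc.mul (hXc n).norm).mul continuous_const).intervalIntegrable _ _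
    rw [intervalIntegral.integral_finsetSum i3, Finset.mul_sum]
    refine Finset.sum_le_sum (fun n _ => ?_)
    rw [intervalIntegral.integral_mul_const]
    have := mul_le_mul_of_nonneg_right (hn n) (hρ n)
    linarith
  have hint : (∫ θ in (0 : ℝ)..2 * π, w θ * ∑ n ∈ Finset.range N, ‖X n θ‖ * ρ n) ≤
      2 * π * T := by
    have e : 2 * π * T = (∫ θ in (0 : ℝ)..2 * π, w θ) * T := by rw [hwi]
    rw [e, ← intervalIntegral.integral_mul_const]
    refine intervalIntegral.integral_mono_on (by positivity) ?_ ?_ ?_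
    · refine Continuous.intervalIntegrable ?_ _ _
      refine hwc.mul (continuous_finsetSum _ (fun n _ => ((hXc n).norm.mul continuous_const)))
    · exact (hwc.mul continuous_const).intervalIntegrable _ _
    · intro θ _
      exact mul_le_mul_of_nonneg_left (hT _ (norm_circ_neg θ)) (hw0 θ)
  exact le_of_mul_le_mul_left (hsum.trans hint) (by positivity)

/-- Hull lemma. -/
theorem hull {P : ℂ → ℂ} (hP : DifferentiableOn ℂ P (ball 0 1))
    (hre : ∀ z : ℂ, ‖z‖ < 1 → 0 ≤ (P z).re) (hP0 : P 0 = 1)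
    {N M : ℕ} (A : ℕ → ℂ) (W : ℕ → ℕ → ℂ) (ρ : ℕ → ℝ) (hρ : ∀ n, 0 ≤ ρ n) {T : ℝ}
    (hT : ∀ u : ℂ, ‖u‖ = 1 → ∑ n ∈ Finset.range N,
      ‖A n - ∑ k ∈ Finset.range M, W n k * hc k u‖ * ρ n ≤ T) :
    ∑ n ∈ Finset.range N, ‖A n - ∑ k ∈ Finset.range M, W n k * tc P k‖ * ρ n ≤ T := by
  have hcont : Continuous (fun s : ℝ => ∑ n ∈ Finset.range N,
      ‖A n - ∑ k ∈ Finset.range M, W n k * (tc P k * (s : ℂ) ^ k)‖ * ρ n) := by
    refine continuous_finsetSum _ (fun n _ => ?_)
    refine Continuous.mul (Continuous.norm (continuous_const.sub ?_)) continuous_const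
    refine continuous_finsetSum _ (fun k _ => ?_)
    exact continuous_const.mul (continuous_const.mul (Complex.continuous_ofReal.pow k))
  have hlim := (hcont.tendsto 1).mono_left (nhdsWithin_le_nhds (s := Iio (1 : ℝ)))
  simp only [Complex.ofReal_one, one_pow, mul_one] at hlim
  refine le_of_tendsto hlim ?_
  have : Ioo (0 : ℝ) 1 ∈ 𝓝[<] (1 : ℝ) := Ioo_mem_nhdsLT (by norm_num)
  filter_upwards [this] with s hs using hull_s hP hre hP0 A W ρ hρ hT hs.1 hs.2

end Pool.Agent.BNR
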