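import Pool.Agent.Lib.BNR.IntX

/-!
# Interpolation in `l` and the radius together

`x = l e`, `l = (1 - u) l1 + u l2`, radius `(1 - u) R1 + u R2`, `R2 ≤ R1`. At a fixed radius the
function is interpolated in `x` (`intX`); at a fixed point the value `r nr f r` is convex in `r`;
the mixed term is `∑ (|X2_n| - |X1_n|) (R1 ^ (n + 1) - R2 ^ (n + 1))`.
-/

set_option autoImplicit false

open Complex Metric Set
open Pool.Agent.P187f6b Pool.Agent.P187w Pool.Agent.P187o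

namespace Pool.Agent.BNR

namespace IntLAux

lemma sqp {a : ℝ} (h0 : 0 ≤ a) (h1 : a < 1) : 0 < 1 - a ^ 2 := by nlinarith

lemma sqm {a b : ℝ} (h0 : 0 ≤ a) (h1 : a ≤ b) : 1 - b ^ 2 ≤ 1 - a ^ 2 := by nlinarith

lemma sqm' {a b : ℝ} (h0 : 0 ≤ a) (h1 : a ≤ b) : a ^ 2 ≤ b ^ 2 := by nlinarith

lemma cvlo {u a b : ℝ} (h0 : 0 ≤ u) (hab : a ≤ b) : a ≤ (1 - u) * a + u * b := by nlinarith

lemma cvhi {u a b : ℝ} (h1 : u ≤ 1) (hab : a ≤ b) : (1 - u) * a + u * b ≤ b := by nlinarith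

lemma cvhi' {u a b : ℝ} (h0 : 0 ≤ u) (hab : b ≤ a) : (1 - u) * a + u * b ≤ a := by nlinarith

lemma quarter (u d : ℝ) : (1 - u) * (-(u * d)) ^ 2 + u * ((1 - u) * d) ^ 2 ≤ d ^ 2 / 4 := by
  nlinarith [sq_nonneg ((1 - 2 * u) * d)]

lemma geo2 (y : ℝ) (N : ℕ) : (1 - y) ^ 3 * ∑ k ∈ Finset.range N, ((k : ℝ) + 1) ^ 2 * y ^ k =
    1 + y - y ^ N * ((N * (1 - y) + 1) ^ 2 + y) := by
  induction N with
  | zero => simp
  | succ N ih => rw [Finset.sum_range_succ, mul_add, ih]; push_cast; ring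

lemma geo2_le {y : ℝ} (h0 : 0 ≤ y) (N : ℕ) :
    (1 - y) ^ 3 * ∑ k ∈ Finset.range N, ((k : ℝ) + 1) ^ 2 * y ^ k ≤ 1 + y := by
  rw [geo2]
  have : 0 ≤ y ^ N * ((N * (1 - y) + 1) ^ 2 + y) := by positivity
  linarith

/-- Cauchy-Schwarz with the weights `n + 1`. -/
lemma csw {b : ℕ → ℝ} {S : ℝ} (hS : ∀ N : ℕ, ∑ n ∈ Finset.range N, b n ^ 2 ≤ S)
    {r D : ℝ} (h1 : r < 1) (h0 : 0 ≤ r) (hD0 : 0 ≤ D)
    (hD : S * (r ^ 2 * (1 + r ^ 2)) ≤ D ^ 2 * (1 - r ^ 2) ^ 3) (N : ℕ) :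
    ∑ n ∈ Finset.range N, ((n : ℝ) + 1) * b n * r ^ (n + 1) ≤ D := by
  have hy : 0 < 1 - r ^ 2 := sqp h0 h1
  have hS0 : 0 ≤ S := by simpa using hS 0
  have h2 := Finset.sum_mul_sq_le_sq_mul_sq (Finset.range N) b
    (fun n => ((n : ℝ) + 1) * r ^ (n + 1))
  have h3 : ∑ n ∈ Finset.range N, (((n : ℝ) + 1) * r ^ (n + 1)) ^ 2 =
      r ^ 2 * ∑ k ∈ Finset.range N, ((k : ℝ) + 1) ^ 2 * (r ^ 2) ^ k := by
    rw [Finset.mul_sum]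
    refine Finset.sum_congr rfl (fun n _ => ?_)
    rw [mul_pow, ← pow_mul, ← pow_mul, pow_succ (r), ]
    ring
  have h4 := geo2_le (y := r ^ 2) (by positivity) N
  rw [h3] at h2
  set G : ℝ := ∑ k ∈ Finset.range N, ((k : ℝ) + 1) ^ 2 * (r ^ 2) ^ k with hG
  have hG0 : 0 ≤ G := Finset.sum_nonneg (fun _ _ => by positivity)
  set A : ℝ := ∑ n ∈ Finset.range N, b n * (((n : ℝ) + 1) * r ^ (n + 1)) with hA
  have e : ∑ n ∈ Finset.range N, ((n : ℝ) + 1) * b n * r ^ (n + 1) = A :=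
    Finset.sum_congr rfl (fun n _ => by ring)
  rw [e]
  have h5 : A ^ 2 * (1 - r ^ 2) ^ 3 ≤ D ^ 2 * (1 - r ^ 2) ^ 3 := by
    have h6 : (∑ n ∈ Finset.range N, b n ^ 2) * (r ^ 2 * G) ≤ S * (r ^ 2 * G) :=
      mul_le_mul_of_nonneg_right (hS N) (by positivity)
    have h7 : A ^ 2 * (1 - r ^ 2) ^ 3 ≤ S * (r ^ 2 * G) * (1 - r ^ 2) ^ 3 :=
      mul_le_mul_of_nonneg_right (h2.trans h6) (by positivity)
    have h8 : S * r ^ 2 * ((1 - r ^ 2) ^ 3 * G) ≤ S * r ^ 2 * (1 + r ^ 2) :=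
      mul_le_mul_of_nonneg_left h4 (by positivity)
    linarith
  have h9 : A ^ 2 ≤ D ^ 2 := le_of_mul_le_mul_right h5 (by positivity)
  exact (abs_le_of_sq_le_sq' h9 hD0).2

lemma dn_le_of_sq {f : ℂ → ℂ} {S : ℝ}
    (hS : ∀ N : ℕ, ∑ n ∈ Finset.range N, ‖tc f (n + 1)‖ ^ 2 ≤ S)
    {r D : ℝ} (h0 : 0 ≤ r) (h1 : r < 1) (hD0 : 0 ≤ D)
    (hD : S * (r ^ 2 * (1 + r ^ 2)) ≤ D ^ 2 * (1 - r ^ 2) ^ 3) : dn f r ≤ D := by
  unfold dn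
  refine Real.tsum_le_of_sum_range_le (fun n => by positivity) (fun N => ?_)
  cases N with
  | zero => simpa using hD0
  | succ N =>
    rw [Finset.sum_range_succ']
    have h := csw (b := fun n => ‖tc f (n + 1)‖) hS h1 h0 hD0 hD N
    simp only [Nat.cast_zero, zero_mul, add_zero]
    push_cast
    exact h

/-- `∑ (n + 1) |(z g)_n| r ^ n` by Cauchy-Schwarz. -/
lemma wz_le {g : ℂ → ℂ} (hg : DifferentiableOn ℂ g (ball 0 1)) {S : ℝ}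
    (hS : ∀ N : ℕ, ∑ n ∈ Finset.range N, ‖tc g n‖ ^ 2 ≤ S)
    {r K : ℝ} (h0 : 0 ≤ r) (h1 : r < 1) (hK0 : 0 ≤ K)
    (hK : S * ((1 + r ^ 2) - (1 - r ^ 2) ^ 3) ≤ K ^ 2 * (1 - r ^ 2) ^ 3) :
    nr (fun z => z * g z) r + dn (fun z => z * g z) r ≤ K := by
  have hy : 0 < 1 - r ^ 2 := sqp h0 h1
  have hS0 : 0 ≤ S := by simpa using hS 0
  have hzg : DifferentiableOn ℂ (fun z => z * g z) (ball 0 1) := differentiableOn_id.mul hg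
  have t0 : tc (fun z => z * g z) 0 = 0 := by rw [tc_zero]; simp
  have t1 : ∀ n, tc (fun z => z * g z) (n + 1) = tc g n := by
    intro n
    have := tc_shift (f := fun z => z * g z) (L := g) (c := 0) (k := 1) hg
      (fun z _ => by ring) n
    rw [this, one_mul]
  unfold nr dn
  rw [← (summable_nr hzg h0 h1).tsum_add (summable_dn hzg h0 h1)]
  refine Real.tsum_le_of_sum_range_le (fun n => by positivity) (fun N => ?_)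
  cases N with
  | zero => simpa using hK0
  | succ N =>
    rw [Finset.sum_range_succ', t0]
    simp only [t1, norm_zero, zero_mul, mul_zero, add_zero]
    have h2 := Finset.sum_mul_sq_le_sq_mul_sq (Finset.range N) (fun n => ‖tc g n‖)
      (fun n => ((n : ℝ) + 2) * r ^ (n + 1))
    have h3 : 1 + ∑ n ∈ Finset.range N, (((n : ℝ) + 2) * r ^ (n + 1)) ^ 2 =
        ∑ k ∈ Finset.range (N + 1), ((k : ℝ) + 1) ^ 2 * (r ^ 2) ^ k := by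
      rw [Finset.sum_range_succ' (fun k : ℕ => ((k : ℝ) + 1) ^ 2 * (r ^ 2) ^ k) N]
      simp only [Nat.cast_zero, zero_add, one_pow, pow_zero, mul_one]
      rw [add_comm]
      congr 1
      refine Finset.sum_congr rfl (fun n _ => ?_)
      push_cast
      rw [mul_pow, ← pow_mul, ← pow_mul]
      ring
    have h4 := geo2_le (y := r ^ 2) (by positivity) (N + 1)
    rw [← h3] at h4
    set G : ℝ := ∑ n ∈ Finset.range N, (((n : ℝ) + 2) * r ^ (n + 1)) ^ 2 with hG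
    have hG0 : 0 ≤ G := Finset.sum_nonneg (fun _ _ => by positivity)
    set A : ℝ := ∑ n ∈ Finset.range N, ‖tc g n‖ * (((n : ℝ) + 2) * r ^ (n + 1)) with hA
    have e : ∑ n ∈ Finset.range N, (‖tc g n‖ * r ^ (n + 1) +
        ((n + 1 : ℕ) : ℝ) * ‖tc g n‖ * r ^ (n + 1)) = A :=
      Finset.sum_congr rfl (fun n _ => by push_cast; ring)
    rw [e]
    have h5 : A ^ 2 * (1 - r ^ 2) ^ 3 ≤ K ^ 2 * (1 - r ^ 2) ^ 3 := by
      have h6 : (∑ n ∈ Finset.range N, ‖tc g n‖ ^ 2) * G ≤ S * G :=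
        mul_le_mul_of_nonneg_right (hS N) hG0
      have h7 : A ^ 2 * (1 - r ^ 2) ^ 3 ≤ S * G * (1 - r ^ 2) ^ 3 :=
        mul_le_mul_of_nonneg_right (h2.trans h6) (by positivity)
      have h8 : S * ((1 - r ^ 2) ^ 3 * (1 + G)) ≤ S * (1 + r ^ 2) :=
        mul_le_mul_of_nonneg_left h4 hS0
      linarith
    have h9 : A ^ 2 ≤ K ^ 2 := le_of_mul_le_mul_right h5 (by positivity)
    exact (abs_le_of_sq_le_sq' h9 hK0).2

lemma dn_congr {f g : ℂ → ℂ} (hg : DifferentiableOn ℂ g (ball 0 1))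
    (h : ∀ z : ℂ, ‖z‖ < 1 → f z = g z) (r : ℝ) : dn f r = dn g r := by
  unfold dn
  exact tsum_congr fun n => by rw [tc_congr hg h n]

/-- `r nr f r` is convex in `r`. -/
lemma conv {f : ℂ → ℂ} (hf : DifferentiableOn ℂ f (ball 0 1)) {R1 R2 u : ℝ} (hR2 : 0 ≤ R2)
    (hR12 : R2 ≤ R1) (hR1 : R1 < 1) (hu0 : 0 ≤ u) (hu1 : u ≤ 1) :
    ((1 - u) * R1 + u * R2) * nr f ((1 - u) * R1 + u * R2) ≤
      (1 - u) * (R1 * nr f R1) + u * (R2 * nr f R2) := by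
  have hR0 : 0 ≤ R1 := hR2.trans hR12
  set s : ℝ := (1 - u) * R1 + u * R2 with hs
  have hs0 : 0 ≤ s := by rw [hs]; have : 0 ≤ 1 - u := by linarith
                         positivity
  have hs1 : s < 1 := lt_of_le_of_lt (cvhi' hu0 hR12) hR1
  unfold nr
  rw [← tsum_mul_left, ← tsum_mul_left, ← tsum_mul_left, ← tsum_mul_left, ← tsum_mul_left]
  have S0 := (summable_nr hf hs0 hs1).mul_left s
  have S1 := ((summable_nr hf hR0 hR1).mul_left R1).mul_left (1 - u)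
  have S2 := ((summable_nr hf hR2 (lt_of_le_of_lt hR12 hR1)).mul_left R2).mul_left u
  rw [← S1.tsum_add S2]
  refine S0.tsum_le_tsum (fun n => ?_) (S1.add S2)
  have hc := (convexOn_pow (𝕜 := ℝ) (n + 1)).2 (Set.mem_Ici.2 hR0) (Set.mem_Ici.2 hR2)
    (by linarith : (0 : ℝ) ≤ 1 - u) hu0 (by ring)
  simp only [smul_eq_mul] at hc
  rw [← hs] at hc
  have := mul_le_mul_of_nonneg_left hc (norm_nonneg (tc f n))
  calc s * (‖tc f n‖ * s ^ n) = ‖tc f n‖ * s ^ (n + 1) := by ring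
    _ ≤ _ := this
    _ = _ := by ring

lemma pow_diff {R1 R2 : ℝ} (hR2 : 0 ≤ R2) (hR12 : R2 ≤ R1) (n : ℕ) :
    R1 ^ (n + 1) - R2 ^ (n + 1) ≤ ((n : ℝ) + 1) * R1 ^ n * (R1 - R2) := by
  induction n with
  | zero => simp
  | succ n ih =>
    have h1 := mul_le_mul_of_nonneg_left ih (hR2.trans hR12)
    have h2 : R2 ^ (n + 1) ≤ R1 ^ (n + 1) := pow_le_pow_left₀ hR2 hR12 _
    have h3 := mul_le_mul_of_nonneg_right h2 (sub_nonneg.2 hR12)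
    push_cast
    calc R1 ^ (n + 1 + 1) - R2 ^ (n + 1 + 1) = R1 * (R1 ^ (n + 1) - R2 ^ (n + 1)) +
          R2 ^ (n + 1) * (R1 - R2) := by ring
      _ ≤ R1 * (((n : ℝ) + 1) * R1 ^ n * (R1 - R2)) + R1 ^ (n + 1) * (R1 - R2) := by linarith
      _ = _ := by ring

/-- The mixed term. -/
lemma mixed {f1 f2 : ℂ → ℂ} (h1 : DifferentiableOn ℂ f1 (ball 0 1))
    (h2 : DifferentiableOn ℂ f2 (ball 0 1)) {R1 R2 : ℝ} (hR2 : 0 ≤ R2)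
    (hR12 : R2 ≤ R1) (hR1 : R1 < 1) :
    (R1 * nr f2 R1 + R2 * nr f1 R2) - (R1 * nr f1 R1 + R2 * nr f2 R2) ≤
      (R1 - R2) * (nr (fun z => f2 z - f1 z) R1 + dn (fun z => f2 z - f1 z) R1) := by
  have hR0 : 0 ≤ R1 := hR2.trans hR12
  have hR21 : R2 < 1 := lt_of_le_of_lt hR12 hR1
  have hd : DifferentiableOn ℂ (fun z => f2 z - f1 z) (ball 0 1) := h2.sub h1
  have A1 := ((summable_nr h2 hR0 hR1).hasSum.mul_left R1).add
    ((summable_nr h1 hR2 hR21).hasSum.mul_left R2)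
  have A2 := ((summable_nr h1 hR0 hR1).hasSum.mul_left R1).add
    ((summable_nr h2 hR2 hR21).hasSum.mul_left R2)
  have A3 := ((summable_nr hd hR0 hR1).hasSum.add (summable_dn hd hR0 hR1).hasSum).mul_left
    (R1 - R2)
  refine hasSum_le (fun n => ?_) (A1.sub A2) A3
  have e : tc (fun z => f2 z - f1 z) n = tc f2 n - tc f1 n := tc_sub h2 h1 n
  have h3 : ‖tc f2 n‖ - ‖tc f1 n‖ ≤ ‖tc f2 n - tc f1 n‖ := norm_sub_norm_le _ _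
  have h4 := pow_diff hR2 hR12 n
  have h5 : 0 ≤ R1 ^ (n + 1) - R2 ^ (n + 1) := sub_nonneg.2 (pow_le_pow_left₀ hR2 hR12 _)
  rw [e]
  calc R1 * (‖tc f2 n‖ * R1 ^ n) + R2 * (‖tc f1 n‖ * R2 ^ n) -
        (R1 * (‖tc f1 n‖ * R1 ^ n) + R2 * (‖tc f2 n‖ * R2 ^ n))
      = (‖tc f2 n‖ - ‖tc f1 n‖) * (R1 ^ (n + 1) - R2 ^ (n + 1)) := by ring
    _ ≤ ‖tc f2 n - tc f1 n‖ * (R1 ^ (n + 1) - R2 ^ (n + 1)) :=
        mul_le_mul_of_nonneg_right h3 h5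
    _ ≤ ‖tc f2 n - tc f1 n‖ * (((n : ℝ) + 1) * R1 ^ n * (R1 - R2)) :=
        mul_le_mul_of_nonneg_left h4 (norm_nonneg _)
    _ = _ := by ring

/-- The bound for the divided difference in `l`. -/
lemma dd_le {l : ℝ} (hl : l < 1) {x1 x2 : ℂ} (hx1 : ‖x1‖ ≤ l) (hx2 : ‖x2‖ ≤ l)
    {R : ℝ} (hR0 : 0 ≤ R) (hR : R < 1) {a a1 a2 : ℝ} (h01 : 0 ≤ a1) (haa1 : a1 ≤ a)
    (haa2 : a ≤ a2) (ha2 : a2 < 1) {ζ : ℂ} (hζ : ‖ζ‖ = 1) {t0 F Fd Q Qd nV dV P Pd KL : ℝ}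
    (ht : 0 ≤ t0) (hF0 : 0 ≤ F) (hF : 1 ≤ F ^ 2 * ((1 - l ^ 2) * (1 - R ^ 2)))
    (hFd0 : 0 ≤ Fd) (hFd : R ^ 2 * (1 + R ^ 2) ≤ Fd ^ 2 * ((1 - R ^ 2) ^ 3 * (1 - l ^ 2)))
    (hQ1 : 1 ≤ Q)
    (hQ : R ^ 2 * (a2 ^ 2 + l ^ 2 / (1 - l ^ 2)) ≤ (Q - 1) ^ 2 * ((1 - a2 ^ 2) * (1 - R ^ 2)))
    (hQd0 : 0 ≤ Qd) (hQd : R ^ 2 * (1 + R ^ 2) * (a2 ^ 2 + l ^ 2 / (1 - l ^ 2)) ≤
      Qd ^ 2 * ((1 - R ^ 2) ^ 3 * (1 - a2 ^ 2)))
    (hnV : (1 - a1 ^ 2) * R * Q ^ 2 ≤ nV)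
    (hdV : (1 - a1 ^ 2) * R * (Q ^ 2 + 2 * Q * Qd) ≤ dV)
    (hP : (1 + R) / (1 - R) ≤ P) (hPd : 2 * R / (1 - R) ^ 2 ≤ Pd) (hKL0 : 0 ≤ KL)
    (hKL : (1 + R ^ 2) - (1 - R ^ 2) ^ 3 ≤
      KL ^ 2 * ((1 - R ^ 2) ^ 3 * (1 - l) ^ 2 * (1 - l ^ 2))) :
    nr (fun z => XF t0 a x2 ζ z - XF t0 a x1 ζ z) R +
      dn (fun z => XF t0 a x2 ζ z - XF t0 a x1 ζ z) R ≤ ‖x2 - x1‖ *
      (KL + t0 * R * (2 * (2 * P * F * nV) + 2 * (Pd * F * nV + P * Fd * nV + P * F * dV))) := by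
  have hl0 : 0 ≤ l := (norm_nonneg x1).trans hx1
  have hx1' : ‖x1‖ < 1 := lt_of_le_of_lt hx1 hl
  have hx2' : ‖x2‖ < 1 := lt_of_le_of_lt hx2 hl
  have ha0 : 0 ≤ a := h01.trans haa1
  have ha1 : a < 1 := lt_of_le_of_lt haa2 ha2
  have hl2 : 0 < 1 - l ^ 2 := sqp hl0 hl
  have hA2 : 0 < 1 - a2 ^ 2 := sqp (ha0.trans haa2) ha2
  have hA : 0 < 1 - a ^ 2 := sqp ha0 ha1
  have hR2 : 0 < 1 - R ^ 2 := sqp hR0 hR
  have hS := gk_Sc ha0 ha1.le Sc_one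
  have hl1 : 0 < 1 - l := by linarith
  -- the functions
  have bd : ∀ x : ℂ, ‖x‖ ≤ l → Bdd R (LN x (gk a (fun _ => 1))) F Fd ∧
      Bdd R (VV a x) nV dV := by
    intro x hx
    have hx' : ‖x‖ < 1 := lt_of_le_of_lt hx hl
    have c1 : Bdd R (LN x (gk a (fun _ => 1))) F Fd := by
      have hB := WnAux.Bd_L hx hl ha0 ha1.le hR0 hR hF0 hF
      refine ⟨hB.1, hB.2, dn_le_of_sq (S := 1 / (1 - l ^ 2)) (fun N => ?_) hR0 hR hFd0 ?_⟩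
      · have h := LN_sq hx hl hS (N + 1)
        rw [Finset.sum_range_succ'] at h
        have := sq_nonneg ‖tc (LN x (gk a (fun _ => 1))) 0‖
        linarith
      · rw [one_div, inv_mul_le_iff₀ hl2]
        linarith
    have c2 : Bdd R (SeqAux.iq a x) Q Qd := by
      have hB := WnAux.Bd_iq hx hl ha0 haa2 ha2 hR0 hR hQ1 hQ
      refine ⟨hB.1, hB.2, dn_le_of_sq (WnAux.iq_sq hx hl ha0 haa2 ha2) hR0 hR hQd0 ?_⟩
      rw [div_mul_eq_mul_div, div_le_iff₀ hA2]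
      linarith
    refine ⟨c1, ?_⟩
    have c3 := ((Bdd.id hR0 hR).mul hR0 hR (c2.mul hR0 hR c2)).smul ((1 - a ^ 2 : ℝ) : ℂ)
    rw [Complex.norm_real, Real.norm_eq_abs, abs_of_pos hA] at c3
    have hpt : ∀ z : ℂ, ‖z‖ < 1 → VV a x z =
        ((1 - a ^ 2 : ℝ) : ℂ) * (z * (SeqAux.iq a x z * SeqAux.iq a x z)) := by
      intro z _
      rw [WnAux.VV_iq]; push_cast; ring
    have hQ0 : 0 ≤ Q := by linarith
    have hmono : 1 - a ^ 2 ≤ 1 - a1 ^ 2 := sqm h01 haa1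
    refine ⟨VV_diff hx' ha0 ha1.le, ?_, ?_⟩
    · rw [nr_congr c3.1 hpt]
      refine c3.2.1.trans (le_trans ?_ hnV)
      have : (1 - a ^ 2) * (R * Q ^ 2) ≤ (1 - a1 ^ 2) * (R * Q ^ 2) :=
        mul_le_mul_of_nonneg_right hmono (by positivity)
      linarith
    · rw [dn_congr c3.1 hpt]
      refine c3.2.2.trans (le_trans ?_ hdV)
      have : (1 - a ^ 2) * (R * (Q ^ 2 + 2 * Q * Qd)) ≤
          (1 - a1 ^ 2) * (R * (Q ^ 2 + 2 * Q * Qd)) :=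
        mul_le_mul_of_nonneg_right hmono (by positivity)
      linarith
  obtain ⟨bL1, bV1⟩ := bd x1 hx1
  obtain ⟨bL2, bV2⟩ := bd x2 hx2
  have bp : Bdd R (pz ζ) P Pd := (Bdd_pz hζ hR0 hR).mono hP hPd
  set L1 : ℂ → ℂ := LN x1 (gk a (fun _ => 1)) with hL1
  set L2 : ℂ → ℂ := LN x2 (gk a (fun _ => 1)) with hL2
  have bM := bp.mul hR0 hR ((bL2.mul hR0 hR bV1).add hR0 hR (bL1.mul hR0 hR bV2))
  have bzM := ((Bdd.id hR0 hR).mul hR0 hR bM).smul (t0 : ℂ)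
  rw [Complex.norm_real, Real.norm_eq_abs, abs_of_nonneg ht] at bzM
  -- the part `z L1 L2`
  have hg : DifferentiableOn ℂ (fun z => L1 z * L2 z) (ball 0 1) := bL1.1.mul bL2.1
  have hsq : ∀ N : ℕ, ∑ n ∈ Finset.range N, ‖tc (fun z => L1 z * L2 z) n‖ ^ 2 ≤
      1 / ((1 - l) ^ 2 * (1 - l ^ 2)) := by
    intro N
    have hh : DifferentiableOn ℂ (fun z => ((1 / (1 - l) : ℝ) : ℂ) * L2 z) (ball 0 1) :=
      bL2.1.const_mul _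
    have e1 : ∀ n, ‖tc (fun z => ((1 / (1 - l) : ℝ) : ℂ) * L2 z) n‖ ^ 2 =
        (1 / (1 - l)) ^ 2 * ‖tc L2 n‖ ^ 2 := by
      intro n
      have : tc (fun z => ((1 / (1 - l) : ℝ) : ℂ) * L2 z) n = ((1 / (1 - l) : ℝ) : ℂ) * tc L2 n :=
        tc_eq (c := fun n => ((1 / (1 - l) : ℝ) : ℂ) * tc L2 n) (fun z hz => by
          refine ((tc_hasSum bL2.1 hz).mul_left _).congr_fun (fun n => ?_)
          ring) n
      rw [this, norm_mul, mul_pow, Complex.norm_real, Real.norm_eq_abs, sq_abs]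
    have e2 : ∀ M : ℕ, ∑ n ∈ Finset.range M,
        ‖tc (fun z => ((1 / (1 - l) : ℝ) : ℂ) * L2 z) n‖ ^ 2 ≤
        1 / ((1 - l) ^ 2 * (1 - l ^ 2)) := by
      intro M
      have h := LN_sq hx2 hl hS M
      simp only [e1]
      rw [← Finset.mul_sum]
      have h2 := mul_le_mul_of_nonneg_left h (by positivity : (0 : ℝ) ≤ (1 / (1 - l)) ^ 2)
      refine h2.trans (le_of_eq ?_)
      rw [div_pow, one_pow, div_mul_div_comm, one_mul]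
    have hsum : Summable fun n => ‖tc (fun z => ((1 / (1 - l) : ℝ) : ℂ) * L2 z) n‖ ^ 2 :=
      summable_of_sum_range_le (fun n => by positivity) e2
    refine (sum_sq_le_of_norm_le hg hh (fun z hz => ?_) hsum N).trans
      (hsum.tsum_le_of_sum_range_le e2)
    have h1 := norm_LN_le hx1 hl hS hz
    rw [norm_mul, norm_mul, Complex.norm_real, Real.norm_eq_abs,
      abs_of_pos (by positivity : (0 : ℝ) < 1 / (1 - l))]
    exact mul_le_mul_of_nonneg_right h1 (norm_nonneg _)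
  have hzL : DifferentiableOn ℂ (fun z => z * (L1 z * L2 z)) (ball 0 1) := differentiableOn_id.mul hg
  have hw := wz_le hg hsq hR0 hR hKL0 (by
    rw [one_div, inv_mul_le_iff₀ (by positivity)]
    linarith)
  -- the sum
  have hpt : ∀ z : ℂ, ‖z‖ < 1 → XF t0 a x2 ζ z - XF t0 a x1 ζ z = (x2 - x1) *
      (z * (L1 z * L2 z) + (t0 : ℂ) *
        (z * (pz ζ z * (L2 z * VV a x1 z + L1 z * VV a x2 z)))) := by
    intro z hz
    have q1 := WnAux.iq_q hx1' ha0 ha1.le hz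
    have q2 := WnAux.iq_q hx2' ha0 ha1.le hz
    rw [XF_eq, XF_eq, hL1, hL2]
    simp only
    rw [WnAux.VV_iq, WnAux.VV_iq, WnAux.L_iq hx1' ha0 ha1.le hz, WnAux.L_iq hx2' ha0 ha1.le hz]
    generalize SeqAux.iq a x1 z = w1 at *
    generalize SeqAux.iq a x2 z = w2 at *
    generalize pz ζ z = p at *
    have h1 : w2 = w1 + (x2 - x1) * (z * (a - z)) * (w1 * w2) := by
      linear_combination (-w2) * q1 + w1 * q2
    linear_combination ((a - z) + t0 * p * ((1 - (a : ℂ) ^ 2) * z) * (w1 + w2)) * h1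
  have hsumd := hzL.add bzM.1
  have hsm := hsumd.const_mul (x2 - x1)
  have N1 : nr (fun z => XF t0 a x2 ζ z - XF t0 a x1 ζ z) R = ‖x2 - x1‖ *
      nr (fun z => z * (L1 z * L2 z) + (t0 : ℂ) *
        (z * (pz ζ z * (L2 z * VV a x1 z + L1 z * VV a x2 z)))) R := by
    rw [nr_congr hsm hpt R]
    exact nr_smul hsumd _ _
  have N2 : dn (fun z => XF t0 a x2 ζ z - XF t0 a x1 ζ z) R = ‖x2 - x1‖ *
      dn (fun z => z * (L1 z * L2 z) + (t0 : ℂ) *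
        (z * (pz ζ z * (L2 z * VV a x1 z + L1 z * VV a x2 z)))) R := by
    rw [dn_congr hsm hpt R]
    exact dn_smul hsumd _ _
  rw [N1, N2, ← mul_add]
  refine mul_le_mul_of_nonneg_left ?_ (norm_nonneg _)
  have N3 := nr_add_le hzL bzM.1 hR0 hR
  have N4 := dn_add_le hzL bzM.1 hR0 hR
  have N5 := bzM.2.1
  have N6 := bzM.2.2
  refine (add_le_add N3 N4).trans ?_
  have N7 := add_le_add hw (add_le_add N5 N6)
  refine le_trans (le_of_eq (by ring)) (N7.trans (le_of_eq ?_))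
  ring

end IntLAux

open IntLAux

/-- Interpolation in `l` and the radius. -/
theorem intL {l1 l2 : ℝ} (hl1 : 0 ≤ l1) (hl12 : l1 ≤ l2) (hl2 : l2 < 1) {R1 R2 : ℝ}
    (hR2 : 0 ≤ R2) (hR12 : R2 ≤ R1) (hR1 : R1 < 1) {a a1 a2 : ℝ} (h01 : 0 ≤ a1) (haa1 : a1 ≤ a)
    (haa2 : a ≤ a2) (ha2 : a2 < 1) {u : ℝ} (hu0 : 0 ≤ u) (hu1 : u ≤ 1) {e : ℂ} (he : ‖e‖ ≤ 1)
    {r : ℝ} (hr0 : 0 ≤ r) (hr : r ≤ (1 - u) * R1 + u * R2) {ζ : ℂ} (hζ : ‖ζ‖ = 1)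
    {t0 F Fd Q Qd nV dV P Pd KL : ℝ}
    (ht : 0 ≤ t0) (hF0 : 0 ≤ F) (hF : 1 ≤ F ^ 2 * ((1 - l2 ^ 2) * (1 - R1 ^ 2)))
    (hFd0 : 0 ≤ Fd) (hFd : R1 ^ 2 * (1 + R1 ^ 2) ≤ Fd ^ 2 * ((1 - R1 ^ 2) ^ 3 * (1 - l2 ^ 2)))
    (hQ1 : 1 ≤ Q)
    (hQ : R1 ^ 2 * (a2 ^ 2 + l2 ^ 2 / (1 - l2 ^ 2)) ≤
      (Q - 1) ^ 2 * ((1 - a2 ^ 2) * (1 - R1 ^ 2)))
    (hQd0 : 0 ≤ Qd) (hQd : R1 ^ 2 * (1 + R1 ^ 2) * (a2 ^ 2 + l2 ^ 2 / (1 - l2 ^ 2)) ≤
      Qd ^ 2 * ((1 - R1 ^ 2) ^ 3 * (1 - a2 ^ 2)))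
    (hnV : (1 - a1 ^ 2) * R1 * Q ^ 2 ≤ nV)
    (hdV : (1 - a1 ^ 2) * R1 * (Q ^ 2 + 2 * Q * Qd) ≤ dV)
    (hP : (1 + R1) / (1 - R1) ≤ P) (hPd : 2 * R1 / (1 - R1) ^ 2 ≤ Pd) (hKL0 : 0 ≤ KL)
    (hKL : (1 + R1 ^ 2) - (1 - R1 ^ 2) ^ 3 ≤
      KL ^ 2 * ((1 - R1 ^ 2) ^ 3 * (1 - l2) ^ 2 * (1 - l2 ^ 2))) :
    r * nr (XF t0 a ((((1 - u) * l1 + u * l2 : ℝ) : ℂ) * e) ζ) r ≤
      (1 - u) * (R1 * nr (XF t0 a (l1 * e) ζ) R1) + u * (R2 * nr (XF t0 a (l2 * e) ζ) R2) +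
      (R1 * ((l2 - l1) ^ 2 / 4) * (R1 ^ 2 * F ^ 3 + 3 * t0 * P * (R1 ^ 2 * F ^ 2 * nV)) +
      (R1 - R2) * (l2 - l1) / 4 * (KL + t0 * R1 * (2 * (2 * P * F * nV) +
        2 * (Pd * F * nV + P * Fd * nV + P * F * dV)))) := by
  have hu1' : 0 ≤ 1 - u := by linarith
  have hR0 : 0 ≤ R1 := hR2.trans hR12
  have hR21 : R2 < 1 := lt_of_le_of_lt hR12 hR1
  have hl20 : 0 ≤ l2 := hl1.trans hl12
  have ha0 : 0 ≤ a := h01.trans haa1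
  have ha1 : a < 1 := lt_of_le_of_lt haa2 ha2
  have hA2 : 0 < 1 - a2 ^ 2 := sqp (ha0.trans haa2) ha2
  have hl2' : 0 < 1 - l2 ^ 2 := sqp hl20 hl2
  have hRR : 0 < 1 - R1 ^ 2 := sqp hR0 hR1
  have hQ0 : 0 ≤ Q := by linarith
  have hP0 : 0 ≤ P := le_trans (by have : 0 < 1 - R1 := by linarith
                                   positivity) hP
  have hPd0 : 0 ≤ Pd := le_trans (by positivity) hPd
  have hA1 : 0 ≤ 1 - a1 ^ 2 := (sqp h01 (lt_of_le_of_lt haa1 ha1)).le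
  have hnV0 : 0 ≤ nV := le_trans (by positivity) hnV
  have hdV0 : 0 ≤ dV := le_trans (by positivity) hdV
  set l : ℝ := (1 - u) * l1 + u * l2 with hl
  have hll1 : l1 ≤ l := cvlo hu0 hl12
  have hll2 : l ≤ l2 := cvhi hu1 hl12
  have nx : ∀ s : ℝ, 0 ≤ s → s ≤ l2 → ‖(s : ℂ) * e‖ ≤ l2 := by
    intro s hs0 hs
    rw [norm_mul, Complex.norm_real, Real.norm_eq_abs, abs_of_nonneg hs0]
    exact (mul_le_of_le_one_right hs0 he).trans hs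
  have hx := nx l (hl1.trans hll1) hll2
  have hx1 := nx l1 hl1 hl12
  have hx2 := nx l2 hl20 le_rfl
  have hx' : ‖(l : ℂ) * e‖ < 1 := lt_of_le_of_lt hx hl2
  have hx1' : ‖(l1 : ℂ) * e‖ < 1 := lt_of_le_of_lt hx1 hl2
  have hx2' : ‖(l2 : ℂ) * e‖ < 1 := lt_of_le_of_lt hx2 hl2
  set X : ℂ → ℂ := XF t0 a ((l : ℂ) * e) ζ with hX
  set X1 : ℂ → ℂ := XF t0 a ((l1 : ℂ) * e) ζ with hX1
  set X2 : ℂ → ℂ := XF t0 a ((l2 : ℂ) * e) ζ with hX2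
  have dX : DifferentiableOn ℂ X (ball 0 1) := XF_diff hx' ha0 ha1.le hζ t0
  have dX1 : DifferentiableOn ℂ X1 (ball 0 1) := XF_diff hx1' ha0 ha1.le hζ t0
  have dX2 : DifferentiableOn ℂ X2 (ball 0 1) := XF_diff hx2' ha0 ha1.le hζ t0
  -- the interpolation at a fixed radius
  have hη : ‖(l : ℂ) * e - ((1 - u) * ((l1 : ℂ) * e) + u * ((l2 : ℂ) * e))‖ ≤ 0 := by
    have : (l : ℂ) * e - ((1 - u) * ((l1 : ℂ) * e) + u * ((l2 : ℂ) * e)) = 0 := by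
      rw [hl]; push_cast; ring
    rw [this, norm_zero]
  have hD : (1 - u) * ‖(l1 : ℂ) * e - (l : ℂ) * e‖ ^ 2 +
      u * ‖(l2 : ℂ) * e - (l : ℂ) * e‖ ^ 2 ≤ (l2 - l1) ^ 2 / 4 := by
    have e1 : (l1 : ℂ) * e - (l : ℂ) * e = ((-(u * (l2 - l1)) : ℝ) : ℂ) * e := by
      rw [hl]; push_cast; ring
    have e2 : (l2 : ℂ) * e - (l : ℂ) * e = (((1 - u) * (l2 - l1) : ℝ) : ℂ) * e := by
      rw [hl]; push_cast; ring
    rw [e1, e2, norm_mul, norm_mul, Complex.norm_real, Complex.norm_real, Real.norm_eq_abs,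
      Real.norm_eq_abs, mul_pow, mul_pow, sq_abs, sq_abs]
    have he2 : ‖e‖ ^ 2 ≤ 1 := pow_le_one₀ (norm_nonneg e) he
    have h3 : (1 - u) * (-(u * (l2 - l1))) ^ 2 + u * ((1 - u) * (l2 - l1)) ^ 2 ≤
        (l2 - l1) ^ 2 / 4 := quarter u (l2 - l1)
    have h4 : 0 ≤ (1 - u) * (-(u * (l2 - l1))) ^ 2 + u * ((1 - u) * (l2 - l1)) ^ 2 := by
      positivity
    calc (1 - u) * ((-(u * (l2 - l1))) ^ 2 * ‖e‖ ^ 2) +
          u * (((1 - u) * (l2 - l1)) ^ 2 * ‖e‖ ^ 2)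
        = ((1 - u) * (-(u * (l2 - l1))) ^ 2 + u * ((1 - u) * (l2 - l1)) ^ 2) * ‖e‖ ^ 2 := by ring
      _ ≤ ((1 - u) * (-(u * (l2 - l1))) ^ 2 + u * ((1 - u) * (l2 - l1)) ^ 2) * 1 :=
          mul_le_mul_of_nonneg_left he2 h4
      _ ≤ _ := by linarith
  -- the constants at a smaller radius
  have fixr : ∀ s : ℝ, 0 ≤ s → s ≤ R1 → nr X s ≤ (1 - u) * nr X1 s + u * nr X2 s +
      ((l2 - l1) ^ 2 / 4) * (R1 ^ 2 * F ^ 3 + 3 * t0 * P * (R1 ^ 2 * F ^ 2 * nV)) := by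
    intro s hs0 hsR
    have hs1 : s < 1 := lt_of_le_of_lt hsR hR1
    have hss : 1 - R1 ^ 2 ≤ 1 - s ^ 2 := sqm hs0 hsR
    have hs2 : s ^ 2 ≤ R1 ^ 2 := sqm' hs0 hsR
    have hF' : 1 ≤ F ^ 2 * ((1 - l2 ^ 2) * (1 - s ^ 2)) :=
      hF.trans (mul_le_mul_of_nonneg_left (mul_le_mul_of_nonneg_left hss hl2'.le) (sq_nonneg F))
    have hP' : (1 + s) / (1 - s) ≤ P := by
      refine le_trans ?_ hP
      exact div_le_div₀ (by linarith) (by linarith) (by linarith) (by linarith)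
    have hnV' : (1 - a ^ 2) * s * Q ^ 2 ≤ nV := by
      refine le_trans ?_ hnV
      have h5 : (1 - a ^ 2) * s ≤ (1 - a1 ^ 2) * R1 :=
        mul_le_mul (sqm h01 haa1) hsR hs0 hA1
      exact mul_le_mul_of_nonneg_right h5 (sq_nonneg Q)
    have hT0 : 0 ≤ a2 ^ 2 + l2 ^ 2 / (1 - l2 ^ 2) := by positivity
    have hQ' : s ^ 2 * (a2 ^ 2 + l2 ^ 2 / (1 - l2 ^ 2)) ≤
        (Q - 1) ^ 2 * ((1 - a2 ^ 2) * (1 - s ^ 2)) := by
      refine (mul_le_mul_of_nonneg_right hs2 hT0).trans (hQ.trans ?_)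
      exact mul_le_mul_of_nonneg_left (mul_le_mul_of_nonneg_left hss hA2.le) (sq_nonneg _)
    have h := intX hx hx1 hx2 hl2 ha0 haa2 ha2 hu0 hu1 hη hD ht hζ hs0 hs1 hF0 hF' hQ1 hQ' hnV' hP'
    refine h.trans ?_
    have h6 : s ^ 2 * F ^ 3 + 3 * t0 * P * (s ^ 2 * F ^ 2 * nV) ≤
        R1 ^ 2 * F ^ 3 + 3 * t0 * P * (R1 ^ 2 * F ^ 2 * nV) := by
      have h7 := mul_le_mul_of_nonneg_right hs2
        (by positivity : 0 ≤ F ^ 3 + 3 * t0 * P * (F ^ 2 * nV))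
      linarith
    have h8 := mul_le_mul_of_nonneg_left h6 (by positivity : 0 ≤ (l2 - l1) ^ 2 / 4)
    linarith
  have f1 := fixr R1 hR0 le_rfl
  have f2 := fixr R2 hR2 hR12
  set s : ℝ := (1 - u) * R1 + u * R2 with hs
  have hs0 : 0 ≤ s := by rw [hs]; positivity
  have hsR1 : s ≤ R1 := cvhi' hu0 hR12
  have hs1 : s < 1 := lt_of_le_of_lt hsR1 hR1
  have g1 : r * nr X r ≤ s * nr X s :=
    mul_le_mul hr (nr_mono dX hr0 hr hs1) (nr_nonneg _ hr0) hs0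
  have g2 := conv dX hR2 hR12 hR1 hu0 hu1
  rw [← hs] at g2
  have g3 := mixed dX1 dX2 hR2 hR12 hR1
  have g4 := dd_le (t0 := t0) hl2 hx1 hx2 hR0 hR1 h01 haa1 haa2 ha2 hζ ht hF0 hF hFd0 hFd hQ1 hQ
    hQd0 hQd hnV hdV hP hPd hKL0 hKL
  rw [← hX1, ← hX2] at g4
  set K : ℝ := KL + t0 * R1 * (2 * (2 * P * F * nV) +
        2 * (Pd * F * nV + P * Fd * nV + P * F * dV)) with hK
  have hK0 : 0 ≤ K := by rw [hK]; positivity
  have g5 : ‖(l2 : ℂ) * e - (l1 : ℂ) * e‖ ≤ l2 - l1 := by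
    have : (l2 : ℂ) * e - (l1 : ℂ) * e = ((l2 - l1 : ℝ) : ℂ) * e := by push_cast; ring
    rw [this, norm_mul, Complex.norm_real, Real.norm_eq_abs,
      abs_of_nonneg (sub_nonneg.2 hl12)]
    exact mul_le_of_le_one_right (sub_nonneg.2 hl12) he
  have g6 : (R1 - R2) * (nr (fun z => X2 z - X1 z) R1 + dn (fun z => X2 z - X1 z) R1) ≤
      (R1 - R2) * ((l2 - l1) * K) :=
    mul_le_mul_of_nonneg_left (g4.trans (mul_le_mul_of_nonneg_right g5 hK0)) (by linarith)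
  have g7 := g3.trans g6
  set E : ℝ := ((l2 - l1) ^ 2 / 4) * (R1 ^ 2 * F ^ 3 + 3 * t0 * P * (R1 ^ 2 * F ^ 2 * nV)) with hE
  have hE0 : 0 ≤ E := by rw [hE]; positivity
  have g8 : (1 - u) * (R1 * nr X R1) ≤
      (1 - u) * (R1 * ((1 - u) * nr X1 R1 + u * nr X2 R1 + E)) :=
    mul_le_mul_of_nonneg_left (mul_le_mul_of_nonneg_left f1 hR0) hu1'
  have g9 : u * (R2 * nr X R2) ≤
      u * (R2 * ((1 - u) * nr X1 R2 + u * nr X2 R2 + E)) :=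
    mul_le_mul_of_nonneg_left (mul_le_mul_of_nonneg_left f2 hR2) hu0
  have huu : u * (1 - u) ≤ 1 / 4 := by
    have := sq_nonneg (1 - 2 * u)
    linarith
  have huu0 : 0 ≤ u * (1 - u) := by positivity
  have hM0 : 0 ≤ (R1 - R2) * ((l2 - l1) * K) :=
    mul_nonneg (by linarith) (mul_nonneg (by linarith) hK0)
  have g10 := mul_le_mul_of_nonneg_left g7 huu0
  have g11 := mul_le_mul_of_nonneg_right huu hM0
  have g12 : u * (R2 * E) ≤ u * (R1 * E) :=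
    mul_le_mul_of_nonneg_left (mul_le_mul_of_nonneg_right hR12 hE0) hu0
  have e1 : R1 * ((l2 - l1) ^ 2 / 4) * (R1 ^ 2 * F ^ 3 + 3 * t0 * P * (R1 ^ 2 * F ^ 2 * nV)) =
      R1 * E := by rw [hE]; ring
  rw [e1]
  refine g1.trans (g2.trans ?_)
  linarith

end Pool.Agent.BNR
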