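import Pool.Agent.Lib.BNR.Seq

/-!
# The bound at one point of the parameter space, for all `ζ` at once

`|w| r^n ≤ ρ |w|^2 + r^(2n) / (4 ρ)`; `∑ ρ_n |el_n + t0 yy_n|^2` is a trigonometric polynomial in
`ζ`, `c0 + 2 Re ∑_k c_k ζ^k`, and for any polynomial `h`,
`2 Re ∑_k c_k ζ^k ≤ ∑ |h_j|^2 + 2 ∑_k |c_k + A_k|` with the autocorrelations `A_k` of `h`.
-/

set_option autoImplicit false

open Complex Metric Set
open scoped ComplexConjugate
open Pool.Agent.P187f6b Pool.Agent.P187w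

namespace Pool.Agent.BNR

/-- Coefficients of the product of `∑ v_n z^n` and `(1 + ζ z) / (1 - ζ z)`. -/
def yg (v : ℕ → ℂ) (ζ : ℂ) : ℕ → ℂ
  | 0 => v 0
  | n + 1 => ζ * yg v ζ n + v (n + 1) + ζ * v n

/-- `W_n = ∑_{n < m < N} ρ_m`. -/
def WW (ρ : ℕ → ℝ) (N n : ℕ) : ℝ := ∑ m ∈ Finset.Ioo n N, ρ m

/-- `g_n = 2 t0 ρ_n conj (e_n + t0 v_n) + 4 t0^2 W_n conj v_n`. -/
noncomputable def gq (e v : ℕ → ℂ) (t0 : ℝ) (ρ : ℕ → ℝ) (N n : ℕ) : ℂ :=
  2 * t0 * ρ n * conj (e n + t0 * v n) + 4 * t0 ^ 2 * (WW ρ N n : ℝ) * conj (v n)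

/-- The constant coefficient. -/
noncomputable def c0q (e v : ℕ → ℂ) (t0 : ℝ) (ρ : ℕ → ℝ) (N : ℕ) : ℝ :=
  ∑ n ∈ Finset.range N, (ρ n * ‖e n + t0 * v n‖ ^ 2 + 4 * t0 ^ 2 * WW ρ N n * ‖v n‖ ^ 2)

/-- The coefficient of `ζ ^ (k + 1)`. -/
noncomputable def ckq (e v : ℕ → ℂ) (t0 : ℝ) (ρ : ℕ → ℝ) (N k : ℕ) : ℂ :=
  ∑ j ∈ Finset.range (N - 1 - k), gq e v t0 ρ N (j + (k + 1)) * v j

/-- The autocorrelation of `h` at distance `k + 1`. -/
noncomputable def Aq (h : ℕ → ℂ) (N k : ℕ) : ℂ :=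
  ∑ j ∈ Finset.range (N - 1 - k), h (j + (k + 1)) * conj (h j)

namespace QuadAux

lemma tri (F : ℕ → ℕ → ℂ) (N : ℕ) : ∑ n ∈ Finset.range N, ∑ j ∈ Finset.range n, F n j =
    ∑ k ∈ Finset.range N, ∑ j ∈ Finset.range (N - 1 - k), F (j + (k + 1)) j := by
  induction N with
  | zero => simp
  | succ N ih =>
    rw [Finset.sum_range_succ, ih, Finset.sum_range_succ]
    have e0 : ∑ j ∈ Finset.range (N + 1 - 1 - N), F (j + (N + 1)) j = 0 := by
      rw [show N + 1 - 1 - N = 0 by omega]; simp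
    rw [e0, add_zero]
    have e1 : ∀ k ∈ Finset.range N, ∑ j ∈ Finset.range (N + 1 - 1 - k), F (j + (k + 1)) j =
        ∑ j ∈ Finset.range (N - 1 - k), F (j + (k + 1)) j + F N (N - 1 - k) := by
      intro k hk
      rw [Finset.mem_range] at hk
      rw [show N + 1 - 1 - k = (N - 1 - k) + 1 by omega, Finset.sum_range_succ,
        show N - 1 - k + (k + 1) = N by omega]
    rw [Finset.sum_congr rfl e1, Finset.sum_add_distrib, Finset.sum_range_reflect (F N) N]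

/-- `s_n = ∑_{j < n} v_j ζ^(n-j)`. -/
def sq (v : ℕ → ℂ) (ζ : ℂ) : ℕ → ℂ
  | 0 => 0
  | n + 1 => ζ * (sq v ζ n + v n)

lemma sq_eq (v : ℕ → ℂ) (ζ : ℂ) (n : ℕ) :
    sq v ζ n = ∑ j ∈ Finset.range n, v j * ζ ^ (n - j) := by
  induction n with
  | zero => simp [sq]
  | succ n ih =>
    rw [sq, ih, Finset.sum_range_succ, show n + 1 - n = 1 by omega, pow_one, mul_add,
      Finset.mul_sum]
    congr 1
    · refine Finset.sum_congr rfl (fun j hj => ?_)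
      rw [Finset.mem_range] at hj
      rw [show n + 1 - j = (n - j) + 1 by omega, pow_succ]
      ring
    · ring

lemma yg_sq (v : ℕ → ℂ) (ζ : ℂ) (n : ℕ) : yg v ζ n = v n + 2 * sq v ζ n := by
  induction n with
  | zero => simp [yg, sq]
  | succ n ih => rw [yg, ih, sq]; ring

lemma norm_sq_add (u w : ℂ) : ‖u + w‖ ^ 2 = ‖u‖ ^ 2 + ‖w‖ ^ 2 + 2 * (conj u * w).re := by
  rw [← Complex.normSq_eq_norm_sq, ← Complex.normSq_eq_norm_sq, ← Complex.normSq_eq_norm_sq]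
  simp only [Complex.normSq_apply, Complex.add_re, Complex.add_im, Complex.mul_re,
    Complex.conj_re, Complex.conj_im]
  ring

/-- `|s_n|^2` by the recursion. -/
lemma sq_norm (v : ℕ → ℂ) {ζ : ℂ} (hζ : ‖ζ‖ = 1) (n : ℕ) :
    ‖sq v ζ n‖ ^ 2 = ∑ m ∈ Finset.range n, (‖v m‖ ^ 2 + 2 * (conj (v m) * sq v ζ m).re) := by
  induction n with
  | zero => simp [sq]
  | succ n ih =>
    rw [Finset.sum_range_succ, ← ih, sq, norm_mul, hζ, one_mul, add_comm (sq v ζ n), norm_sq_add]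
    ring

lemma swap_W (ρ f : ℕ → ℝ) (N : ℕ) :
    ∑ n ∈ Finset.range N, ρ n * ∑ m ∈ Finset.range n, f m =
      ∑ m ∈ Finset.range N, WW ρ N m * f m := by
  unfold WW
  simp_rw [Finset.mul_sum, Finset.sum_mul]
  rw [Finset.sum_sigma', Finset.sum_sigma']
  refine Finset.sum_bij' (fun p _ => ⟨p.2, p.1⟩) (fun p _ => ⟨p.2, p.1⟩) ?_ ?_ ?_ ?_ ?_
  · rintro ⟨n, m⟩ hp
    simp only [Finset.mem_sigma, Finset.mem_range, Finset.mem_Ioo] at hp ⊢
    omega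
  · rintro ⟨m, n⟩ hp
    simp only [Finset.mem_sigma, Finset.mem_range, Finset.mem_Ioo] at hp ⊢
    omega
  · rintro ⟨n, m⟩ _; rfl
  · rintro ⟨n, m⟩ _; rfl
  · rintro ⟨n, m⟩ _; rfl

lemma conj_eq_inv {ζ : ℂ} (hζ : ‖ζ‖ = 1) : conj ζ = ζ⁻¹ := by
  rw [Complex.inv_def, Complex.normSq_eq_norm_sq, hζ]
  simp

/-- The square of the modulus of a polynomial. -/
lemma h_norm (h : ℕ → ℂ) {ζ : ℂ} (hζ : ‖ζ‖ = 1) (N : ℕ) :
    ‖∑ j ∈ Finset.range N, h j * ζ ^ j‖ ^ 2 = ∑ j ∈ Finset.range N, ‖h j‖ ^ 2 +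
      2 * (∑ k ∈ Finset.range N, Aq h N k * ζ ^ (k + 1)).re := by
  have hz : ζ ≠ 0 := by
    intro h0; rw [h0] at hζ; simp at hζ
  have h1 : ∀ M, ‖∑ j ∈ Finset.range M, h j * ζ ^ j‖ ^ 2 = ∑ j ∈ Finset.range M, ‖h j‖ ^ 2 +
      2 * (∑ n ∈ Finset.range M, ∑ j ∈ Finset.range n, h n * conj (h j) * ζ ^ (n - j)).re := by
    intro M
    induction M with
    | zero => simp
    | succ M ih =>
      rw [Finset.sum_range_succ, norm_sq_add, ih, Finset.sum_range_succ, Finset.sum_range_succ,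
        Complex.add_re, norm_mul, norm_pow, hζ, one_pow, mul_one]
      have e : conj (∑ j ∈ Finset.range M, h j * ζ ^ j) * (h M * ζ ^ M) =
          ∑ j ∈ Finset.range M, h M * conj (h j) * ζ ^ (M - j) := by
        rw [map_sum, Finset.sum_mul]
        refine Finset.sum_congr rfl (fun j hj => ?_)
        rw [Finset.mem_range] at hj
        rw [map_mul, map_pow, conj_eq_inv hζ, pow_sub₀ _ hz hj.le, inv_pow]
        ring
      rw [e]
      ring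
  rw [h1 N, tri (fun n j => h n * conj (h j) * ζ ^ (n - j)) N]
  congr 3
  refine Finset.sum_congr rfl (fun k _ => ?_)
  unfold Aq
  rw [Finset.sum_mul]
  refine Finset.sum_congr rfl (fun j _ => ?_)
  rw [show j + (k + 1) - j = k + 1 by omega]

end QuadAux

open QuadAux

/-- The trigonometric polynomial. -/
theorem quad_eq (e v : ℕ → ℂ) {ζ : ℂ} (hζ : ‖ζ‖ = 1) (t0 : ℝ) (ρ : ℕ → ℝ) (N : ℕ) :
    ∑ n ∈ Finset.range N, ρ n * ‖e n + t0 * yg v ζ n‖ ^ 2 =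
      c0q e v t0 ρ N + 2 * (∑ k ∈ Finset.range N, ckq e v t0 ρ N k * ζ ^ (k + 1)).re := by
  set s := sq v ζ with hs
  have h1 : ∀ n, ‖e n + t0 * yg v ζ n‖ ^ 2 = ‖e n + t0 * v n‖ ^ 2 + 4 * t0 ^ 2 * ‖s n‖ ^ 2 +
      2 * (2 * t0 * conj (e n + t0 * v n) * s n).re := by
    intro n
    rw [yg_sq, show e n + t0 * (v n + 2 * sq v ζ n) =
      (e n + t0 * v n) + 2 * t0 * s n by rw [hs]; ring, norm_sq_add]
    have e1 : ‖2 * (t0 : ℂ) * s n‖ ^ 2 = 4 * t0 ^ 2 * ‖s n‖ ^ 2 := by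
      rw [norm_mul, norm_mul, mul_pow, mul_pow, Complex.norm_real, Real.norm_eq_abs, sq_abs]
      norm_num
    rw [e1, show conj (e n + t0 * v n) * (2 * t0 * s n) =
      2 * t0 * conj (e n + t0 * v n) * s n by ring]
  have h2 : ∑ n ∈ Finset.range N, ρ n * ‖s n‖ ^ 2 =
      ∑ m ∈ Finset.range N, WW ρ N m * (‖v m‖ ^ 2 + 2 * (conj (v m) * s m).re) := by
    rw [← swap_W ρ (fun m => ‖v m‖ ^ 2 + 2 * (conj (v m) * s m).re) N]
    refine Finset.sum_congr rfl (fun n _ => ?_)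
    rw [hs, sq_norm v hζ n]
  have h3 : ∑ k ∈ Finset.range N, ckq e v t0 ρ N k * ζ ^ (k + 1) =
      ∑ n ∈ Finset.range N, gq e v t0 ρ N n * s n := by
    have := tri (fun n j => gq e v t0 ρ N n * v j * ζ ^ (n - j)) N
    have e1 : ∑ n ∈ Finset.range N, gq e v t0 ρ N n * s n =
        ∑ n ∈ Finset.range N, ∑ j ∈ Finset.range n, gq e v t0 ρ N n * v j * ζ ^ (n - j) := by
      refine Finset.sum_congr rfl (fun n _ => ?_)
      rw [hs, sq_eq, Finset.mul_sum]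
      exact Finset.sum_congr rfl (fun j _ => by ring)
    rw [e1, this]
    refine Finset.sum_congr rfl (fun k _ => ?_)
    unfold ckq
    rw [Finset.sum_mul]
    refine Finset.sum_congr rfl (fun j _ => ?_)
    rw [show j + (k + 1) - j = k + 1 by omega]
  rw [h3]
  have h4 : ∀ n, (gq e v t0 ρ N n * s n).re = ρ n * (2 * t0 * conj (e n + t0 * v n) * s n).re +
      4 * t0 ^ 2 * WW ρ N n * (conj (v n) * s n).re := by
    intro n
    unfold gq
    have e1 : (2 * (t0 : ℂ) * ρ n * conj (e n + t0 * v n) +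
        4 * (t0 : ℂ) ^ 2 * (WW ρ N n : ℝ) * conj (v n)) * s n =
        ((ρ n : ℝ) : ℂ) * (2 * t0 * conj (e n + t0 * v n) * s n) +
          ((4 * t0 ^ 2 * WW ρ N n : ℝ) : ℂ) * (conj (v n) * s n) := by
      push_cast; ring
    rw [e1, Complex.add_re, Complex.re_ofReal_mul, Complex.re_ofReal_mul]
  have h5 : ∑ n ∈ Finset.range N, ρ n * ‖e n + t0 * yg v ζ n‖ ^ 2 =
      ∑ n ∈ Finset.range N, ρ n * ‖e n + t0 * v n‖ ^ 2 +
        4 * t0 ^ 2 * ∑ n ∈ Finset.range N, ρ n * ‖s n‖ ^ 2 +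
        2 * ∑ n ∈ Finset.range N, ρ n * (2 * t0 * conj (e n + t0 * v n) * s n).re := by
    rw [Finset.mul_sum, Finset.mul_sum, ← Finset.sum_add_distrib, ← Finset.sum_add_distrib]
    refine Finset.sum_congr rfl (fun n _ => ?_)
    rw [h1 n]; ring
  rw [h5, h2]
  unfold c0q
  rw [Complex.re_sum, Finset.sum_congr rfl (fun n _ => h4 n)]
  simp only [Finset.mul_sum, ← Finset.sum_add_distrib]
  refine Finset.sum_congr rfl (fun n _ => ?_)
  ring

/-- The bound at a point, for every `ζ` on the circle. `h` is an arbitrary polynomial. -/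
theorem quad_le (e v : ℕ → ℂ) {ζ : ℂ} (hζ : ‖ζ‖ = 1) (t0 : ℝ) {r : ℝ} {ρ : ℕ → ℝ} {N : ℕ}
    (hρ : ∀ n, n < N → 0 < ρ n) (h : ℕ → ℂ) :
    ∑ n ∈ Finset.range N, ‖e n + t0 * yg v ζ n‖ * r ^ n ≤
      ∑ n ∈ Finset.range N, r ^ (2 * n) / (4 * ρ n) + c0q e v t0 ρ N +
        ∑ j ∈ Finset.range N, ‖h j‖ ^ 2 +
        2 * ∑ k ∈ Finset.range N, ‖ckq e v t0 ρ N k + Aq h N k‖ := by
  have h1 : ∑ n ∈ Finset.range N, ‖e n + t0 * yg v ζ n‖ * r ^ n ≤
      ∑ n ∈ Finset.range N, (r ^ (2 * n) / (4 * ρ n) +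
        ρ n * ‖e n + t0 * yg v ζ n‖ ^ 2) := by
    refine Finset.sum_le_sum (fun n hn => ?_)
    have hp := hρ n (Finset.mem_range.1 hn)
    set w := ‖e n + t0 * yg v ζ n‖
    have h2 : r ^ (2 * n) / (4 * ρ n) + ρ n * w ^ 2 - w * r ^ n =
        (2 * ρ n * w - r ^ n) ^ 2 / (4 * ρ n) := by
      field_simp
      ring
    have h3 : 0 ≤ (2 * ρ n * w - r ^ n) ^ 2 / (4 * ρ n) := by positivity
    linarith
  have h2 := h_norm h hζ N
  have h3 : (∑ k ∈ Finset.range N, ckq e v t0 ρ N k * ζ ^ (k + 1)).re +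
      (∑ k ∈ Finset.range N, Aq h N k * ζ ^ (k + 1)).re ≤
      ∑ k ∈ Finset.range N, ‖ckq e v t0 ρ N k + Aq h N k‖ := by
    rw [← Complex.add_re, ← Finset.sum_add_distrib]
    refine (Complex.re_le_norm _).trans ((norm_sum_le _ _).trans (Finset.sum_le_sum (fun k _ => ?_)))
    rw [← add_mul, norm_mul, norm_pow, hζ, one_pow, mul_one]
  have h4 : 0 ≤ ‖∑ j ∈ Finset.range N, h j * ζ ^ j‖ ^ 2 := by positivity
  rw [Finset.sum_add_distrib, quad_eq e v hζ] at h1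
  linarith

/-- The sequence `yy` of the near zone. -/
lemma yy_eq_yg (a : ℝ) (x ζ : ℂ) (n : ℕ) : yy a x ζ n = yg (vv a x) ζ n := by
  induction n with
  | zero => simp [yy, yg, vv]
  | succ n ih => rw [yy, yg, ih]

/-- `yg` as a sum. -/
lemma yg_eq_sum (v : ℕ → ℂ) (ζ : ℂ) (n : ℕ) :
    yg v ζ n = v n + 2 * ∑ k ∈ Finset.range n, v (n - (k + 1)) * ζ ^ (k + 1) := by
  rw [yg_sq, sq_eq]
  congr 2
  rw [← Finset.sum_range_reflect]
  refine Finset.sum_congr rfl (fun k hk => ?_)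
  rw [Finset.mem_range] at hk
  rw [show n - 1 - k = n - (k + 1) by omega, show n - (n - (k + 1)) = k + 1 by omega]

/-- The bound at a point `(a, x)` of the parameter space, all partial sums: `quad_le` and
`tail_rec` together are used by the checker; here the finite part. -/
theorem vertex_le (a : ℝ) (x : ℂ) {ζ : ℂ} (hζ : ‖ζ‖ = 1) (t0 : ℝ) {r : ℝ} {ρ : ℕ → ℝ} {N : ℕ}
    (hρ : ∀ n, n < N → 0 < ρ n) (h : ℕ → ℂ) :
    ∑ n ∈ Finset.range N, ‖el a x n + t0 * yy a x ζ n‖ * r ^ n ≤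
      ∑ n ∈ Finset.range N, r ^ (2 * n) / (4 * ρ n) + c0q (el a x) (vv a x) t0 ρ N +
        ∑ j ∈ Finset.range N, ‖h j‖ ^ 2 +
        2 * ∑ k ∈ Finset.range N, ‖ckq (el a x) (vv a x) t0 ρ N k + Aq h N k‖ := by
  simp_rw [yy_eq_yg]
  exact quad_le (el a x) (vv a x) hζ t0 hρ h

/-- Perturbation: the sequences may be replaced by approximations. -/
theorem quad_le_approx (e v e' v' : ℕ → ℂ) {ζ : ℂ} (hζ : ‖ζ‖ = 1) {t0 : ℝ} (ht : 0 ≤ t0) {r : ℝ}
    (hr : 0 ≤ r) {ρ : ℕ → ℝ} {N : ℕ} (hρ : ∀ n, n < N → 0 < ρ n) (h : ℕ → ℂ) {de dv : ℕ → ℝ}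
    (he : ∀ n, n < N → ‖e n - e' n‖ ≤ de n) (hv : ∀ n, n < N → ‖v n - v' n‖ ≤ dv n) :
    ∑ n ∈ Finset.range N, ‖e n + t0 * yg v ζ n‖ * r ^ n ≤
      ∑ n ∈ Finset.range N, r ^ (2 * n) / (4 * ρ n) + c0q e' v' t0 ρ N +
        ∑ j ∈ Finset.range N, ‖h j‖ ^ 2 +
        2 * ∑ k ∈ Finset.range N, ‖ckq e' v' t0 ρ N k + Aq h N k‖ +
        ∑ n ∈ Finset.range N, (de n + t0 * (dv n + 2 * ∑ m ∈ Finset.range n, dv m)) * r ^ n := by
  have h0 := quad_le e' v' hζ t0 (r := r) hρ h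
  have h1 : ∑ n ∈ Finset.range N, ‖e n + t0 * yg v ζ n‖ * r ^ n ≤
      ∑ n ∈ Finset.range N, ‖e' n + t0 * yg v' ζ n‖ * r ^ n +
        ∑ n ∈ Finset.range N, (de n + t0 * (dv n + 2 * ∑ m ∈ Finset.range n, dv m)) * r ^ n := by
    rw [← Finset.sum_add_distrib]
    refine Finset.sum_le_sum (fun n hn => ?_)
    rw [← add_mul]
    refine mul_le_mul_of_nonneg_right ?_ (pow_nonneg hr n)
    have hn' := Finset.mem_range.1 hn
    have e1 : e n + t0 * yg v ζ n = (e' n + t0 * yg v' ζ n) +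
        ((e n - e' n) + t0 * (yg v ζ n - yg v' ζ n)) := by ring
    rw [e1]
    refine (norm_add_le _ _).trans ?_
    have e2 : ‖yg v ζ n - yg v' ζ n‖ ≤ dv n + 2 * ∑ m ∈ Finset.range n, dv m := by
      rw [yg_eq_sum, yg_eq_sum]
      have e3 : v n + 2 * ∑ k ∈ Finset.range n, v (n - (k + 1)) * ζ ^ (k + 1) -
          (v' n + 2 * ∑ k ∈ Finset.range n, v' (n - (k + 1)) * ζ ^ (k + 1)) =
          (v n - v' n) + 2 * ∑ k ∈ Finset.range n,
            (v (n - (k + 1)) - v' (n - (k + 1))) * ζ ^ (k + 1) := by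
        simp only [sub_mul, Finset.sum_sub_distrib]
        ring
      rw [e3]
      refine (norm_add_le _ _).trans (add_le_add (hv n hn') ?_)
      rw [norm_mul]
      have e4 : ‖(2 : ℂ)‖ = 2 := by norm_num
      rw [e4]
      refine mul_le_mul_of_nonneg_left ?_ (by norm_num)
      refine (norm_sum_le _ _).trans ?_
      rw [← Finset.sum_range_reflect dv n]
      refine Finset.sum_le_sum (fun k hk => ?_)
      rw [Finset.mem_range] at hk
      rw [norm_mul, norm_pow, hζ, one_pow, mul_one, show n - 1 - k = n - (k + 1) by omega]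
      exact hv _ (by omega)
    refine add_le_add le_rfl ((norm_add_le _ _).trans (add_le_add (he n hn') ?_))
    rw [norm_mul, Complex.norm_real, Real.norm_eq_abs, abs_of_nonneg ht]
    exact mul_le_mul_of_nonneg_left e2 ht
  linarith

end Pool.Agent.BNR
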