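import Pool.Agent.Lib.BNR.Seq

/-!
# A sharp tail for the near zone, from the last two terms

`tail_rec`: if `A r + l r ^ 2 < 1` with `a |1 + x| ≤ A`, the sums over `n ≥ N + 2` of `|el_n| r^n`,
`|uu_n| r^n`, `|vv_n| r^n`, `|yy_n| r^n` are bounded by the terms `n = N`, `n = N + 1`.
-/

set_option autoImplicit false

open Complex Metric Set
open Pool.Agent.P187f6b Pool.Agent.P187w

namespace Pool.Agent.BNR

namespace SeqTAux

/-- Shift of a sum of nonnegative terms. -/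
lemma shift_le {f : ℕ → ℝ} (hf : ∀ n, 0 ≤ f n) (N M : ℕ) :
    ∑ k ∈ Finset.range M, f (N + k) ≤ f N + ∑ k ∈ Finset.range M, f (N + 1 + k) := by
  have h1 : ∑ k ∈ Finset.range (M + 1), f (N + k) =
      ∑ k ∈ Finset.range M, f (N + (k + 1)) + f (N + 0) := Finset.sum_range_succ' _ _
  rw [Finset.sum_range_succ] at h1
  have h2 : ∑ k ∈ Finset.range M, f (N + (k + 1)) = ∑ k ∈ Finset.range M, f (N + 1 + k) :=
    Finset.sum_congr rfl (fun k _ => by rw [show N + (k + 1) = N + 1 + k by ring])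
  rw [h2, add_zero] at h1
  have := hf (N + M)
  linarith

/-- Partial sums of the tail of a sequence with `a (n+2) ≤ A a (n+1) + B a n + e n`. -/
lemma tail_fin {a e : ℕ → ℝ} (ha : ∀ n, 0 ≤ a n) {A B r E a0 a1 : ℝ} (hA : 0 ≤ A)
    (hB : 0 ≤ B) (hr : 0 ≤ r) (h : ∀ n, a (n + 2) ≤ A * a (n + 1) + B * a n + e n) (N : ℕ)
    (hq : A * r + B * r ^ 2 < 1)
    (h0 : a N * r ^ N ≤ a0) (h1 : a (N + 1) * r ^ (N + 1) ≤ a1)
    (hE : ∀ M, ∑ k ∈ Finset.range M, e (N + k) * r ^ (N + k + 2) ≤ E) (M : ℕ) :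
    ∑ k ∈ Finset.range M, a (N + 2 + k) * r ^ (N + 2 + k) ≤
      ((A * r + B * r ^ 2) * a1 + B * r ^ 2 * a0 + E) / (1 - A * r - B * r ^ 2) := by
  set f : ℕ → ℝ := fun n => a n * r ^ n with hf
  have hf0 : ∀ n, 0 ≤ f n := fun n => mul_nonneg (ha n) (pow_nonneg hr n)
  set S : ℝ := ∑ k ∈ Finset.range M, f (N + 2 + k) with hS
  have s1 : ∑ k ∈ Finset.range M, f (N + 1 + k) ≤ a1 + S := by
    have := shift_le hf0 (N + 1) M
    have h2 : f (N + 1) ≤ a1 := h1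
    rw [show N + 1 + 1 = N + 2 by ring] at this
    linarith
  have s0 : ∑ k ∈ Finset.range M, f (N + k) ≤ a0 + (a1 + S) := by
    have := shift_le hf0 N M
    have h2 : f N ≤ a0 := h0
    linarith
  have hmain : S ≤ A * r * ∑ k ∈ Finset.range M, f (N + 1 + k) +
      B * r ^ 2 * ∑ k ∈ Finset.range M, f (N + k) +
      ∑ k ∈ Finset.range M, e (N + k) * r ^ (N + k + 2) := by
    simp only [hS, hf]
    rw [Finset.mul_sum, Finset.mul_sum, ← Finset.sum_add_distrib, ← Finset.sum_add_distrib]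
    refine Finset.sum_le_sum (fun k _ => ?_)
    have h3 := mul_le_mul_of_nonneg_right (h (N + k)) (pow_nonneg hr (N + k + 2))
    rw [show N + 2 + k = N + k + 2 by ring, show N + 1 + k = N + k + 1 by ring]
    refine h3.trans (le_of_eq ?_)
    ring
  have h5 : A * r * ∑ k ∈ Finset.range M, f (N + 1 + k) ≤ A * r * (a1 + S) :=
    mul_le_mul_of_nonneg_left s1 (by positivity)
  have h6 : B * r ^ 2 * ∑ k ∈ Finset.range M, f (N + k) ≤ B * r ^ 2 * (a0 + (a1 + S)) :=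
    mul_le_mul_of_nonneg_left s0 (by positivity)
  have h7 := hE M
  have hD : 0 < 1 - A * r - B * r ^ 2 := by linarith
  change S ≤ _
  rw [le_div_iff₀ hD]
  nlinarith [h5, h6, h7, hmain]

end SeqTAux

open SeqTAux SeqAux

/-- The tail from the last two terms. -/
theorem tail_rec {x : ℂ} {l : ℝ} (hx : ‖x‖ ≤ l) {a : ℝ} (ha0 : 0 ≤ a) (ha1 : a ≤ 1)
    {ζ : ℂ} (hζ : ‖ζ‖ = 1) {t0 r A : ℝ} (ht : 0 ≤ t0) (hr0 : 0 ≤ r) (hr1 : r < 1)
    (hA : a * ‖1 + x‖ ≤ A) (hq : A * r + l * r ^ 2 < 1) (N : ℕ)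
    {E0 E1 U0 U1 V0 V1 Y1 Te Tu Tv Ty : ℝ}
    (hE0 : ‖el a x N‖ * r ^ N ≤ E0) (hE1 : ‖el a x (N + 1)‖ * r ^ (N + 1) ≤ E1)
    (hU0 : ‖uu a x N‖ * r ^ N ≤ U0) (hU1 : ‖uu a x (N + 1)‖ * r ^ (N + 1) ≤ U1)
    (hV0 : ‖vv a x N‖ * r ^ N ≤ V0) (hV1 : ‖vv a x (N + 1)‖ * r ^ (N + 1) ≤ V1)
    (hY1 : ‖yy a x ζ (N + 1)‖ * r ^ (N + 1) ≤ Y1)
    (hTe : (A * r + l * r ^ 2) * E1 + l * r ^ 2 * E0 ≤ (1 - A * r - l * r ^ 2) * Te)
    (hTu : (A * r + l * r ^ 2) * U1 + l * r ^ 2 * U0 ≤ (1 - A * r - l * r ^ 2) * Tu)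
    (hTv : (A * r + l * r ^ 2) * V1 + l * r ^ 2 * V0 + (1 - a ^ 2) * r * (U1 + Tu) ≤
      (1 - A * r - l * r ^ 2) * Tv)
    (hTy : r * Y1 + (1 + r) * Tv + r * V1 ≤ (1 - r) * Ty) (M : ℕ) :
    ∑ n ∈ Finset.range M, ‖el a x n + t0 * yy a x ζ n‖ * r ^ n ≤
      ∑ n ∈ Finset.range (N + 2), ‖el a x n + t0 * yy a x ζ n‖ * r ^ n + (Te + t0 * Ty) := by
  have hl0 : 0 ≤ l := (norm_nonneg x).trans hx
  have hA0 : 0 ≤ A := le_trans (by positivity) hA
  have hD : 0 < 1 - A * r - l * r ^ 2 := by linarith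
  have a1 : 0 ≤ 1 - a ^ 2 := by nlinarith
  have hr' : 0 < 1 - r := by linarith
  have hp : ‖(a : ℂ) * (1 + x)‖ ≤ A := by
    rw [norm_mul, Complex.norm_real, Real.norm_eq_abs, abs_of_nonneg ha0]; exact hA
  have E0' : 0 ≤ E0 := le_trans (by positivity) hE0
  have E1' : 0 ≤ E1 := le_trans (by positivity) hE1
  have U0' : 0 ≤ U0 := le_trans (by positivity) hU0
  have U1' : 0 ≤ U1 := le_trans (by positivity) hU1
  have V0' : 0 ≤ V0 := le_trans (by positivity) hV0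
  have V1' : 0 ≤ V1 := le_trans (by positivity) hV1
  have Y1' : 0 ≤ Y1 := le_trans (by positivity) hY1
  have step : ∀ (u v w : ℂ) , ‖(a : ℂ) * (1 + x) * u - x * v + w‖ ≤
      A * ‖u‖ + l * ‖v‖ + ‖w‖ := by
    intro u v w
    calc ‖(a : ℂ) * (1 + x) * u - x * v + w‖ ≤
        ‖(a : ℂ) * (1 + x) * u - x * v‖ + ‖w‖ := norm_add_le _ _
      _ ≤ (‖(a : ℂ) * (1 + x) * u‖ + ‖x * v‖) + ‖w‖ := by gcongr; exact norm_sub_le _ _
      _ ≤ _ := by
        rw [norm_mul (↑a * (1 + x)), norm_mul x]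
        gcongr
  -- el
  have te : ∀ M, ∑ k ∈ Finset.range M, ‖el a x (N + 2 + k)‖ * r ^ (N + 2 + k) ≤ Te := by
    intro M
    have h := tail_fin (a := fun n => ‖el a x n‖) (e := fun _ => 0) (E := 0)
      (fun n => norm_nonneg _) hA0 hl0 hr0 (fun n => by
        have := step (el a x (n + 1)) (el a x n) 0
        rw [add_zero, norm_zero] at this
        exact this) N hq hE0 hE1 (fun M => by simp) M
    refine h.trans ?_
    rw [div_le_iff₀ hD]
    linarith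
  have tu : ∀ M, ∑ k ∈ Finset.range M, ‖uu a x (N + 2 + k)‖ * r ^ (N + 2 + k) ≤ Tu := by
    intro M
    have h := tail_fin (a := fun n => ‖uu a x n‖) (e := fun _ => 0) (E := 0)
      (fun n => norm_nonneg _) hA0 hl0 hr0 (fun n => by
        have := step (uu a x (n + 1)) (uu a x n) 0
        rw [add_zero, norm_zero] at this
        exact this) N hq hU0 hU1 (fun M => by simp) M
    refine h.trans ?_
    rw [div_le_iff₀ hD]
    linarith
  have tv : ∀ M, ∑ k ∈ Finset.range M, ‖vv a x (N + 2 + k)‖ * r ^ (N + 2 + k) ≤ Tv := by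
    intro M
    have h := tail_fin (a := fun n => ‖vv a x n‖) (e := fun n => (1 - a ^ 2) * ‖uu a x (n + 1)‖)
      (E := (1 - a ^ 2) * r * (U1 + Tu))
      (fun n => norm_nonneg _) hA0 hl0 hr0 (fun n => by
        have := step (vv a x (n + 1)) (vv a x n) ((1 - (a : ℂ) ^ 2) * uu a x (n + 1))
        have e1 : ‖(1 - (a : ℂ) ^ 2) * uu a x (n + 1)‖ = (1 - a ^ 2) * ‖uu a x (n + 1)‖ := by
          rw [norm_mul]
          have : (1 : ℂ) - (a : ℂ) ^ 2 = ((1 - a ^ 2 : ℝ) : ℂ) := by push_cast; ring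
          rw [this, Complex.norm_real, Real.norm_eq_abs, abs_of_nonneg a1]
        rw [e1] at this
        exact this) N hq hV0 hV1 (fun M => by
        have e2 : ∀ k ∈ Finset.range M, (1 - a ^ 2) * ‖uu a x (N + k + 1)‖ * r ^ (N + k + 2) =
            (1 - a ^ 2) * r * (‖uu a x (N + 1 + k)‖ * r ^ (N + 1 + k)) := by
          intro k _
          rw [show N + 1 + k = N + k + 1 by ring, pow_succ r (N + k + 1)]
          ring
        rw [Finset.sum_congr rfl e2, ← Finset.mul_sum]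
        refine mul_le_mul_of_nonneg_left ?_ (by positivity)
        have h3 := shift_le (f := fun n => ‖uu a x n‖ * r ^ n) (fun n => by positivity) (N + 1) M
        have h4 := tu M
        rw [show N + 1 + 1 = N + 2 by ring] at h3
        linarith) M
    refine h.trans ?_
    rw [div_le_iff₀ hD]
    linarith
  have ty : ∀ M, ∑ k ∈ Finset.range M, ‖yy a x ζ (N + 2 + k)‖ * r ^ (N + 2 + k) ≤ Ty := by
    intro M
    set S := ∑ k ∈ Finset.range M, ‖yy a x ζ (N + 2 + k)‖ * r ^ (N + 2 + k) with hS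
    have h1 : S ≤ r * ∑ k ∈ Finset.range M, ‖yy a x ζ (N + 1 + k)‖ * r ^ (N + 1 + k) +
        ∑ k ∈ Finset.range M, ‖vv a x (N + 2 + k)‖ * r ^ (N + 2 + k) +
        r * ∑ k ∈ Finset.range M, ‖vv a x (N + 1 + k)‖ * r ^ (N + 1 + k) := by
      rw [hS, Finset.mul_sum, Finset.mul_sum, ← Finset.sum_add_distrib, ← Finset.sum_add_distrib]
      refine Finset.sum_le_sum (fun k _ => ?_)
      have h2 : ‖yy a x ζ (N + 2 + k)‖ ≤ ‖yy a x ζ (N + 1 + k)‖ + ‖vv a x (N + 2 + k)‖ +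
          ‖vv a x (N + 1 + k)‖ := by
        rw [show N + 2 + k = N + 1 + k + 1 by ring, yy]
        refine (norm_add₃_le).trans ?_
        rw [norm_mul, norm_mul, hζ, one_mul, one_mul]
      have h3 := mul_le_mul_of_nonneg_right h2 (pow_nonneg hr0 (N + 2 + k))
      refine h3.trans (le_of_eq ?_)
      rw [show N + 2 + k = N + 1 + k + 1 by ring, pow_succ r (N + 1 + k)]
      ring
    have h2 := shift_le (f := fun n => ‖yy a x ζ n‖ * r ^ n) (fun n => by positivity) (N + 1) M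
    have h3 := shift_le (f := fun n => ‖vv a x n‖ * r ^ n) (fun n => by positivity) (N + 1) M
    rw [show N + 1 + 1 = N + 2 by ring] at h2 h3
    have h4 := tv M
    have h5 : r * ∑ k ∈ Finset.range M, ‖yy a x ζ (N + 1 + k)‖ * r ^ (N + 1 + k) ≤
        r * (Y1 + S) := mul_le_mul_of_nonneg_left (by linarith) hr0
    have h6 : r * ∑ k ∈ Finset.range M, ‖vv a x (N + 1 + k)‖ * r ^ (N + 1 + k) ≤
        r * (V1 + Tv) := mul_le_mul_of_nonneg_left (by linarith) hr0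
    have h7 : (1 - r) * S ≤ (1 - r) * Ty := by nlinarith [h1, h4, h5, h6, hTy]
    exact le_of_mul_le_mul_left h7 hr'
  have Te' : 0 ≤ Te := by simpa using te 0
  have Ty' : 0 ≤ Ty := by simpa using ty 0
  refine split_sum (f := fun n => ‖el a x n + t0 * yy a x ζ n‖ * r ^ n)
    (fun n => by positivity) (N + 2) M (by positivity) (fun J => ?_)
  have h1 : ∀ j ∈ Finset.range J, ‖el a x (N + 2 + j) + t0 * yy a x ζ (N + 2 + j)‖ *
      r ^ (N + 2 + j) ≤ ‖el a x (N + 2 + j)‖ * r ^ (N + 2 + j) +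
        t0 * (‖yy a x ζ (N + 2 + j)‖ * r ^ (N + 2 + j)) := by
    intro j _
    have h2 : ‖el a x (N + 2 + j) + t0 * yy a x ζ (N + 2 + j)‖ ≤
        ‖el a x (N + 2 + j)‖ + t0 * ‖yy a x ζ (N + 2 + j)‖ := by
      refine (norm_add_le _ _).trans ?_
      rw [norm_mul, Complex.norm_real, Real.norm_eq_abs, abs_of_nonneg ht]
    have h3 := mul_le_mul_of_nonneg_right h2 (pow_nonneg hr0 (N + 2 + j))
    refine h3.trans (le_of_eq ?_)
    ring
  refine (Finset.sum_le_sum h1).trans ?_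
  rw [Finset.sum_add_distrib, ← Finset.mul_sum]
  exact add_le_add (te J) (mul_le_mul_of_nonneg_left (ty J) ht)

end Pool.Agent.BNR
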